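import Mathlib

set_option autoImplicit false

/-! # Even permutations are products of two commutators (MP_75608d_al, packet A) -/

namespace Pool.Agent.Helper62.PairA

open Equiv

variable {α : Type} [Fintype α] [DecidableEq α]

/-- Squares are commutators in the symmetric group. -/
theorem sq_comm (a : Perm α) : ∃ b : Perm α, a * a = a * b * a⁻¹ * b⁻¹ := by
  have h : IsConj a⁻¹ a := by
    rw [Perm.isConj_iff_cycleType_eq, Perm.cycleType_inv]
  obtain ⟨b, hb⟩ := isConj_iff.mp h
  exact ⟨b, by rw [mul_assoc a b, mul_assoc a, hb]⟩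

theorem sq_of_invol : ∀ (n : ℕ) (w : Perm α), w.support.card ≤ n → w * w = 1 →
    Perm.sign w = 1 → ∃ a : Perm α, a.support ⊆ w.support ∧ a * a = w := by
  intro n
  induction n using Nat.strong_induction_on with
  | _ n ih =>
    intro w hn hw hs
    by_cases h1 : w = 1
    · exact ⟨1, by simp, by simp [h1]⟩
    obtain ⟨x, hx⟩ : ∃ x, w x ≠ x := by
      by_contra h
      push Not at h
      exact h1 (Equiv.ext h)
    have hww : ∀ z, w (w z) = z := fun z => by
      have := congrArg (fun f : Perm α => f z) hw
      simpa using this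
    set t1 : Perm α := swap x (w x) with ht1
    have hw1s : Perm.sign (t1 * w) = -1 := by
      rw [Perm.sign_mul, hs, mul_one, ht1, Perm.sign_swap (Ne.symm hx)]
    obtain ⟨y, hy⟩ : ∃ y, (t1 * w) y ≠ y := by
      by_contra h
      push Not at h
      have : t1 * w = 1 := Equiv.ext h
      rw [this, Perm.sign_one] at hw1s
      exact absurd hw1s (by decide)
    have hyx : y ≠ x := by
      rintro rfl
      apply hy
      rw [Perm.mul_apply, ht1, swap_apply_right]
    have hyx' : y ≠ w x := by
      rintro rfl
      apply hy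
      rw [Perm.mul_apply, hww, ht1, swap_apply_left]
    have hwy : w y ≠ y := by
      intro h
      apply hy
      rw [Perm.mul_apply, h, ht1, swap_apply_of_ne_of_ne hyx hyx']
    have hy'x : w y ≠ x := by
      intro h
      apply hyx'
      rw [← h, hww]
    have hy'x' : w y ≠ w x := fun h => hyx (w.injective h)
    set t2 : Perm α := swap y (w y) with ht2
    -- commutation
    have c1 : w * t1 = t1 * w := by
      have := swap_apply_apply w x (w x)
      rw [hww, swap_comm] at this
      rw [ht1]
      conv_rhs => rw [this]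
      group
    have c2 : w * t2 = t2 * w := by
      have := swap_apply_apply w y (w y)
      rw [hww, swap_comm] at this
      rw [ht2]
      conv_rhs => rw [this]
      group
    have hnd : [x, w x, y, w y].Nodup := by
      simp only [List.nodup_cons, List.mem_cons, List.not_mem_nil, or_false, not_or,
        not_false_eq_true, List.nodup_nil, and_true]
      exact ⟨⟨Ne.symm hx, hyx.symm, Ne.symm hy'x⟩, ⟨hyx'.symm, Ne.symm hy'x'⟩, Ne.symm hwy⟩
    have hdis : Perm.Disjoint t1 t2 := Perm.disjoint_swap_swap hnd
    have c12 : t1 * t2 = t2 * t1 := hdis.commute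
    have t1sq : t1 * t1 = 1 := swap_mul_self _ _
    have t2sq : t2 * t2 = 1 := swap_mul_self _ _
    set w2 : Perm α := t2 * t1 * w with hw2
    have hw2w2 : w2 * w2 = 1 := by
      calc w2 * w2 = t2 * t1 * (w * t2) * t1 * w := by rw [hw2]; group
        _ = t2 * t1 * t2 * (w * t1) * w := by rw [c2]; group
        _ = t2 * (t1 * t2) * t1 * (w * w) := by rw [c1]; group
        _ = (t2 * t2) * (t1 * t1) * (w * w) := by rw [c12]; group
        _ = 1 := by rw [t1sq, t2sq, hw]; simp
    have hw2s : Perm.sign w2 = 1 := by
      rw [hw2, Perm.sign_mul, Perm.sign_mul, hs, ht1, ht2, Perm.sign_swap (Ne.symm hx),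
        Perm.sign_swap (Ne.symm hwy)]
      decide
    have f2x : w2 x = x := by
      rw [hw2, Perm.mul_apply, Perm.mul_apply, ht1, swap_apply_right, ht2,
        swap_apply_of_ne_of_ne hyx.symm (Ne.symm hy'x)]
    have f2x' : w2 (w x) = w x := by
      rw [hw2, Perm.mul_apply, Perm.mul_apply, hww, ht1, swap_apply_left, ht2,
        swap_apply_of_ne_of_ne hyx'.symm (Ne.symm hy'x')]
    have f2y : w2 y = y := by
      rw [hw2, Perm.mul_apply, Perm.mul_apply, ht1, swap_apply_of_ne_of_ne hy'x hy'x', ht2,
        swap_apply_right]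
    have f2y' : w2 (w y) = w y := by
      rw [hw2, Perm.mul_apply, Perm.mul_apply, hww, ht1, swap_apply_of_ne_of_ne hyx hyx', ht2,
        swap_apply_left]
    have hsub : w2.support ⊆ w.support := by
      intro z hz
      rw [Perm.mem_support] at hz ⊢
      intro hwz
      apply hz
      have hzx : z ≠ x := by rintro rfl; exact hx hwz
      have hzx' : z ≠ w x := by rintro rfl; rw [hww] at hwz; exact hx hwz.symm
      have hzy : z ≠ y := by rintro rfl; exact hwy hwz
      have hzy' : z ≠ w y := by rintro rfl; rw [hww] at hwz; exact hwy hwz.symm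
      rw [hw2, Perm.mul_apply, Perm.mul_apply, hwz, ht1, swap_apply_of_ne_of_ne hzx hzx', ht2,
        swap_apply_of_ne_of_ne hzy hzy']
    have hcard : w2.support.card < w.support.card := by
      apply Finset.card_lt_card
      refine ⟨hsub, fun h => ?_⟩
      have : x ∈ w2.support := h (by rw [Perm.mem_support]; exact hx)
      rw [Perm.mem_support] at this
      exact this f2x
    obtain ⟨a2, ha2s, ha2⟩ := ih w2.support.card (by omega) w2 le_rfl hw2w2 hw2s
    -- the square root of `t1 * t2`
    set h : Perm α := swap x y * swap (w x) (w y) with hh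
    have hnd2 : [x, y, w x, w y].Nodup := by
      simp only [List.nodup_cons, List.mem_cons, List.not_mem_nil, or_false, not_or,
        not_false_eq_true, List.nodup_nil, and_true]
      exact ⟨⟨hyx.symm, Ne.symm hx, Ne.symm hy'x⟩, ⟨hyx', Ne.symm hwy⟩, Ne.symm hy'x'⟩
    have hcomm2 : swap x y * swap (w x) (w y) = swap (w x) (w y) * swap x y :=
      (Perm.disjoint_swap_swap hnd2).commute
    have hh2 : h * h = 1 := by
      rw [hh]
      calc swap x y * swap (w x) (w y) * (swap x y * swap (w x) (w y))
          = swap x y * (swap (w x) (w y) * swap x y) * swap (w x) (w y) := by group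
        _ = (swap x y * swap x y) * (swap (w x) (w y) * swap (w x) (w y)) := by
            rw [← hcomm2]; group
        _ = 1 := by rw [swap_mul_self, swap_mul_self, mul_one]
    have hhinv : h⁻¹ = h := inv_eq_of_mul_eq_one_right hh2
    have hhx : h x = y := by
      rw [hh, Perm.mul_apply, swap_apply_of_ne_of_ne (Ne.symm hx) (Ne.symm hy'x), swap_apply_left]
    have hhx' : h (w x) = w y := by
      rw [hh, Perm.mul_apply, swap_apply_left, swap_apply_of_ne_of_ne hy'x hwy]
    have hconj : h * t1 * h = t2 := by
      have := swap_apply_apply h x (w x)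
      rw [hhx, hhx', hhinv] at this
      rw [ht1, ht2, this]
    have hcc : (t1 * h) * (t1 * h) = t1 * t2 := by
      rw [← hconj]; group
    have hcfix : ∀ z, z ≠ x → z ≠ w x → z ≠ y → z ≠ w y → (t1 * h) z = z := by
      intro z hzx hzx' hzy hzy'
      rw [Perm.mul_apply, hh, Perm.mul_apply, swap_apply_of_ne_of_ne hzx' hzy',
        swap_apply_of_ne_of_ne hzx hzy, ht1, swap_apply_of_ne_of_ne hzx hzx']
    have hdis2 : Perm.Disjoint (t1 * h) a2 := by
      intro z
      by_cases hzx : z = x
      · right
        subst hzx
        by_contra hne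
        exact absurd f2x (Perm.mem_support.mp (ha2s (Perm.mem_support.mpr hne)))
      by_cases hzx' : z = w x
      · right
        subst hzx'
        by_contra hne
        exact absurd f2x' (Perm.mem_support.mp (ha2s (Perm.mem_support.mpr hne)))
      by_cases hzy : z = y
      · right
        subst hzy
        by_contra hne
        exact absurd f2y (Perm.mem_support.mp (ha2s (Perm.mem_support.mpr hne)))
      by_cases hzy' : z = w y
      · right
        subst hzy'
        by_contra hne
        exact absurd f2y' (Perm.mem_support.mp (ha2s (Perm.mem_support.mpr hne)))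
      left
      exact hcfix z hzx hzx' hzy hzy'
    refine ⟨(t1 * h) * a2, ?_, ?_⟩
    · intro z hz
      rw [Perm.mem_support] at hz ⊢
      intro hwz
      apply hz
      have hzx : z ≠ x := by rintro rfl; exact hx hwz
      have hzx' : z ≠ w x := by rintro rfl; rw [hww] at hwz; exact hx hwz.symm
      have hzy : z ≠ y := by rintro rfl; exact hwy hwz
      have hzy' : z ≠ w y := by rintro rfl; rw [hww] at hwz; exact hwy hwz.symm
      have ha2z : a2 z = z := by
        by_contra hne
        exact absurd hwz (Perm.mem_support.mp (hsub (ha2s (Perm.mem_support.mpr hne))))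
      rw [Perm.mul_apply, ha2z]
      exact hcfix z hzx hzx' hzy hzy'
    · have hc : (t1 * h) * a2 = a2 * (t1 * h) := hdis2.commute
      calc (t1 * h) * a2 * ((t1 * h) * a2) = (t1 * h) * (a2 * (t1 * h)) * a2 := by group
        _ = ((t1 * h) * (t1 * h)) * (a2 * a2) := by rw [← hc]; group
        _ = t1 * t2 * (t2 * t1 * w) := by rw [hcc, ha2]
        _ = t1 * (t2 * t2) * t1 * w := by group
        _ = (t1 * t1) * w := by rw [t2sq, mul_one]
        _ = w := by rw [t1sq, one_mul]

/-- Every permutation is an involution times an element of odd order. -/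
theorem invol_mul_odd (g : Perm α) : ∃ (w u : Perm α) (m : ℕ), g = w * u ∧
    w.support ⊆ g.support ∧ u.support ⊆ g.support ∧ w * w = 1 ∧ Odd m ∧ u ^ m = 1 := by
  induction g using Perm.cycle_induction_on with
  | base_one => exact ⟨1, 1, 1, by simp, by simp, by simp, by simp, odd_one, by simp⟩
  | base_cycles c hc =>
    rcases Nat.even_or_odd c.support.card with he | ho
    · have hc0 := hc
      obtain ⟨x, hx, -⟩ := hc0
      by_cases h2 : c (c x) = x
      · have hsw := hc.eq_swap_of_apply_apply_eq_self hx h2
        refine ⟨c, 1, 1, by simp, le_rfl, by simp, ?_, odd_one, by simp⟩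
        rw [hsw, swap_mul_self]
      · have hu : (swap x (c x) * c).IsCycle := hc.swap_mul hx h2
        have hsupp : (swap x (c x) * c).support = c.support \ {x} :=
          Perm.support_swap_mul_eq c x h2
        have hcard : (swap x (c x) * c).support.card = c.support.card - 1 := by
          rw [hsupp, Finset.card_sdiff_of_subset, Finset.card_singleton]
          rw [Finset.singleton_subset_iff, Perm.mem_support]
          exact hx
        refine ⟨swap x (c x), swap x (c x) * c, c.support.card - 1, ?_, ?_, ?_, swap_mul_self _ _,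
          ?_, ?_⟩
        · rw [← mul_assoc, swap_mul_self, one_mul]
        · rw [Perm.support_swap (Ne.symm hx)]
          intro z hz
          rw [Finset.mem_insert, Finset.mem_singleton] at hz
          rw [Perm.mem_support]
          rcases hz with rfl | rfl
          · exact hx
          · exact fun h => hx (c.injective h)
        · rw [hsupp]
          exact Finset.sdiff_subset
        · obtain ⟨k, hk⟩ := he
          have hpos : 0 < c.support.card := Finset.card_pos.mpr ⟨x, Perm.mem_support.mpr hx⟩
          exact ⟨k - 1, by omega⟩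
        · rw [← hcard, ← hu.orderOf]
          exact pow_orderOf_eq_one _
    · refine ⟨1, c, c.support.card, by simp, by simp, le_rfl, by simp, ho, ?_⟩
      rw [← hc.orderOf]
      exact pow_orderOf_eq_one _
  | induction_disjoint σ τ hd hc h1 h2 =>
    obtain ⟨w1, u1, m1, e1, sw1, su1, i1, o1, p1⟩ := h1
    obtain ⟨w2, u2, m2, e2, sw2, su2, i2, o2, p2⟩ := h2
    have hdis : Disjoint σ.support τ.support := Perm.disjoint_iff_disjoint_support.mp hd
    have cww : w1 * w2 = w2 * w1 :=
      (Perm.disjoint_iff_disjoint_support.mpr (hdis.mono sw1 sw2)).commute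
    have cuu : u1 * u2 = u2 * u1 :=
      (Perm.disjoint_iff_disjoint_support.mpr (hdis.mono su1 su2)).commute
    have cuw : u1 * w2 = w2 * u1 :=
      (Perm.disjoint_iff_disjoint_support.mpr (hdis.mono su1 sw2)).commute
    refine ⟨w1 * w2, u1 * u2, m1 * m2, ?_, ?_, ?_, ?_, o1.mul o2, ?_⟩
    · rw [e1, e2]
      calc w1 * u1 * (w2 * u2) = w1 * (u1 * w2) * u2 := by group
        _ = w1 * w2 * (u1 * u2) := by rw [cuw]; group
    · rw [hd.support_mul]
      exact (Perm.support_mul_le _ _).trans (Finset.union_subset_union sw1 sw2)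
    · rw [hd.support_mul]
      exact (Perm.support_mul_le _ _).trans (Finset.union_subset_union su1 su2)
    · calc w1 * w2 * (w1 * w2) = w1 * (w2 * w1) * w2 := by group
        _ = (w1 * w1) * (w2 * w2) := by rw [← cww]; group
        _ = 1 := by rw [i1, i2, one_mul]
    · have hcm : Commute u1 u2 := cuu
      rw [hcm.mul_pow, pow_mul, p1, one_pow, mul_comm m1 m2, pow_mul, p2, one_pow, one_mul]

theorem comm_width (g : Perm α) (hg : Perm.sign g = 1) :
    ∃ a b c d : Perm α, g = (a * b * a⁻¹ * b⁻¹) * (c * d * c⁻¹ * d⁻¹) := by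
  obtain ⟨w, u, m, e, -, -, hw, ho, hu⟩ := invol_mul_odd g
  have hsu : Perm.sign u = 1 := by
    have h1 : (Perm.sign u) ^ m = 1 := by rw [← map_pow, hu, map_one]
    rcases Int.units_eq_one_or (Perm.sign u) with h | h
    · exact h
    · rw [h, ho.neg_one_pow] at h1
      exact absurd h1 (by decide)
  have hsw : Perm.sign w = 1 := by
    rw [e, Perm.sign_mul, hsu, mul_one] at hg
    exact hg
  obtain ⟨a, -, ha⟩ := sq_of_invol _ w le_rfl hw hsw
  obtain ⟨b, hb⟩ := sq_comm a
  obtain ⟨k, hk⟩ := ho
  have hs : u ^ (k + 1) * u ^ (k + 1) = u := by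
    rw [← pow_add, show k + 1 + (k + 1) = m + 1 by omega, pow_succ, hu, one_mul]
  obtain ⟨d, hd⟩ := sq_comm (u ^ (k + 1))
  refine ⟨a, b, u ^ (k + 1), d, ?_⟩
  rw [← hb, ← hd, ha, hs, e]

end Pool.Agent.Helper62.PairA
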