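import Mathlib

set_option autoImplicit false

/-! # Two generators carry `s` elements (MP_75608d_al, packet D) -/

namespace Pool.Agent.Helper62.PairD

open Equiv

section group

variable {G : Type*} [Group G]

/-- In a product of pairwise commuting elements one factor can be moved to the front. -/
theorem ofFn_prod_factor : ∀ {s : ℕ} (f : Fin s → G) (_ : ∀ k l, k ≠ l → Commute (f k) (f l))
    (i : Fin s), ∃ r : G, (List.ofFn f).prod = f i * r ∧
      ∀ g : G, (∀ k, k ≠ i → Commute g (f k)) → Commute g r := by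
  intro s
  induction s with
  | zero => exact fun _ _ i => i.elim0
  | succ s ih =>
    intro f hf i
    rw [List.ofFn_succ, List.prod_cons]
    refine Fin.cases ?_ (fun i' => ?_) i
    · refine ⟨_, rfl, fun g hg => ?_⟩
      refine Commute.list_prod_right _ _ fun z hz => ?_
      obtain ⟨k, rfl⟩ := (List.mem_ofFn' _ _).mp hz
      exact hg _ (Fin.succ_ne_zero k)
    · obtain ⟨r, hr, hr2⟩ := ih (fun k => f k.succ)
        (fun k l hkl => hf _ _ (fun h => hkl (Fin.succ_injective _ h))) i'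
      refine ⟨f 0 * r, ?_, fun g hg => ?_⟩
      · rw [hr, ← mul_assoc, (hf 0 i'.succ (Fin.succ_ne_zero _).symm).eq, mul_assoc]
      · refine (hg 0 (Fin.succ_ne_zero _).symm).mul_right (hr2 g fun k hk => hg _ fun h => hk ?_)
        exact Fin.succ_injective _ h

theorem comm_of_factors {A A' r r' : G} (h1 : Commute A r) (h2 : Commute A r')
    (h3 : Commute A' r) (h4 : Commute A' r') (h5 : Commute r r') :
    (A * r) * (A' * r') * (A * r)⁻¹ * (A' * r')⁻¹ = A * A' * A⁻¹ * A'⁻¹ := by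
  calc (A * r) * (A' * r') * (A * r)⁻¹ * (A' * r')⁻¹
      = A * (r * A') * r' * r⁻¹ * A⁻¹ * r'⁻¹ * A'⁻¹ := by group
    _ = A * A' * (r * r') * r⁻¹ * A⁻¹ * r'⁻¹ * A'⁻¹ := by rw [← h3.eq]; group
    _ = A * A' * (r' * A⁻¹) * r'⁻¹ * A'⁻¹ := by rw [h5.eq]; group
    _ = A * A' * A⁻¹ * A'⁻¹ := by rw [← h2.inv_left.eq]; group

end group

theorem pow4_lt {a b : ℕ} (h : a < b) : 4 * 4 ^ (a + 1) ≤ 4 ^ (b + 1) := by
  rw [← pow_succ']
  exact Nat.pow_le_pow_right (by norm_num) (by omega)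

/-- Differences of powers of four determine the exponents. -/
theorem pow4_diff {k l i j : ℕ} (hkl : k ≠ l) (hij : i ≠ j)
    (h : 4 ^ (k + 1) + 4 ^ (j + 1) = 4 ^ (i + 1) + 4 ^ (l + 1)) : k = i := by
  have hp : ∀ a : ℕ, 0 < 4 ^ (a + 1) := fun a => by positivity
  have hk := hp k
  have hl := hp l
  have hi := hp i
  have hj := hp j
  by_contra hne
  rcases lt_trichotomy k j with h1 | h1 | h1
  · have a1 := pow4_lt h1
    rcases lt_trichotomy i l with h2 | h2 | h2
    · have a2 := pow4_lt h2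
      rcases lt_trichotomy j l with h3 | h3 | h3
      · have a3 := pow4_lt h3
        omega
      · subst h3
        rcases lt_trichotomy k i with h4 | h4 | h4
        · have a4 := pow4_lt h4; omega
        · exact hne h4
        · have a4 := pow4_lt h4; omega
      · have a3 := pow4_lt h3
        omega
    · subst h2
      rcases lt_trichotomy j i with h3 | h3 | h3
      · have a3 := pow4_lt h3; omega
      · exact hij h3.symm
      · have a3 := pow4_lt h3; omega
    · have a2 := pow4_lt h2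
      rcases lt_trichotomy j i with h3 | h3 | h3
      · have a3 := pow4_lt h3; omega
      · exact hij h3.symm
      · have a3 := pow4_lt h3; omega
  · subst h1
    rcases lt_trichotomy i l with h2 | h2 | h2
    · have a2 := pow4_lt h2
      rcases lt_trichotomy k l with h3 | h3 | h3
      · have a3 := pow4_lt h3; omega
      · exact hkl h3
      · have a3 := pow4_lt h3; omega
    · subst h2
      rcases lt_trichotomy k i with h3 | h3 | h3
      · have a3 := pow4_lt h3; omega
      · exact hkl h3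
      · have a3 := pow4_lt h3; omega
    · have a2 := pow4_lt h2
      rcases lt_trichotomy k i with h3 | h3 | h3
      · have a3 := pow4_lt h3; omega
      · exact hne h3
      · have a3 := pow4_lt h3; omega
  · have a1 := pow4_lt h1
    rcases lt_trichotomy i l with h2 | h2 | h2
    · have a2 := pow4_lt h2
      rcases lt_trichotomy k l with h3 | h3 | h3
      · have a3 := pow4_lt h3; omega
      · exact hkl h3
      · have a3 := pow4_lt h3; omega
    · subst h2
      rcases lt_trichotomy k i with h3 | h3 | h3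
      · have a3 := pow4_lt h3; omega
      · exact hkl h3
      · have a3 := pow4_lt h3; omega
    · have a2 := pow4_lt h2
      rcases lt_trichotomy k i with h3 | h3 | h3
      · have a3 := pow4_lt h3; omega
      · exact hne h3
      · have a3 := pow4_lt h3; omega

theorem y_pow_val {N a : ℕ} [NeZero N] (y : Perm (Fin N))
    (hy : y = Equiv.addRight (Fin.ofNat N a)) (d : ℕ) (v : Fin N) :
    ((y ^ d) v).val = (v.val + d * a) % N := by
  induction d with
  | zero => simp [Nat.mod_eq_of_lt v.isLt]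
  | succ d ih =>
    rw [pow_succ', Perm.mul_apply]
    have h1 : y ((y ^ d) v) = (y ^ d) v + Fin.ofNat N a := by rw [hy]; rfl
    rw [h1, Fin.val_add, ih]
    have h2 : (Fin.ofNat N a).val = a % N := rfl
    rw [h2, ← Nat.add_mod, Nat.succ_mul, ← add_assoc]

theorem disj_pos {N M a s : ℕ} [NeZero N] (hM : M ≤ 3 * a) (hN : 4 ^ (s + 2) * a ≤ N)
    (y : Perm (Fin N)) (hy : y = Equiv.addRight (Fin.ofNat N a))
    {σ τ : Perm (Fin N)} (hσ : ∀ t : Fin N, M ≤ t.val → σ t = t)
    (hτ : ∀ t : Fin N, M ≤ t.val → τ t = t) {p q : ℤ} (h1 : 3 ≤ p - q)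
    (h2 : p - q ≤ 3 * 4 ^ s) :
    Perm.Disjoint (y ^ p * σ * (y ^ p)⁻¹) (y ^ q * τ * (y ^ q)⁻¹) := by
  intro u
  by_contra hcon
  push Not at hcon
  obtain ⟨hu1, hu2⟩ := hcon
  set v : Fin N := (y ^ p)⁻¹ u with hv
  set v' : Fin N := (y ^ q)⁻¹ u with hv'
  have e1 : σ v ≠ v := by
    intro h
    apply hu1
    rw [Perm.mul_apply, Perm.mul_apply, ← hv, h, hv, ← Perm.mul_apply, mul_inv_cancel,
      Perm.one_apply]
  have e2 : τ v' ≠ v' := by
    intro h
    apply hu2
    rw [Perm.mul_apply, Perm.mul_apply, ← hv', h, hv', ← Perm.mul_apply, mul_inv_cancel,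
      Perm.one_apply]
  have l1 : v.val < M := by
    by_contra h
    exact e1 (hσ v (by omega))
  have l2 : v'.val < M := by
    by_contra h
    exact e2 (hτ v' (by omega))
  obtain ⟨d, hd⟩ := Int.eq_ofNat_of_zero_le (show 0 ≤ p - q by omega)
  have e3 : v' = (y ^ d) v := by
    rw [hv, hv', ← Perm.mul_apply, ← zpow_natCast]
    have : (y ^ q)⁻¹ = y ^ ((d : ℕ) : ℤ) * (y ^ p)⁻¹ := by
      rw [← zpow_neg, ← zpow_neg, ← zpow_add]
      congr 1
      have : ((d : ℕ) : ℤ) = p - q := hd.symm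
      omega
    rw [this]
  have h3 : 3 ≤ d := by
    have : ((d : ℕ) : ℤ) = p - q := hd.symm
    omega
  have h4 : d ≤ 3 * 4 ^ s := by
    have : ((d : ℕ) : ℤ) = p - q := hd.symm
    have h5 : ((d : ℕ) : ℤ) ≤ 3 * 4 ^ s := by rw [this]; exact h2
    exact_mod_cast h5
  have e4 := y_pow_val y hy d v
  rw [← e3] at e4
  have h6 : 1 ≤ 4 ^ s := Nat.one_le_pow _ _ (by norm_num)
  have h5 : v.val + d * a < N := by
    have h7 : d * a ≤ 3 * 4 ^ s * a := Nat.mul_le_mul_right _ h4
    have h8 : 3 * a ≤ 3 * 4 ^ s * a := Nat.mul_le_mul_right _ (by omega)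
    have h9 : 4 ^ (s + 2) * a = 16 * (4 ^ s * a) := by rw [pow_add]; ring
    have h10 : 3 * 4 ^ s * a = 3 * (4 ^ s * a) := by ring
    omega
  rw [Nat.mod_eq_of_lt h5] at e4
  have h7 : 3 * a ≤ d * a := Nat.mul_le_mul_right _ h3
  omega

theorem disj_abs {N M a s : ℕ} [NeZero N] (hM : M ≤ 3 * a) (hN : 4 ^ (s + 2) * a ≤ N)
    (y : Perm (Fin N)) (hy : y = Equiv.addRight (Fin.ofNat N a))
    {σ τ : Perm (Fin N)} (hσ : ∀ t : Fin N, M ≤ t.val → σ t = t)
    (hτ : ∀ t : Fin N, M ≤ t.val → τ t = t) {p q : ℤ} (h1 : 3 ≤ |p - q|)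
    (h2 : |p - q| ≤ 3 * 4 ^ s) :
    Commute (y ^ p * σ * (y ^ p)⁻¹) (y ^ q * τ * (y ^ q)⁻¹) := by
  rcases le_total 0 (p - q) with h | h
  · rw [abs_of_nonneg h] at h1 h2
    exact (disj_pos hM hN y hy hσ hτ h1 h2).commute
  · rw [abs_of_nonpos h, neg_sub] at h1 h2
    exact (disj_pos hM hN y hy hτ hσ h1 h2).commute.symm

theorem two_gen_words {N M a s : ℕ} [NeZero N] (hM : M ≤ 3 * a) (hN : 4 ^ (s + 2) * a ≤ N)
    (S : Fin s → Perm (Fin N)) (hS : ∀ i (t : Fin N), M ≤ t.val → S i t = t)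
    (y : Perm (Fin N)) (hy : y = Equiv.addRight (Fin.ofNat N a))
    (x : Perm (Fin N)) (hx : x = (List.ofFn fun i : Fin s =>
      y ^ (4 ^ (i.val + 1)) * S i * (y ^ (4 ^ (i.val + 1)))⁻¹).prod)
    (i j : Fin s) (hij : i ≠ j) :
    ∃ t : ℤ, |t| ≤ 4 ^ s ∧
      x * (y ^ t * x * (y ^ t)⁻¹) * x⁻¹ * (y ^ t * x * (y ^ t)⁻¹)⁻¹ =
        y ^ (4 ^ (i.val + 1)) * (S i * S j * (S i)⁻¹ * (S j)⁻¹) * (y ^ (4 ^ (i.val + 1)))⁻¹ := by
  -- positions
  set P : Fin s → ℤ := fun k => ((4 ^ (k.val + 1) : ℕ) : ℤ) with hP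
  have hPe : ∀ k, P k = ((4 ^ (k.val + 1) : ℕ) : ℤ) := fun _ => rfl
  have hPle : ∀ k, P k ≤ 4 ^ s := fun k => by
    have : 4 ^ (k.val + 1) ≤ 4 ^ s := Nat.pow_le_pow_right (by norm_num) (by omega)
    rw [hPe]
    exact_mod_cast this
  have hPpos : ∀ k, 0 < P k := fun k => by rw [hP]; positivity
  have hP4 : ∀ k, ∃ c : ℤ, P k = 4 * c := fun k => ⟨(4 ^ k.val : ℕ), by
    rw [hP]; push_cast; rw [pow_succ']⟩
  have hPne : ∀ k l, k ≠ l → P k ≠ P l := by
    intro k l hkl h
    apply hkl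
    have h1 : 4 ^ (k.val + 1) = 4 ^ (l.val + 1) := by
      rw [hPe, hPe] at h
      exact_mod_cast h
    have := Nat.pow_right_injective (le_refl 2 |>.trans (by norm_num) : 2 ≤ 4) h1
    exact Fin.ext (by omega)
  have hPdiff : ∀ k l, k ≠ i → ¬ (P k - P l = P i - P j) := by
    intro k l hki h
    by_cases hkl : k = l
    · subst hkl
      rw [sub_self] at h
      exact hPne i j hij (by omega)
    · apply hki
      have h1 : 4 ^ (k.val + 1) + 4 ^ (j.val + 1) = 4 ^ (i.val + 1) + 4 ^ (l.val + 1) := by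
        have h2 : P k + P j = P i + P l := by omega
        rw [hPe, hPe, hPe, hPe] at h2
        exact_mod_cast h2
      exact Fin.ext (pow4_diff (fun h => hkl (Fin.ext h)) (fun h => hij (Fin.ext h)) h1)
  have key : ∀ d : ℤ, (∃ c : ℤ, d = 4 * c) → d ≠ 0 → 3 ≤ |d| := by
    rintro d ⟨c, rfl⟩ h
    have : c ≠ 0 := by rintro rfl; exact h (by ring)
    have h1 : 1 ≤ |c| := Int.one_le_abs this
    rw [abs_mul]
    norm_num
    omega
  -- the conjugated element
  set t : ℤ := P i - P j with ht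
  have hx1 : x = (List.ofFn fun k : Fin s => y ^ P k * S k * (y ^ P k)⁻¹).prod := by
    rw [hx, hP]
    simp only [zpow_natCast]
  have hx2 : y ^ t * x * (y ^ t)⁻¹ =
      (List.ofFn fun k : Fin s => y ^ (P k + t) * S k * (y ^ (P k + t))⁻¹).prod := by
    have h1 : y ^ t * x * (y ^ t)⁻¹ = MulAut.conj (y ^ t) x := rfl
    rw [h1, hx1, map_list_prod, List.map_ofFn]
    congr 2
    funext k
    simp only [Function.comp_apply, MulAut.conj_apply]
    rw [add_comm, zpow_add]
    group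
  have hcf : ∀ k l, k ≠ l → Commute (y ^ P k * S k * (y ^ P k)⁻¹) (y ^ P l * S l * (y ^ P l)⁻¹) := by
    intro k l hkl
    obtain ⟨c, hc⟩ := hP4 k
    obtain ⟨c', hc'⟩ := hP4 l
    refine disj_abs hM hN y hy (hS k) (hS l)
      (key _ ⟨c - c', by rw [hc, hc']; ring⟩ (sub_ne_zero.mpr (hPne k l hkl))) ?_
    have a1 := hPle k
    have a2 := hPle l
    have a3 := hPpos k
    have a4 := hPpos l
    rw [abs_le]
    constructor <;> nlinarith
  have hcf' : ∀ k l, k ≠ l → Commute (y ^ (P k + t) * S k * (y ^ (P k + t))⁻¹)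
      (y ^ (P l + t) * S l * (y ^ (P l + t))⁻¹) := by
    intro k l hkl
    obtain ⟨c, hc⟩ := hP4 k
    obtain ⟨c', hc'⟩ := hP4 l
    refine disj_abs hM hN y hy (hS k) (hS l)
      (key _ ⟨c - c', by rw [hc, hc']; ring⟩ ?_) ?_
    · rw [add_sub_add_right_eq_sub]
      exact sub_ne_zero.mpr (hPne k l hkl)
    have a1 := hPle k
    have a2 := hPle l
    have a3 := hPpos k
    have a4 := hPpos l
    rw [abs_le]
    constructor <;> nlinarith
  obtain ⟨r, hr, hr2⟩ := ofFn_prod_factor (fun k : Fin s => y ^ P k * S k * (y ^ P k)⁻¹) hcf i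
  obtain ⟨r', hr', hr'2⟩ := ofFn_prod_factor
    (fun k : Fin s => y ^ (P k + t) * S k * (y ^ (P k + t))⁻¹) hcf' j
  have hPt : P j + t = P i := by rw [ht]; ring
  simp only [hPt] at hr'
  -- commutation of an element at position `P i`
  have hbase : ∀ (σ : Perm (Fin N)) (_ : ∀ u : Fin N, M ≤ u.val → σ u = u),
      Commute (y ^ P i * σ * (y ^ P i)⁻¹) r ∧ Commute (y ^ P i * σ * (y ^ P i)⁻¹) r' := by
    intro σ hσ
    obtain ⟨ci, hci⟩ := hP4 i
    obtain ⟨cj, hcj⟩ := hP4 j
    have a1 := hPle i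
    have a2 := hPle j
    have a3 := hPpos i
    have a4 := hPpos j
    constructor
    · refine hr2 _ fun k hk => ?_
      obtain ⟨c, hc⟩ := hP4 k
      have a5 := hPle k
      have a6 := hPpos k
      refine disj_abs hM hN y hy hσ (hS k)
        (key _ ⟨ci - c, by rw [hc, hci]; ring⟩ (sub_ne_zero.mpr (hPne i k (Ne.symm hk)))) ?_
      rw [abs_le]
      constructor <;> nlinarith
    · refine hr'2 _ fun k hk => ?_
      obtain ⟨c, hc⟩ := hP4 k
      have a5 := hPle k
      have a6 := hPpos k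
      have e : P i - (P k + t) = P j - P k := by rw [ht]; ring
      refine disj_abs hM hN y hy hσ (hS k)
        (key _ ⟨cj - c, by rw [e, hc, hcj]; ring⟩ ?_) ?_
      · rw [e]
        exact sub_ne_zero.mpr (hPne j k (Ne.symm hk))
      · rw [e, abs_le]
        constructor <;> nlinarith
  have hrr : Commute r r' := by
    refine hr'2 _ fun l hl => Commute.symm (hr2 _ fun k hk => ?_)
    obtain ⟨ci, hci⟩ := hP4 i
    obtain ⟨cj, hcj⟩ := hP4 j
    obtain ⟨c, hc⟩ := hP4 k
    obtain ⟨c', hc'⟩ := hP4 l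
    have a1 := hPle i
    have a2 := hPle j
    have a3 := hPpos i
    have a4 := hPpos j
    have a5 := hPle k
    have a6 := hPpos k
    have a7 := hPle l
    have a8 := hPpos l
    refine disj_abs hM hN y hy (hS l) (hS k)
      (key _ ⟨c' + (ci - cj) - c, by rw [ht, hc, hc', hci, hcj]; ring⟩ ?_) ?_
    · intro h
      exact hPdiff k l hk (by rw [ht] at h; linarith)
    · rw [ht, abs_le]
      constructor <;> nlinarith
  refine ⟨t, ?_, ?_⟩
  · have a1 := hPle i
    have a2 := hPle j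
    have a3 := hPpos i
    have a4 := hPpos j
    rw [ht, abs_le]
    constructor <;> linarith
  · rw [hx2, hr', hx1, hr]
    rw [comm_of_factors (hbase _ (hS i)).1 (hbase _ (hS i)).2 (hbase _ (hS j)).1
      (hbase _ (hS j)).2 hrr]
    have hPi : y ^ P i = y ^ (4 ^ (i.val + 1)) := by rw [hP]; exact zpow_natCast y _
    rw [hPi]
    group

end Pool.Agent.Helper62.PairD
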