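import Mathlib

/-!
Abstract MacLane-type inequality over the field with two elements.
-/

set_option linter.unusedSectionVars false

namespace Pool.Agent.Helper62

open Finset

/-- incidence indicator over `ZMod 2` -/
def ind {α : Type*} [DecidableEq α] (a b : α) : ZMod 2 := if a = b then 1 else 0

theorem zmod2_cases (x : ZMod 2) : x = 0 ∨ x = 1 := by
  revert x; decide

theorem zmod2_add_self (x : ZMod 2) : x + x = 0 := by
  revert x; decide

theorem zmod2_eq_of_add (x y : ZMod 2) (h : x + y = 0) : x = y := by
  revert x y; decide

theorem sum_ind {α : Type*} [DecidableEq α] [Fintype α] (a : α) :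
    ∑ b, ind a b = 1 := by
  simp [ind]

section

variable {Bt Et Ct W : Type} [Fintype Bt] [DecidableEq Bt] [Fintype Et] [DecidableEq Et]
  [Fintype W] [DecidableEq W]

/-- degree of the edge weighting `z` at the vertex `s` -/
def deg {Bt Et : Type} [DecidableEq Bt] [Fintype Et] (p q : Et → Bt) (z : Et → ZMod 2)
    (s : Bt) : ZMod 2 :=
  ∑ e, z e * (ind (p e) s + ind (q e) s)

theorem deg_add (p q : Et → Bt) (z z' : Et → ZMod 2) (s : Bt) :
    deg p q (fun e => z e + z' e) s = deg p q z s + deg p q z' s := by
  unfold deg
  rw [← Finset.sum_add_distrib]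
  apply Finset.sum_congr rfl
  intro e _; rw [add_mul]

theorem deg_smul (p q : Et → Bt) (c : ZMod 2) (z : Et → ZMod 2) (s : Bt) :
    deg p q (fun e => c * z e) s = c * deg p q z s := by
  unfold deg
  rw [Finset.mul_sum]
  apply Finset.sum_congr rfl
  intro e _; rw [mul_assoc]

theorem deg_fiber (p q : Et → Bt) (v : Bt → W) (z : Et → ZMod 2) (w : W) :
    deg (fun e => v (p e)) (fun e => v (q e)) z w
      = ∑ s ∈ univ.filter (fun s => v s = w), deg p q z s := by
  unfold deg
  rw [Finset.sum_comm]
  apply Finset.sum_congr rfl
  intro e _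
  rw [← Finset.mul_sum, Finset.sum_add_distrib]
  congr 1
  have key : ∀ b : Bt, ∑ s ∈ univ.filter (fun s => v s = w), ind b s = ind (v b) w := by
    intro b
    unfold ind
    rw [Finset.sum_ite_eq]
    simp
  rw [key, key]

/-- Lifting: a vertex weighting with zero sum on every class is the degree of an internal
edge weighting. -/
theorem lift_internal (p q : Et → Bt) (I : Et → Prop) (v : Bt → W)
    (hconn : ∀ b c, v b = v c → Relation.EqvGen (fun b c => ∃ e, I e ∧ p e = b ∧ q e = c) b c)
    (d : Bt → ZMod 2)
    (hd : ∀ w, ∑ s ∈ univ.filter (fun s => v s = w), d s = 0) :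
    ∃ t : Et → ZMod 2, (∀ e, ¬ I e → t e = 0) ∧ ∀ s, deg p q t s = d s := by
  classical
  -- the submodule of realizable weightings
  let U : Submodule (ZMod 2) (Bt → ZMod 2) :=
    { carrier := {d | ∃ t : Et → ZMod 2, (∀ e, ¬ I e → t e = 0) ∧ ∀ s, deg p q t s = d s}
      add_mem' := by
        rintro a b ⟨t, ht, ht'⟩ ⟨u, hu, hu'⟩
        refine ⟨fun e => t e + u e, ?_, ?_⟩
        · intro e he; simp [ht e he, hu e he]
        · intro s
          rw [deg_add, ht' s, hu' s]; rfl
      zero_mem' := ⟨0, by simp, by intro s; simp [deg]⟩
      smul_mem' := by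
        rintro c a ⟨t, ht, ht'⟩
        refine ⟨fun e => c * t e, ?_, ?_⟩
        · intro e he; simp [ht e he]
        · intro s
          rw [deg_smul, ht' s]; rfl }
  have hpair : ∀ b c, Relation.EqvGen (fun b c => ∃ e, I e ∧ p e = b ∧ q e = c) b c →
      (fun s => ind b s + ind c s) ∈ U := by
    intro b c h
    induction h with
    | rel b c h =>
      obtain ⟨e, he, rfl, rfl⟩ := h
      refine ⟨fun f => ind e f, ?_, ?_⟩
      · intro f hf
        have hne : e ≠ f := by rintro rfl; exact hf he
        simp [ind, hne]
      · intro s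
        unfold deg
        rw [Finset.sum_eq_single e]
        · simp [ind]
        · intro f _ hf
          simp [ind, Ne.symm hf]
        · intro h; exact absurd (Finset.mem_univ _) h
    | refl b =>
      have : (fun s => ind b s + ind b s) = (0 : Bt → ZMod 2) := by
        funext s; exact zmod2_add_self _
      rw [this]; exact U.zero_mem
    | symm b c _ ih =>
      have : (fun s => ind c s + ind b s) = (fun s => ind b s + ind c s) := by
        funext s; ring
      rw [this]; exact ih
    | trans b c d _ _ ih1 ih2 =>
      have : (fun s => ind b s + ind d s)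
          = (fun s => ind b s + ind c s) + (fun s => ind c s + ind d s) := by
        funext s
        simp only [Pi.add_apply]
        have := zmod2_add_self (ind c s)
        linear_combination -this
      rw [this]; exact U.add_mem ih1 ih2
  -- representatives
  by_cases hB : Nonempty Bt
  swap
  · refine ⟨0, by simp, ?_⟩
    intro s; exact absurd ⟨s⟩ hB
  have hrep : ∃ rep : W → Bt, ∀ s, v (rep (v s)) = v s := by
    refine ⟨fun w => if h : ∃ s, v s = w then h.choose else hB.some, ?_⟩
    intro s
    have h : ∃ s', v s' = v s := ⟨s, rfl⟩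
    simp only [dif_pos h]
    exact h.choose_spec
  obtain ⟨rep, hrep⟩ := hrep
  have hmem : d ∈ U := by
    have heq : d = ∑ s, d s • (fun x => ind s x + ind (rep (v s)) x) := by
      funext x
      rw [Finset.sum_apply]
      simp only [Pi.smul_apply, smul_eq_mul, mul_add]
      rw [Finset.sum_add_distrib]
      have h1 : ∑ s, d s * ind s x = d x := by
        simp [ind]
      have h2 : ∑ s, d s * ind (rep (v s)) x = 0 := by
        have : ∑ s, d s * ind (rep (v s)) x
            = ∑ w, ∑ s ∈ univ.filter (fun s => v s = w), d s * ind (rep (v s)) x := by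
          rw [Finset.sum_fiberwise]
        rw [this]
        apply Finset.sum_eq_zero
        intro w _
        have : ∑ s ∈ univ.filter (fun s => v s = w), d s * ind (rep (v s)) x
            = (∑ s ∈ univ.filter (fun s => v s = w), d s) * ind (rep w) x := by
          rw [Finset.sum_mul]
          apply Finset.sum_congr rfl
          intro s hs
          rw [(Finset.mem_filter.mp hs).2]
        rw [this, hd w, zero_mul]
      rw [h1, h2, add_zero]
    rw [heq]
    apply U.sum_mem
    intro s _
    apply U.smul_mem
    apply hpair
    apply hconn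
    exact (hrep s).symm
  exact hmem

/-- The abstract MacLane-type inequality. -/
theorem maclane [Finite Ct]
    (p q : Et → Bt) (l r : Et → Ct) (ρ : Ct → Ct → Prop)
    (P1 : ∀ z : Et → ZMod 2, (∀ s, deg p q z s = 0) →
      ∃ g : Ct → ZMod 2, (∀ c d, ρ c d → g c = g d) ∧ ∀ e, z e = g (l e) + g (r e))
    (P2 : ∀ g : Ct → ZMod 2, (∀ c d, ρ c d → g c = g d) →
      ∀ s, deg p q (fun e => g (l e) + g (r e)) s = 0)
    (I : Et → Prop) (S : Finset Et) (hSI : ∀ e ∈ S, ¬ I e)
    [Nonempty W] (v : Bt → W)
    (hI : ∀ e, I e → v (p e) = v (q e))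
    (hconn : ∀ b c, v b = v c → Relation.EqvGen (fun b c => ∃ e, I e ∧ p e = b ∧ q e = c) b c)
    (h4 : ∀ z : Et → ZMod 2, (∀ e, e ∉ S → z e = 0) → z ≠ 0 →
      (∀ w, deg (fun e => v (p e)) (fun e => v (q e)) z w = 0) →
      4 ≤ (univ.filter (fun e => z e ≠ 0)).card) :
    S.card + 1 ≤ Fintype.card W ∨ S.card + 4 ≤ 2 * Fintype.card W := by
  classical
  have := Fintype.ofFinite Ct
  -- the merged relation
  let ρ' : Ct → Ct → Prop := fun c d => ρ c d ∨ ∃ e, e ∉ S ∧ ¬ I e ∧ l e = c ∧ r e = d
  let Q := Quot ρ'
  have : Finite Q := Quot.finite _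
  have : Fintype Q := Fintype.ofFinite Q
  -- extension of a function on S by zero
  let ext : (S → ZMod 2) → Et → ZMod 2 := fun z e => if h : e ∈ S then z ⟨e, h⟩ else 0
  have ext_add : ∀ z z' e, ext (z + z') e = ext z e + ext z' e := by
    intro z z' e
    by_cases h : e ∈ S <;> simp [ext, h]
  have ext_smul : ∀ (c : ZMod 2) z e, ext (c • z) e = c * ext z e := by
    intro c z e
    by_cases h : e ∈ S <;> simp [ext, h]
  let D : (S → ZMod 2) →ₗ[ZMod 2] (W → ZMod 2) :=
    { toFun := fun z w => deg (fun e => v (p e)) (fun e => v (q e)) (ext z) w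
      map_add' := by
        intro z z'
        funext w
        have : ext (z + z') = fun e => ext z e + ext z' e := by funext e; exact ext_add z z' e
        simp only [this, deg_add, Pi.add_apply]
      map_smul' := by
        intro c z
        funext w
        have : ext (c • z) = fun e => c * ext z e := by funext e; exact ext_smul c z e
        simp only [this, deg_smul, Pi.smul_apply, smul_eq_mul, RingHom.id_apply] }
  have hrn := LinearMap.finrank_range_add_finrank_ker D
  have hdimS : Module.finrank (ZMod 2) (S → ZMod 2) = S.card := by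
    simp
  have hrange : Module.finrank (ZMod 2) (LinearMap.range D) + 1 ≤ Fintype.card W := by
    have hlt : LinearMap.range D < ⊤ := by
      rw [lt_top_iff_ne_top]
      intro htop
      obtain ⟨w0⟩ := (inferInstance : Nonempty W)
      have hmem : (fun w => ind w0 w) ∈ LinearMap.range D := by rw [htop]; trivial
      obtain ⟨z, hz⟩ := hmem
      have hsum : ∑ w, D z w = 0 := by
        show ∑ w, deg (fun e => v (p e)) (fun e => v (q e)) (ext z) w = 0
        unfold deg
        rw [Finset.sum_comm]
        apply Finset.sum_eq_zero
        intro e _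
        rw [← Finset.mul_sum, Finset.sum_add_distrib, sum_ind, sum_ind]
        rw [zmod2_add_self, mul_zero]
      rw [hz, sum_ind] at hsum
      exact one_ne_zero hsum
    have := Submodule.finrank_lt (ne_of_lt hlt)
    rw [Module.finrank_fintype_fun_eq_card] at this
    omega
  -- vectors attached to the classes
  let u : Q → (S → ZMod 2) := fun K e =>
    ind (Quot.mk ρ' (l e.1)) K + ind (Quot.mk ρ' (r e.1)) K
  have hu_sum : ∑ K, u K = 0 := by
    funext e
    rw [Finset.sum_apply]
    simp only [u]
    rw [Finset.sum_add_distrib, sum_ind, sum_ind]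
    exact zmod2_add_self 1
  -- every function respecting ρ' yields an element of the kernel
  have hker_of : ∀ g : Ct → ZMod 2, (∀ c d, ρ' c d → g c = g d) →
      (fun e : S => g (l e.1) + g (r e.1)) ∈ LinearMap.ker D := by
    intro g hg
    rw [LinearMap.mem_ker]
    funext w
    change deg (fun e => v (p e)) (fun e => v (q e))
      (ext (fun e : S => g (l e.1) + g (r e.1))) w = 0
    have h2 := P2 g (fun c d h => hg c d (Or.inl h))
    -- decompose
    have hsplit : ∀ e : Et, (g (l e) + g (r e)) * (ind (v (p e)) w + ind (v (q e)) w)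
        = ext (fun e : S => g (l e.1) + g (r e.1)) e * (ind (v (p e)) w + ind (v (q e)) w) := by
      intro e
      by_cases heS : e ∈ S
      · simp [ext, heS]
      · by_cases heI : I e
        · rw [hI e heI, zmod2_add_self]; simp
        · have : g (l e) = g (r e) := hg _ _ (Or.inr ⟨e, heS, heI, rfl, rfl⟩)
          rw [this, zmod2_add_self]; simp [ext, heS]
    have hfib := deg_fiber p q v (fun e => g (l e) + g (r e)) w
    have hz : ∑ s ∈ univ.filter (fun s => v s = w), deg p q (fun e => g (l e) + g (r e)) s = 0 :=
      Finset.sum_eq_zero (fun s _ => h2 s)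
    rw [hz] at hfib
    rw [← hfib]
    unfold deg
    apply Finset.sum_congr rfl
    intro e _
    exact (hsplit e).symm
  have hu_ker : ∀ K, u K ∈ LinearMap.ker D := by
    intro K
    have := hker_of (fun c => ind (Quot.mk ρ' c) K) (by
      intro c d h
      show ind (Quot.mk ρ' c) K = ind (Quot.mk ρ' d) K
      rw [Quot.sound h])
    exact this
  -- kernel is spanned by the u K
  have hspan : LinearMap.ker D ≤ Submodule.span (ZMod 2) (Set.range u) := by
    intro z hz
    rw [LinearMap.mem_ker] at hz
    -- lift
    have hd : ∀ w, ∑ s ∈ univ.filter (fun s => v s = w), deg p q (ext z) s = 0 := by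
      intro w
      rw [← deg_fiber]
      exact congrFun hz w
    obtain ⟨t, ht, ht'⟩ := lift_internal p q I v hconn (deg p q (ext z)) hd
    obtain ⟨g, hg, hg'⟩ := P1 (fun e => ext z e + t e) (by
      intro s
      rw [deg_add, ht' s]
      exact zmod2_add_self _)
    have hgρ : ∀ c d, ρ' c d → g c = g d := by
      rintro c d (h | ⟨e, heS, heI, rfl, rfl⟩)
      · exact hg c d h
      · have h := hg' e
        rw [ht e heI] at h
        simp only [ext, dif_neg heS, add_zero] at h
        exact zmod2_eq_of_add _ _ h.symm
    let G : Q → ZMod 2 := Quot.lift g hgρ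
    have hzG : z = ∑ K, G K • u K := by
      funext e
      have h := hg' e.1
      rw [ht e.1 (hSI e.1 e.2)] at h
      simp only [ext, dif_pos e.2, add_zero] at h
      rw [Finset.sum_apply]
      simp only [Pi.smul_apply, smul_eq_mul, u, mul_add]
      rw [Finset.sum_add_distrib]
      have h1 : ∀ c : Ct, ∑ K, G K * ind (Quot.mk ρ' c) K = g c := by
        intro c
        simp [ind, G]
      rw [h1, h1]
      exact h
    rw [hzG]
    apply Submodule.sum_mem
    intro K _
    apply Submodule.smul_mem
    apply Submodule.subset_span
    exact ⟨K, rfl⟩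
  -- nonzero classes
  let Q' : Finset Q := univ.filter (fun K => u K ≠ 0)
  have hQ'sum : ∑ K ∈ Q', u K = 0 := by
    rw [← hu_sum]
    rw [Finset.sum_filter_ne_zero]
  have hcard4 : ∀ K ∈ Q', 4 ≤ (univ.filter (fun e : S => u K e ≠ 0)).card := by
    intro K hK
    have hne : u K ≠ 0 := (Finset.mem_filter.mp hK).2
    have h := h4 (ext (u K)) (by intro e he; simp [ext, he]) (by
      intro h0
      apply hne
      funext e
      have := congrFun h0 e.1
      simpa [ext, e.2] using this) (by
      intro w
      have := hu_ker K
      rw [LinearMap.mem_ker] at this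
      exact congrFun this w)
    refine h.trans ?_
    apply Finset.card_le_card_of_surjOn (fun e : S => e.1)
    intro e he
    simp only [Finset.coe_filter, Finset.mem_univ, true_and, Set.mem_ofPred_eq] at he
    have heS : e ∈ S := by
      by_contra hcon
      apply he; simp [ext, hcon]
    refine ⟨⟨e, heS⟩, ?_, rfl⟩
    simp only [Finset.coe_filter, Finset.mem_univ, true_and, Set.mem_ofPred_eq]
    simpa [ext, heS] using he
  have hcount : 4 * Q'.card ≤ 2 * S.card := by
    have h1 : 4 * Q'.card ≤ ∑ K ∈ Q', (univ.filter (fun e : S => u K e ≠ 0)).card := by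
      rw [mul_comm]
      have := Finset.card_nsmul_le_sum Q' (fun K => (univ.filter (fun e : S => u K e ≠ 0)).card) 4
        hcard4
      simpa using this
    refine h1.trans ?_
    have h2 : ∑ K ∈ Q', (univ.filter (fun e : S => u K e ≠ 0)).card
        ≤ ∑ K, (univ.filter (fun e : S => u K e ≠ 0)).card :=
      Finset.sum_le_sum_of_subset (Finset.subset_univ _)
    refine h2.trans ?_
    have h3 : ∑ K, (univ.filter (fun e : S => u K e ≠ 0)).card
        = ∑ e : S, (univ.filter (fun K => u K e ≠ 0)).card := by
      simp only [Finset.card_filter]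
      rw [Finset.sum_comm]
    rw [h3]
    have h4' : ∀ e : S, (univ.filter (fun K => u K e ≠ 0)).card ≤ 2 := by
      intro e
      have hsub : univ.filter (fun K => u K e ≠ 0)
          ⊆ {Quot.mk ρ' (l e.1), Quot.mk ρ' (r e.1)} := by
        intro K hK
        simp only [Finset.mem_filter, Finset.mem_univ, true_and] at hK
        by_contra hcon
        simp only [Finset.mem_insert, Finset.mem_singleton, not_or] at hcon
        apply hK
        simp only [u, ind]
        rw [if_neg (Ne.symm hcon.1), if_neg (Ne.symm hcon.2)]
        simp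
      exact (Finset.card_le_card hsub).trans Finset.card_le_two
    calc ∑ e : S, (univ.filter (fun K => u K e ≠ 0)).card ≤ ∑ _e : S, 2 :=
          Finset.sum_le_sum (fun e _ => h4' e)
      _ = 2 * S.card := by simp [mul_comm]
  have hspan' : Submodule.span (ZMod 2) (Set.range u)
      ≤ Submodule.span (ZMod 2) (u '' (Q' : Set Q)) := by
    apply Submodule.span_le.mpr
    rintro _ ⟨K, rfl⟩
    by_cases hK : u K = 0
    · rw [hK]; exact Submodule.zero_mem _
    · apply Submodule.subset_span
      exact ⟨K, by simp [Q', hK], rfl⟩
  rcases Finset.eq_empty_or_nonempty Q' with hemp | ⟨K0, hK0⟩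
  · left
    have hker0 : LinearMap.ker D = ⊥ := by
      rw [eq_bot_iff]
      refine (hspan.trans hspan').trans ?_
      rw [hemp]
      simp
    rw [hker0, hdimS] at hrn
    simp at hrn
    omega
  · right
    -- the span is generated by Q' minus K0
    have hspan2 : Submodule.span (ZMod 2) (u '' (Q' : Set Q))
        ≤ Submodule.span (ZMod 2) (((Q'.erase K0).image u : Finset (S → ZMod 2)) : Set _) := by
      apply Submodule.span_le.mpr
      rintro _ ⟨K, hK, rfl⟩
      by_cases hKK : K = K0
      · subst hKK
        have : u K = ∑ K' ∈ Q'.erase K, u K' := by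
          have h := Finset.add_sum_erase Q' u hK0
          rw [hQ'sum] at h
          funext e
          have he := congrFun h e
          simp only [Pi.add_apply, Pi.zero_apply] at he
          exact zmod2_eq_of_add _ _ he
        rw [this]
        apply Submodule.sum_mem
        intro K' hK'
        apply Submodule.subset_span
        simp only [Finset.coe_image, Set.mem_image, Finset.mem_coe]
        exact ⟨K', hK', rfl⟩
      · apply Submodule.subset_span
        simp only [Finset.coe_image, Set.mem_image, Finset.mem_coe]
        exact ⟨K, Finset.mem_erase.mpr ⟨hKK, hK⟩, rfl⟩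
    have hfr : Module.finrank (ZMod 2) (LinearMap.ker D) + 1 ≤ Q'.card := by
      have h1 : Module.finrank (ZMod 2) (LinearMap.ker D)
          ≤ Module.finrank (ZMod 2) (Submodule.span (ZMod 2)
            (((Q'.erase K0).image u : Finset (S → ZMod 2)) : Set (S → ZMod 2))) :=
        Submodule.finrank_mono (hspan.trans (hspan'.trans hspan2))
      have h2 := finrank_span_finset_le_card (R := ZMod 2) ((Q'.erase K0).image u)
      have h3 : ((Q'.erase K0).image u).card ≤ (Q'.erase K0).card := Finset.card_image_le
      have h4'' : (Q'.erase K0).card + 1 = Q'.card := Finset.card_erase_add_one hK0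
      have h2' : Module.finrank (ZMod 2) (Submodule.span (ZMod 2)
            (((Q'.erase K0).image u : Finset (S → ZMod 2)) : Set (S → ZMod 2)))
            ≤ ((Q'.erase K0).image u).card := h2
      omega
    rw [hdimS] at hrn
    omega

end

end Pool.Agent.Helper62
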