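import Mathlib
import Pool.Agent.Helper62.UBMacLane

/-!
Combinatorial bar arrangements: columns, words, cells.
-/

set_option linter.unusedSectionVars false

namespace Pool.Agent.Helper62

open Finset

/-- A combinatorial bar arrangement. Bars are numbered `0, …, K+1` from bottom to top; bar `r`
occupies the columns `j` with `a r ≤ j < b r`; the columns are `0, …, M-1`; the bars `0` and
`K+1` occupy all columns. -/
structure Arr where
  M : ℕ
  K : ℕ
  a : ℕ → ℕ
  b : ℕ → ℕ
  hab : ∀ r, r ≤ K + 1 → a r < b r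
  hb : ∀ r, r ≤ K + 1 → b r ≤ M
  a0 : a 0 = 0
  b0 : b 0 = M
  aT : a (K + 1) = 0
  bT : b (K + 1) = M

namespace Arr

variable (A : Arr)

/-- bar `r` covers column `j` -/
def cov (r j : ℕ) : Prop := A.a r ≤ j ∧ j < A.b r

instance (r j : ℕ) : Decidable (A.cov r j) := by unfold cov; infer_instance

/-- the highest bar of rank at most `k` covering column `j` -/
def lo (j k : ℕ) : ℕ := Nat.findGreatest (fun r => A.cov r j) k

theorem cov0 {j : ℕ} (hj : j < A.M) : A.cov 0 j := by
  refine ⟨?_, ?_⟩
  · rw [A.a0]; exact Nat.zero_le _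
  · rw [A.b0]; exact hj

theorem covT {j : ℕ} (hj : j < A.M) : A.cov (A.K + 1) j := by
  refine ⟨?_, ?_⟩
  · rw [A.aT]; exact Nat.zero_le _
  · rw [A.bT]; exact hj

theorem cov_lt {r j : ℕ} (hr : r ≤ A.K + 1) (h : A.cov r j) : j < A.M :=
  lt_of_lt_of_le h.2 (A.hb r hr)

theorem lo_cov {j k : ℕ} (hj : j < A.M) : A.cov (A.lo j k) j := by
  unfold lo
  exact Nat.findGreatest_spec (P := fun r => A.cov r j) (Nat.zero_le k) (A.cov0 hj)

theorem lo_le (j k : ℕ) : A.lo j k ≤ k := Nat.findGreatest_le k

theorem le_lo {j k r : ℕ} (hr : r ≤ k) (h : A.cov r j) : r ≤ A.lo j k :=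
  Nat.le_findGreatest hr h

theorem lo_self {j k : ℕ} (h : A.cov k j) : A.lo j k = k :=
  le_antisymm (A.lo_le j k) (A.le_lo le_rfl h)

theorem lo_succ_of_not {j k : ℕ} (h : ¬ A.cov (k + 1) j) : A.lo j (k + 1) = A.lo j k := by
  unfold lo
  rw [Nat.findGreatest_succ, if_neg h]

/-- the lowest bar of rank greater than `r` covering column `j` -/
noncomputable def hi (j r : ℕ) : ℕ := sInf {s | r < s ∧ A.cov s j}

theorem hi_mem {j r : ℕ} (hj : j < A.M) (hr : r ≤ A.K) : r < A.hi j r ∧ A.cov (A.hi j r) j := by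
  have : A.hi j r ∈ {s | r < s ∧ A.cov s j} :=
    Nat.sInf_mem ⟨A.K + 1, by omega, A.covT hj⟩
  exact this

theorem hi_le {j r s : ℕ} (h : r < s) (hs : A.cov s j) : A.hi j r ≤ s :=
  Nat.sInf_le ⟨h, hs⟩

theorem hi_le_top {j r : ℕ} (hj : j < A.M) (hr : r ≤ A.K) : A.hi j r ≤ A.K + 1 :=
  A.hi_le (by omega) (A.covT hj)

/-- `hi j r = s` iff `r` is the bar just below `s` -/
theorem hi_eq_iff {j r s : ℕ} (hj : j < A.M) (hr : r ≤ A.K) (hrc : A.cov r j) :
    A.hi j r = s ↔ (A.cov s j ∧ 1 ≤ s ∧ r = A.lo j (s - 1)) := by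
  constructor
  · intro h
    have hm := A.hi_mem hj hr
    rw [h] at hm
    refine ⟨hm.2, by omega, ?_⟩
    apply le_antisymm
    · exact A.le_lo (by omega) hrc
    · by_contra hcon
      push Not at hcon
      have h1 := A.lo_cov (k := s - 1) hj
      have h2 := A.lo_le j (s - 1)
      have h3 := A.hi_le hcon h1
      omega
  · rintro ⟨hs, hs1, hrl⟩
    have h2 := A.lo_le j (s - 1)
    apply le_antisymm
    · exact A.hi_le (by omega) hs
    · by_contra hcon
      push Not at hcon
      have hm := A.hi_mem hj hr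
      have := A.le_lo (k := s - 1) (by omega) hm.2
      omega

/-- edges of the arrangement: a column and a covering bar (the lower end) -/
abbrev Edge : Type := {e : Fin A.M × Fin (A.K + 1) // A.cov e.2.1 e.1.1}

abbrev Bar : Type := Fin (A.K + 2)

abbrev Cell : Type := Fin (A.M + 1) × Fin (A.K + 1)

/-- lower end -/
def p (e : A.Edge) : A.Bar := ⟨e.1.2.1, by have := e.1.2.2; omega⟩

/-- upper end -/
noncomputable def q (e : A.Edge) : A.Bar :=
  ⟨A.hi e.1.1.1 e.1.2.1, by
    have := A.hi_le_top (j := e.1.1.1) (r := e.1.2.1) e.1.1.2 (by have := e.1.2.2; omega)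
    omega⟩

/-- cell to the left of the edge -/
def lft (e : A.Edge) : A.Cell := (⟨e.1.1.1, by have := e.1.1.2; omega⟩, e.1.2)

/-- cell to the right of the edge -/
def rgt (e : A.Edge) : A.Cell := (⟨e.1.1.1 + 1, by have := e.1.1.2; omega⟩, e.1.2)

/-- basic relation between cells: not separated by a bar, or both outside -/
def rho (c d : A.Cell) : Prop :=
  (c.1.1 = d.1.1 ∧ c.2.1 + 1 = d.2.1 ∧ ¬ (A.a d.2.1 < c.1.1 ∧ c.1.1 < A.b d.2.1))
  ∨ (c.1.1 = 0 ∧ d.1.1 = A.M)

/-- extension of an edge weighting by zero to all pairs of naturals -/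
noncomputable def ext (z : A.Edge → ZMod 2) (j r : ℕ) : ZMod 2 :=
  if h : ∃ (hj : j < A.M) (hr : r < A.K + 1), A.cov r j then
    z ⟨(⟨j, h.1⟩, ⟨r, h.2.1⟩), h.2.2⟩ else 0

theorem ext_edge (z : A.Edge → ZMod 2) (e : A.Edge) : A.ext z e.1.1.1 e.1.2.1 = z e := by
  unfold ext
  rw [dif_pos ⟨e.1.1.2, e.1.2.2, e.2⟩]

theorem ext_not (z : A.Edge → ZMod 2) {j r : ℕ} (h : ¬ A.cov r j) : A.ext z j r = 0 := by
  unfold ext
  rw [dif_neg]
  rintro ⟨_, _, h'⟩
  exact h h'

theorem sum_edge (z : A.Edge → ZMod 2) (φ : ℕ → ℕ → ZMod 2) :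
    ∑ e : A.Edge, z e * φ e.1.1.1 e.1.2.1
      = ∑ j ∈ range A.M, ∑ r ∈ range (A.K + 1), A.ext z j r * φ j r := by
  have h1 : ∑ j ∈ range A.M, ∑ r ∈ range (A.K + 1), A.ext z j r * φ j r
      = ∑ x : Fin A.M × Fin (A.K + 1), A.ext z x.1.1 x.2.1 * φ x.1.1 x.2.1 := by
    rw [Fintype.sum_prod_type]
    rw [← Fin.sum_univ_eq_sum_range (fun j => ∑ r ∈ range (A.K + 1), A.ext z j r * φ j r)]
    apply Finset.sum_congr rfl
    intro j _
    rw [← Fin.sum_univ_eq_sum_range (fun r => A.ext z j r * φ j r)]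
  rw [h1]
  have h2 : ∑ x : Fin A.M × Fin (A.K + 1), A.ext z x.1.1 x.2.1 * φ x.1.1 x.2.1
      = ∑ x ∈ univ.filter (fun x : Fin A.M × Fin (A.K + 1) => A.cov x.2.1 x.1.1),
          A.ext z x.1.1 x.2.1 * φ x.1.1 x.2.1 := by
    symm
    apply Finset.sum_subset (Finset.filter_subset _ _)
    intro x _ hx
    simp only [Finset.mem_filter, Finset.mem_univ, true_and] at hx
    rw [A.ext_not z hx, zero_mul]
  rw [h2]
  rw [← Finset.sum_subtype_eq_sum_filter]
  simp only [Finset.subtype_univ]
  apply Finset.sum_congr rfl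
  intro e _
  rw [A.ext_edge]

/-- the degree formula -/
theorem deg_formula (z : A.Edge → ZMod 2) (s : A.Bar) :
    deg A.p A.q z s = ∑ j ∈ Ico (A.a s.1) (A.b s.1),
      ((if s.1 ≤ A.K then A.ext z j s.1 else 0) +
        (if 1 ≤ s.1 then A.ext z j (A.lo j (s.1 - 1)) else 0)) := by
  have hs : s.1 ≤ A.K + 1 := by have := s.2; omega
  unfold deg
  have h0 : ∀ e : A.Edge, z e * (ind (A.p e) s + ind (A.q e) s)
      = z e * ((fun j r => ind r s.1 + ind (A.hi j r) s.1) e.1.1.1 e.1.2.1) := by
    intro e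
    congr 1
    simp only [ind, Fin.ext_iff, p, q]
  rw [Finset.sum_congr rfl (fun e _ => h0 e)]
  rw [A.sum_edge z (fun j r => ind r s.1 + ind (A.hi j r) s.1)]
  -- restrict the column range
  have hsub : Ico (A.a s.1) (A.b s.1) ⊆ range A.M := by
    intro j hj
    rw [Finset.mem_Ico] at hj
    rw [Finset.mem_range]
    exact lt_of_lt_of_le hj.2 (A.hb _ hs)
  rw [← Finset.sum_subset hsub]
  · apply Finset.sum_congr rfl
    intro j hj
    have hjM : j < A.M := Finset.mem_range.mp (hsub hj)
    have hcov : A.cov s.1 j := by rw [Finset.mem_Ico] at hj; exact hj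
    simp only [mul_add]
    rw [Finset.sum_add_distrib]
    congr 1
    · by_cases hsK : s.1 ≤ A.K
      · rw [if_pos hsK]
        rw [Finset.sum_eq_single s.1]
        · simp [ind]
        · intro r _ hr
          simp [ind, hr]
        · intro h; exact absurd (Finset.mem_range.mpr (by omega)) h
      · rw [if_neg hsK]
        apply Finset.sum_eq_zero
        intro r hr
        rw [Finset.mem_range] at hr
        have : r ≠ s.1 := by omega
        simp [ind, this]
    · by_cases hs1 : 1 ≤ s.1
      · rw [if_pos hs1]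
        have hlo1 := A.lo_le j (s.1 - 1)
        rw [Finset.sum_eq_single (A.lo j (s.1 - 1))]
        · have : A.hi j (A.lo j (s.1 - 1)) = s.1 := by
            rw [A.hi_eq_iff hjM (by omega) (A.lo_cov hjM)]
            exact ⟨hcov, hs1, rfl⟩
          simp [ind, this]
        · intro r hr hne
          rw [Finset.mem_range] at hr
          by_cases hrc : A.cov r j
          · have : A.hi j r ≠ s.1 := by
              intro h
              rw [A.hi_eq_iff hjM (by omega) hrc] at h
              exact hne h.2.2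
            simp [ind, this]
          · rw [A.ext_not z hrc, zero_mul]
        · intro h; exact absurd (Finset.mem_range.mpr (by omega)) h
      · rw [if_neg hs1]
        apply Finset.sum_eq_zero
        intro r hr
        rw [Finset.mem_range] at hr
        have := (A.hi_mem hjM (r := r) (by omega)).1
        have : A.hi j r ≠ s.1 := by omega
        simp [ind, this]
  · intro j hj hj'
    rw [Finset.mem_range] at hj
    have hncov : ¬ A.cov s.1 j := by
      intro h; apply hj'; rw [Finset.mem_Ico]; exact h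
    apply Finset.sum_eq_zero
    intro r hr
    rw [Finset.mem_range] at hr
    by_cases hrc : A.cov r j
    · have h1 : r ≠ s.1 := by rintro rfl; exact hncov hrc
      have h2 : A.hi j r ≠ s.1 := by
        intro h
        rw [A.hi_eq_iff hj (by omega) hrc] at h
        exact hncov h.1
      simp [ind, h1, h2]
    · rw [A.ext_not z hrc, zero_mul]

/-- potential of an even edge weighting -/
noncomputable def pot (z : A.Edge → ZMod 2) (i k : ℕ) : ZMod 2 :=
  ∑ j ∈ Ico i A.M, A.ext z j (A.lo j k)

theorem P1 (z : A.Edge → ZMod 2) (hz : ∀ s, deg A.p A.q z s = 0) :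
    ∃ g : A.Cell → ZMod 2, (∀ c d, A.rho c d → g c = g d) ∧
      ∀ e, z e = g (A.lft e) + g (A.rgt e) := by
  refine ⟨fun c => A.pot z c.1.1 c.2.1, ?_, ?_⟩
  · -- vertical steps
    have hvert : ∀ i k, i ≤ A.M → k + 1 ≤ A.K → ¬ (A.a (k+1) < i ∧ i < A.b (k+1)) →
        A.pot z i k = A.pot z i (k+1) := by
      intro i k hi hk hnp
      have hd := hz ⟨k+1, by omega⟩
      rw [A.deg_formula] at hd
      simp only [hk, if_true] at hd
      have h1 : (1 : ℕ) ≤ k + 1 := by omega
      simp only [h1, if_true, Nat.add_sub_cancel] at hd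
      -- difference of the potentials
      apply zmod2_eq_of_add
      unfold pot
      rw [← Finset.sum_add_distrib]
      have hb := A.hb (k+1) (by omega)
      have hab := A.hab (k+1) (by omega)
      have hzero : ∀ j, j ∈ Ico i A.M → ¬ A.cov (k+1) j →
          A.ext z j (A.lo j k) + A.ext z j (A.lo j (k+1)) = 0 := by
        intro j _ hj
        rw [A.lo_succ_of_not hj]
        exact zmod2_add_self _
      by_cases hia : i ≤ A.a (k+1)
      · rw [← hd]
        have hsub : Ico (A.a (k+1)) (A.b (k+1)) ⊆ Ico i A.M := by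
          intro j hj
          rw [Finset.mem_Ico] at hj ⊢
          omega
        rw [← Finset.sum_subset hsub]
        · apply Finset.sum_congr rfl
          intro j hj
          rw [Finset.mem_Ico] at hj
          have : A.lo j (k+1) = k+1 := A.lo_self hj
          rw [this]; ring
        · intro j hj hj'
          apply hzero j hj
          intro h; apply hj'; rw [Finset.mem_Ico]; exact h
      · have hib : A.b (k+1) ≤ i := by
          by_contra hcon
          push Not at hcon
          exact hnp ⟨by omega, hcon⟩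
        apply Finset.sum_eq_zero
        intro j hj
        apply hzero j hj
        rw [Finset.mem_Ico] at hj
        intro h
        have := h.2
        omega
    have h0 : ∀ k, k ≤ A.K → A.pot z 0 k = 0 := by
      intro k
      induction k with
      | zero =>
        intro _
        have hd := hz ⟨0, by omega⟩
        rw [A.deg_formula] at hd
        simp only [Nat.zero_le, if_true] at hd
        have h1 : ¬ (1 : ℕ) ≤ 0 := by omega
        simp only [h1, if_false, add_zero] at hd
        rw [A.a0, A.b0] at hd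
        unfold pot
        rw [← hd]
        apply Finset.sum_congr rfl
        intro j _
        have : A.lo j 0 = 0 := by have := A.lo_le j 0; omega
        rw [this]
      | succ k ih =>
        intro hk
        rw [← hvert 0 k (Nat.zero_le _) hk (by omega)]
        exact ih (by omega)
    have hM : ∀ k, A.pot z A.M k = 0 := by
      intro k; unfold pot; simp
    rintro ⟨i, k⟩ ⟨i', k'⟩ (⟨h1, h2, h3⟩ | ⟨h1, h2⟩)
    · simp only at h1 h2 h3 ⊢
      rw [← h1, ← h2]
      apply hvert
      · have := i.2; omega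
      · have := k'.2; omega
      · rw [← h2] at h3; exact h3
    · simp only at h1 h2 ⊢
      rw [h1, h2, hM, h0 _ (by have := k.2; omega)]
  · intro e
    show z e = A.pot z e.1.1.1 e.1.2.1 + A.pot z (e.1.1.1 + 1) e.1.2.1
    unfold pot
    have hj := e.1.1.2
    rw [Finset.sum_eq_sum_Ico_succ_bot hj, A.lo_self e.2, A.ext_edge]
    rw [add_assoc, zmod2_add_self, add_zero]

theorem telescoping (f : ℕ → ZMod 2) {a b : ℕ} (h : a ≤ b) :
    ∑ j ∈ Ico a b, (f j + f (j+1)) = f a + f b := by
  induction b, h using Nat.le_induction with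
  | base => simp [zmod2_add_self]
  | succ b hb ih =>
    rw [Finset.sum_Ico_succ_top hb, ih]
    have := zmod2_add_self (f b)
    linear_combination this

theorem P2 (g : A.Cell → ZMod 2) (hg : ∀ c d, A.rho c d → g c = g d) (s : A.Bar) :
    deg A.p A.q (fun e => g (A.lft e) + g (A.rgt e)) s = 0 := by
  -- extension of g to naturals
  let G : ℕ → ℕ → ZMod 2 := fun i k =>
    if h : i < A.M + 1 ∧ k < A.K + 1 then g (⟨i, h.1⟩, ⟨k, h.2⟩) else 0
  have hG : ∀ i k (hi : i < A.M + 1) (hk : k < A.K + 1), G i k = g (⟨i, hi⟩, ⟨k, hk⟩) := by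
    intro i k hi hk
    simp only [G]; rw [dif_pos ⟨hi, hk⟩]
  have hvert : ∀ i k, i ≤ A.M → k + 1 ≤ A.K → ¬ (A.a (k+1) < i ∧ i < A.b (k+1)) →
      G i k = G i (k+1) := by
    intro i k hi hk hnp
    rw [hG i k (by omega) (by omega), hG i (k+1) (by omega) (by omega)]
    apply hg
    left
    exact ⟨rfl, rfl, hnp⟩
  have hside : ∀ k k', k ≤ A.K → k' ≤ A.K → G 0 k = G A.M k' := by
    intro k k' hk hk'
    rw [hG 0 k (by omega) (by omega), hG A.M k' (by omega) (by omega)]
    apply hg
    right
    exact ⟨rfl, rfl⟩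
  have hlo : ∀ j k, j < A.M → k ≤ A.K → G j (A.lo j k) = G j k ∧
      G (j+1) (A.lo j k) = G (j+1) k := by
    intro j k hj
    induction k with
    | zero =>
      intro _
      have : A.lo j 0 = 0 := by have := A.lo_le j 0; omega
      rw [this]; exact ⟨rfl, rfl⟩
    | succ k ih =>
      intro hk
      by_cases hc : A.cov (k+1) j
      · rw [A.lo_self hc]; exact ⟨rfl, rfl⟩
      · rw [A.lo_succ_of_not hc]
        obtain ⟨h1, h2⟩ := ih (by omega)
        rw [h1, h2]
        refine ⟨hvert j k (by omega) hk ?_, hvert (j+1) k (by omega) hk ?_⟩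
        · rintro ⟨h3, h4⟩
          exact hc ⟨by omega, h4⟩
        · rintro ⟨h3, h4⟩
          exact hc ⟨by omega, by omega⟩
  have hext : ∀ j r, j < A.M → r ≤ A.K → A.cov r j →
      A.ext (fun e => g (A.lft e) + g (A.rgt e)) j r = G j r + G (j+1) r := by
    intro j r hj hr hc
    have hr' : r < A.K + 1 := by omega
    have := A.ext_edge (fun e => g (A.lft e) + g (A.rgt e)) ⟨(⟨j, hj⟩, ⟨r, hr'⟩), hc⟩
    simp only at this
    rw [this, hG j r (by omega) hr', hG (j+1) r (by omega) hr']
    rfl
  have hs : s.1 ≤ A.K + 1 := by have := s.2; omega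
  have hab := A.hab s.1 hs
  have hbM := A.hb s.1 hs
  rw [A.deg_formula]
  rw [Finset.sum_add_distrib]
  have hfirst : ∑ j ∈ Ico (A.a s.1) (A.b s.1), (if s.1 ≤ A.K then
      A.ext (fun e => g (A.lft e) + g (A.rgt e)) j s.1 else 0)
      = if s.1 ≤ A.K then G (A.a s.1) s.1 + G (A.b s.1) s.1 else 0 := by
    by_cases hsK : s.1 ≤ A.K
    · simp only [hsK, if_true]
      rw [← telescoping (fun j => G j s.1) hab.le]
      apply Finset.sum_congr rfl
      intro j hj
      rw [Finset.mem_Ico] at hj
      exact hext j s.1 (by omega) hsK hj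
    · simp [hsK]
  have hsecond : ∑ j ∈ Ico (A.a s.1) (A.b s.1), (if 1 ≤ s.1 then
      A.ext (fun e => g (A.lft e) + g (A.rgt e)) j (A.lo j (s.1 - 1)) else 0)
      = if 1 ≤ s.1 then G (A.a s.1) (s.1 - 1) + G (A.b s.1) (s.1 - 1) else 0 := by
    by_cases hs1 : 1 ≤ s.1
    · simp only [hs1, if_true]
      rw [← telescoping (fun j => G j (s.1 - 1)) hab.le]
      apply Finset.sum_congr rfl
      intro j hj
      rw [Finset.mem_Ico] at hj
      have hj' : j < A.M := by omega
      have h1 := A.lo_le j (s.1 - 1)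
      rw [hext j _ hj' (by omega) (A.lo_cov hj')]
      have h2 := hlo j (s.1 - 1) hj' (by omega)
      rw [h2.1, h2.2]
    · simp [hs1]
  rw [hfirst, hsecond]
  by_cases h1 : 1 ≤ s.1
  · by_cases hK : s.1 ≤ A.K
    · rw [if_pos hK, if_pos h1]
      obtain ⟨k, hk⟩ : ∃ k, s.1 = k + 1 := ⟨s.1 - 1, by omega⟩
      rw [hk] at hab hbM hK ⊢
      simp only [Nat.add_sub_cancel]
      rw [hvert (A.a (k+1)) k (by omega) hK (by omega),
        hvert (A.b (k+1)) k hbM hK (by omega)]
      exact zmod2_add_self _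
    · rw [if_neg hK, if_pos h1]
      have : s.1 = A.K + 1 := by omega
      rw [this, A.aT, A.bT]
      simp only [Nat.add_sub_cancel]
      rw [hside A.K A.K le_rfl le_rfl, zmod2_add_self]
      simp
  · have : s.1 = 0 := by omega
    rw [if_neg h1, this, A.a0, A.b0, if_pos (Nat.zero_le _)]
    rw [hside 0 0 (Nat.zero_le _) (Nat.zero_le _), zmod2_add_self]
    simp

end Arr

end Pool.Agent.Helper62
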