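import Mathlib

/-!
Unit bar visibility representations and the unit bar visibility number.
-/

namespace Pool.Agent.Helper62

/-- The unit bar with left endpoint `(b.1, b.2)`: the closed horizontal segment of length `1`
from `(b.1, b.2)` to `(b.1 + 1, b.2)`. -/
def seg (b : ℝ × ℝ) : Set (ℝ × ℝ) := {p | b.1 ≤ p.1 ∧ p.1 ≤ b.1 + 1 ∧ p.2 = b.2}

/-- In the family `S` of unit bars, the bars `b` and `c` are joined by a vertical channel
`[u, v] × [min b.2 c.2, max b.2 c.2]` of positive width `v - u` which meets no other bar. -/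
def Sees (S : Set (ℝ × ℝ)) (b c : ℝ × ℝ) : Prop :=
  ∃ u v : ℝ, u < v ∧ b.1 ≤ u ∧ v ≤ b.1 + 1 ∧ c.1 ≤ u ∧ v ≤ c.1 + 1 ∧
    ∀ d ∈ S, d ≠ b → d ≠ c →
      Disjoint (seg d) (Set.Icc u v ×ˢ Set.Icc (min b.2 c.2) (max b.2 c.2))

/-- `B` is a `t`-unit-bar visibility representation of `G`: every vertex gets at most `t` unit
bars, all the bars (over all vertices) are pairwise disjoint, and two distinct vertices are
adjacent iff some bar of one and some bar of the other see each other. -/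
structure IsRep {V : Type} (G : SimpleGraph V) (t : ℕ) (B : V → Finset (ℝ × ℝ)) : Prop where
  card_le : ∀ v, (B v).card ≤ t
  disj : ∀ v w, ∀ b ∈ B v, ∀ c ∈ B w, (v ≠ w ∨ b ≠ c) → Disjoint (seg b) (seg c)
  adj_iff : ∀ v w, v ≠ w →
    (G.Adj v w ↔ ∃ b ∈ B v, ∃ c ∈ B w, Sees {d | ∃ x, d ∈ B x} b c)

/-- The unit bar visibility number of `G`. -/
noncomputable def ub {V : Type} (G : SimpleGraph V) : ℕ :=
  sInf {t | ∃ B : V → Finset (ℝ × ℝ), IsRep G t B}

end Pool.Agent.Helper62
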