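import Mathlib
import Pool.Agent.Helper62.UBArr

/-!
Counting: planar inequality for bar arrangements with classes of `Y`-bars, and the counting of
classes by vertical lines.
-/

set_option linter.unusedSectionVars false

namespace Pool.Agent.Helper62

open Finset

namespace Arr

variable (A : Arr) (isY : ℕ → Prop) [DecidablePred isY]

/-- an internal edge joins two `Y`-bars -/
def internal (e : A.Edge) : Prop := isY (A.p e).1 ∧ isY (A.q e).1

/-- classes of bars -/
def Cls : Type := Quot (fun b c : A.Bar => ∃ e, A.internal isY e ∧ A.p e = b ∧ A.q e = c)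

def vcl (b : A.Bar) : A.Cls isY :=
  Quot.mk (fun b c : A.Bar => ∃ e, A.internal isY e ∧ A.p e = b ∧ A.q e = c) b

theorem cls_cases (b c : A.Bar)
    (h : Relation.EqvGen (fun b c : A.Bar => ∃ e, A.internal isY e ∧ A.p e = b ∧ A.q e = c) b c) :
    b = c ∨ (isY b.1 ∧ isY c.1) := by
  induction h with
  | rel b c h =>
    obtain ⟨e, he, rfl, rfl⟩ := h
    exact Or.inr he
  | refl b => exact Or.inl rfl
  | symm b c _ ih =>
    rcases ih with rfl | ih
    · exact Or.inl rfl
    · exact Or.inr ⟨ih.2, ih.1⟩
  | trans b c d _ _ ih1 ih2 =>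
    rcases ih1 with rfl | ih1
    · exact ih2
    · rcases ih2 with rfl | ih2
      · exact Or.inr ih1
      · exact Or.inr ⟨ih1.1, ih2.2⟩

theorem vcl_eq_of_not {b c : A.Bar} (h : A.vcl isY b = A.vcl isY c) (hb : ¬ isY b.1) : b = c := by
  have := Quot.eqvGen_exact h
  rcases A.cls_cases isY b c this with h | h
  · exact h
  · exact absurd h.1 hb

/-- the end of the edge that is not `Y` -/
noncomputable def xend (e : A.Edge) : A.Bar := if isY (A.p e).1 then A.q e else A.p e

/-- the `Y` end of the edge -/
noncomputable def yend (e : A.Edge) : A.Bar := if isY (A.p e).1 then A.p e else A.q e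

/-- a mixed edge has exactly one `Y`-end -/
def mixed (e : A.Edge) : Prop :=
  (isY (A.p e).1 ∧ ¬ isY (A.q e).1) ∨ (¬ isY (A.p e).1 ∧ isY (A.q e).1)

theorem xend_not {e : A.Edge} (h : A.mixed isY e) : ¬ isY (A.xend isY e).1 := by
  unfold xend
  rcases h with h | h
  · rw [if_pos h.1]; exact h.2
  · rw [if_neg h.1]; exact h.1

theorem yend_isY {e : A.Edge} (h : A.mixed isY e) : isY (A.yend isY e).1 := by
  unfold yend
  rcases h with h | h
  · rw [if_pos h.1]; exact h.1
  · rw [if_neg h.1]; exact h.2

theorem planar (S : Finset A.Edge) (hmix : ∀ e ∈ S, A.mixed isY e)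
    (hinj : ∀ e ∈ S, ∀ e' ∈ S, A.xend isY e = A.xend isY e' →
      A.vcl isY (A.yend isY e) = A.vcl isY (A.yend isY e') → e = e')
    [Fintype (A.Cls isY)] :
    S.card + 1 ≤ Fintype.card (A.Cls isY) ∨ S.card + 4 ≤ 2 * Fintype.card (A.Cls isY) := by
  classical
  have : Nonempty (A.Cls isY) := ⟨A.vcl isY ⟨0, by omega⟩⟩
  apply maclane (W := A.Cls isY) A.p A.q A.lft A.rgt A.rho A.P1 A.P2 (A.internal isY) S
    (fun e he hI => by
      rcases hmix e he with h | h
      · exact h.2 hI.2
      · exact h.1 hI.1)
    (A.vcl isY)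
    (fun e he => Quot.sound ⟨e, he, rfl, rfl⟩)
    (fun b c h => Quot.eqvGen_exact h)
  -- the four edges
  intro z hzS hz0 hdeg
  -- rewriting the degree condition through xend, yend
  have hdeg' : ∀ w, ∑ e ∈ S, z e * (ind (A.vcl isY (A.xend isY e)) w
      + ind (A.vcl isY (A.yend isY e)) w) = 0 := by
    intro w
    rw [← hdeg w]
    unfold deg
    rw [← Finset.sum_subset (Finset.subset_univ S)]
    · apply Finset.sum_congr rfl
      intro e _
      unfold xend yend
      by_cases h : isY (A.p e).1
      · rw [if_pos h, if_pos h]; ring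
      · rw [if_neg h, if_neg h]
    · intro e _ he
      rw [hzS e he, zero_mul]
  have hx : ∀ e ∈ S, z e ≠ 0 → ∃ e' ∈ S, z e' ≠ 0 ∧ e' ≠ e ∧ A.xend isY e' = A.xend isY e := by
    intro e he hze
    by_contra hcon
    push Not at hcon
    have h := hdeg' (A.vcl isY (A.xend isY e))
    rw [Finset.sum_eq_single e] at h
    · have h1 : ind (A.vcl isY (A.xend isY e)) (A.vcl isY (A.xend isY e)) = 1 := by simp [ind]
      have h2 : ind (A.vcl isY (A.yend isY e)) (A.vcl isY (A.xend isY e)) = 0 := by
        unfold ind
        rw [if_neg]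
        intro h
        have := A.vcl_eq_of_not isY h.symm (A.xend_not isY (hmix e he))
        exact A.xend_not isY (hmix e he) (this ▸ A.yend_isY isY (hmix e he))
      rw [h1, h2] at h
      simp at h
      exact hze h
    · intro e' he' hne
      by_cases hz' : z e' = 0
      · rw [hz', zero_mul]
      · have h1 : ind (A.vcl isY (A.xend isY e')) (A.vcl isY (A.xend isY e)) = 0 := by
          unfold ind
          rw [if_neg]
          intro h
          exact hcon e' he' hz' hne (A.vcl_eq_of_not isY h (A.xend_not isY (hmix e' he')))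
        have h2 : ind (A.vcl isY (A.yend isY e')) (A.vcl isY (A.xend isY e)) = 0 := by
          unfold ind
          rw [if_neg]
          intro h
          have := A.vcl_eq_of_not isY h.symm (A.xend_not isY (hmix e he))
          exact A.xend_not isY (hmix e he) (this ▸ A.yend_isY isY (hmix e' he'))
        rw [h1, h2]; simp
    · intro h; exact absurd he h
  have hy : ∀ e ∈ S, z e ≠ 0 → ∃ e' ∈ S, z e' ≠ 0 ∧ e' ≠ e ∧
      A.vcl isY (A.yend isY e') = A.vcl isY (A.yend isY e) := by
    intro e he hze
    by_contra hcon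
    push Not at hcon
    have h := hdeg' (A.vcl isY (A.yend isY e))
    rw [Finset.sum_eq_single e] at h
    · have h1 : ind (A.vcl isY (A.yend isY e)) (A.vcl isY (A.yend isY e)) = 1 := by simp [ind]
      have h2 : ind (A.vcl isY (A.xend isY e)) (A.vcl isY (A.yend isY e)) = 0 := by
        unfold ind
        rw [if_neg]
        intro h
        have := A.vcl_eq_of_not isY h (A.xend_not isY (hmix e he))
        exact A.xend_not isY (hmix e he) (this ▸ A.yend_isY isY (hmix e he))
      rw [h1, h2] at h
      simp at h
      exact hze h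
    · intro e' he' hne
      by_cases hz' : z e' = 0
      · rw [hz', zero_mul]
      · have h1 : ind (A.vcl isY (A.xend isY e')) (A.vcl isY (A.yend isY e)) = 0 := by
          unfold ind
          rw [if_neg]
          intro h
          have := A.vcl_eq_of_not isY h (A.xend_not isY (hmix e' he'))
          exact A.xend_not isY (hmix e' he') (this ▸ A.yend_isY isY (hmix e he))
        have h2 : ind (A.vcl isY (A.yend isY e')) (A.vcl isY (A.yend isY e)) = 0 := by
          unfold ind
          rw [if_neg]
          intro h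
          exact hcon e' he' hz' hne h
        rw [h1, h2]; simp
    · intro h; exact absurd he h
  obtain ⟨e0, he0⟩ : ∃ e, z e ≠ 0 := by
    by_contra hcon
    push Not at hcon
    exact hz0 (funext hcon)
  have he0S : e0 ∈ S := by
    by_contra hcon
    exact he0 (hzS e0 hcon)
  obtain ⟨e1, he1S, hz1, hne1, hx1⟩ := hx e0 he0S he0
  obtain ⟨e2, he2S, hz2, hne2, hy2⟩ := hy e0 he0S he0
  obtain ⟨e3, he3S, hz3, hne3, hx3⟩ := hx e2 he2S hz2
  have h12 : e1 ≠ e2 := by
    rintro rfl
    exact hne1 (hinj e1 he1S e0 he0S hx1 hy2)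
  have hxne : A.xend isY e2 ≠ A.xend isY e0 := by
    intro h
    exact hne2 (hinj e2 he2S e0 he0S h hy2)
  have h30 : e3 ≠ e0 := by
    rintro rfl
    exact hxne hx3.symm
  have h31 : e3 ≠ e1 := by
    rintro rfl
    exact hxne (hx3.symm.trans hx1)
  have hsub : ({e0, e1, e2, e3} : Finset A.Edge) ⊆ univ.filter (fun e => z e ≠ 0) := by
    intro e he
    simp only [Finset.mem_insert, Finset.mem_singleton] at he
    simp only [Finset.mem_filter, Finset.mem_univ, true_and]
    rcases he with rfl | rfl | rfl | rfl
    · exact he0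
    · exact hz1
    · exact hz2
    · exact hz3
  have hc : ({e0, e1, e2, e3} : Finset A.Edge).card = 4 := by
    rw [Finset.card_insert_of_notMem, Finset.card_insert_of_notMem,
      Finset.card_insert_of_notMem, Finset.card_singleton]
    · simp only [Finset.mem_singleton]; exact Ne.symm hne3
    · simp only [Finset.mem_insert, Finset.mem_singleton, not_or]
      exact ⟨h12, Ne.symm h31⟩
    · simp only [Finset.mem_insert, Finset.mem_singleton, not_or]
      exact ⟨Ne.symm hne1, Ne.symm hne2, Ne.symm h30⟩
  rw [← hc]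
  exact Finset.card_le_card hsub

end Arr

end Pool.Agent.Helper62
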