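import Mathlib
import Pool.Agent.Helper62.UBCount

/-!
Counting classes by vertical lines, and the main combinatorial inequality.
-/

set_option linter.unusedSectionVars false

namespace Pool.Agent.Helper62

open Finset

namespace Arr

variable (A : Arr) (isY : ℕ → Prop) [DecidablePred isY]

/-- class of a bar given by a natural number -/
def vn (r : ℕ) : A.Cls isY := A.vcl isY ⟨min r (A.K + 1), by omega⟩

theorem vn_eq (b : A.Bar) : A.vn isY b.1 = A.vcl isY b := by
  unfold vn
  congr 1
  apply Fin.ext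
  have := b.2
  simp only
  omega

/-- non-`Y` bars covering column `j`, of rank at most `K` -/
def N (j : ℕ) : Finset ℕ := (range (A.K + 1)).filter (fun x => ¬ isY x ∧ A.cov x j)

/-- real non-`Y` bars covering column `j` -/
def NX (j : ℕ) : Finset ℕ := (range (A.K + 1)).filter (fun x => 1 ≤ x ∧ ¬ isY x ∧ A.cov x j)

/-- run starts in column `j`, recorded by the bar just below the run -/
noncomputable def RS (j : ℕ) : Finset ℕ := by
  classical
  exact (A.N isY j).filter (fun x => isY (A.hi j x))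

theorem card_N (h0 : ¬ isY 0) {j : ℕ} (hj : j < A.M) :
    (A.N isY j).card = (A.NX isY j).card + 1 := by
  have : A.N isY j = insert 0 (A.NX isY j) := by
    ext x
    simp only [N, NX, Finset.mem_filter, Finset.mem_range, Finset.mem_insert]
    constructor
    · rintro ⟨h1, h2, h3⟩
      by_cases hx : x = 0
      · left; exact hx
      · right; exact ⟨h1, by omega, h2, h3⟩
    · rintro (rfl | ⟨h1, _, h2, h3⟩)
      · exact ⟨by omega, h0, A.cov0 hj⟩
      · exact ⟨h1, h2, h3⟩
  rw [this, Finset.card_insert_of_notMem]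
  simp [NX]

theorem card_RS (h0 : ¬ isY 0) (hT : ¬ isY (A.K + 1)) {j : ℕ} (hj : j < A.M) :
    (A.RS isY j).card ≤ (A.NX isY j).card
      + (if isY (A.lo j A.K) ∧ isY (A.hi j 0) then 1 else 0) := by
  classical
  have hN := A.card_N isY h0 hj
  have hsub : A.RS isY j ⊆ A.N isY j := by unfold RS; exact Finset.filter_subset _ _
  by_cases h : isY (A.lo j A.K) ∧ isY (A.hi j 0)
  · rw [if_pos h, ← hN]
    exact Finset.card_le_card hsub
  · rw [if_neg h, add_zero]
    have hlt : (A.RS isY j).card < (A.N isY j).card := by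
      apply Finset.card_lt_card
      rw [Finset.ssubset_iff_subset_ne]
      refine ⟨hsub, ?_⟩
      intro heq
      rw [not_and_or] at h
      rcases h with h | h
      · -- top bar not Y
        have hmem : A.lo j A.K ∈ A.N isY j := by
          simp only [N, Finset.mem_filter, Finset.mem_range]
          have := A.lo_le j A.K
          exact ⟨by omega, h, A.lo_cov hj⟩
        rw [← heq] at hmem
        unfold RS at hmem
        have h2 := (Finset.mem_filter.mp hmem).2
        have h3 : A.hi j (A.lo j A.K) = A.K + 1 := by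
          rw [A.hi_eq_iff hj (A.lo_le j A.K) (A.lo_cov hj)]
          exact ⟨A.covT hj, by omega, by simp⟩
        rw [h3] at h2
        exact hT h2
      · have hmem : 0 ∈ A.N isY j := by
          simp only [N, Finset.mem_filter, Finset.mem_range]
          exact ⟨by omega, h0, A.cov0 hj⟩
        rw [← heq] at hmem
        unfold RS at hmem
        exact h (Finset.mem_filter.mp hmem).2
    omega

/-- consecutive `Y` bars in a column are in the same class -/
theorem vn_internal {j r : ℕ} (hj : j < A.M) (hr : r ≤ A.K) (hc : A.cov r j)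
    (h1 : isY r) (h2 : isY (A.hi j r)) : A.vn isY r = A.vn isY (A.hi j r) := by
  have hhi := A.hi_le_top hj hr
  let e : A.Edge := ⟨(⟨j, hj⟩, ⟨r, by omega⟩), hc⟩
  have hp : (A.p e).1 = r := rfl
  have hq : (A.q e).1 = A.hi j r := rfl
  have h := A.vn_eq isY (A.p e)
  have h' := A.vn_eq isY (A.q e)
  rw [hp] at h
  rw [hq] at h'
  rw [h, h']
  exact Quot.sound ⟨e, ⟨by rw [hp]; exact h1, by rw [hq]; exact h2⟩, rfl, rfl⟩

/-- every `Y` bar covering a column has a run start of its class in this column -/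
theorem exists_run (h0 : ¬ isY 0) {j : ℕ} (hj : j < A.M) :
    ∀ y, y ≤ A.K → A.cov y j → isY y →
      ∃ x ∈ A.RS isY j, A.vn isY (A.hi j x) = A.vn isY y := by
  intro y
  induction y using Nat.strong_induction_on with
  | _ y ih =>
    intro hy hc hY
    have hy1 : 1 ≤ y := by
      rcases Nat.eq_zero_or_pos y with rfl | h
      · exact absurd hY h0
      · exact h
    set x := A.lo j (y - 1) with hx
    have hxle : x ≤ y - 1 := A.lo_le j (y - 1)
    have hxc : A.cov x j := A.lo_cov hj
    have hhi : A.hi j x = y := by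
      rw [A.hi_eq_iff hj (by omega) hxc]
      exact ⟨hc, hy1, hx⟩
    by_cases hxY : isY x
    · obtain ⟨x', hx', hv⟩ := ih x (by omega) (by omega) hxc hxY
      refine ⟨x', hx', ?_⟩
      rw [hv]
      have := A.vn_internal isY hj (r := x) (by omega) hxc hxY (by rw [hhi]; exact hY)
      rw [this, hhi]
    · refine ⟨x, ?_, by rw [hhi]⟩
      unfold RS N
      simp only [Finset.mem_filter, Finset.mem_range]
      exact ⟨⟨by omega, hxY, hxc⟩, by rw [hhi]; exact hY⟩

/-- the set of columns in `Λ` whose top and bottom bars are `Y` -/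
noncomputable def J (Λ : Finset ℕ) : Finset ℕ := by
  classical
  exact Λ.filter (fun j => isY (A.lo j A.K) ∧ isY (A.hi j 0))

/-- number of real non-`Y` bars -/
def nX : ℕ := ((range (A.K + 1)).filter (fun x => 1 ≤ x ∧ ¬ isY x)).card

theorem sum_NX (Λ : Finset ℕ)
    (hline : ∀ r, 1 ≤ r → r ≤ A.K → ∀ j ∈ Λ, ∀ j' ∈ Λ, A.cov r j → A.cov r j' → j = j') :
    ∑ j ∈ Λ, (A.NX isY j).card ≤ A.nX isY := by
  classical
  have h1 : ∑ j ∈ Λ, (A.NX isY j).card
      = ∑ x ∈ (range (A.K + 1)).filter (fun x => 1 ≤ x ∧ ¬ isY x),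
          (Λ.filter (fun j => A.cov x j)).card := by
    simp only [Finset.card_filter, NX]
    rw [Finset.sum_comm]
    rw [Finset.sum_filter]
    apply Finset.sum_congr rfl
    intro x _
    by_cases hx : 1 ≤ x ∧ ¬ isY x
    · rw [if_pos hx]
      apply Finset.sum_congr rfl
      intro j _
      by_cases hc : A.cov x j
      · rw [if_pos ⟨hx.1, hx.2, hc⟩, if_pos hc]
      · rw [if_neg hc, if_neg]; rintro ⟨_, _, h⟩; exact hc h
    · rw [if_neg hx]
      apply Finset.sum_eq_zero
      intro j _
      rw [if_neg]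
      rintro ⟨h, h', _⟩; exact hx ⟨h, h'⟩
  rw [h1]
  unfold nX
  rw [Finset.card_eq_sum_ones]
  apply Finset.sum_le_sum
  intro x hx
  simp only [Finset.mem_filter, Finset.mem_range] at hx
  rw [Finset.card_le_one]
  intro j hj j' hj'
  simp only [Finset.mem_filter] at hj hj'
  exact hline x hx.2.1 (by omega) j hj.1 j' hj'.1 hj.2 hj'.2

section

variable [Fintype (A.Cls isY)] [DecidableEq (A.Cls isY)]

/-- classes of `Y`-bars -/
noncomputable def CY : Finset (A.Cls isY) := by
  classical
  exact univ.filter (fun w => ∃ b : A.Bar, isY b.1 ∧ A.vcl isY b = w)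

/-- classes seen from the top along the lines -/
noncomputable def CT (Λ : Finset ℕ) : Finset (A.Cls isY) :=
  (A.J isY Λ).image (fun j => A.vn isY (A.lo j A.K))

/-- classes seen from the bottom along the lines -/
noncomputable def CB (Λ : Finset ℕ) : Finset (A.Cls isY) :=
  (A.J isY Λ).image (fun j => A.vn isY (A.hi j 0))

theorem card_W : Fintype.card (A.Cls isY) ≤ A.nX isY + 2 + (A.CY isY).card := by
  classical
  have hcover : (univ : Finset (A.Cls isY))
      ⊆ A.CY isY ∪ ((insert 0 (insert (A.K + 1)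
        ((range (A.K + 1)).filter (fun x => 1 ≤ x ∧ ¬ isY x)))).image (A.vn isY)) := by
    intro w _
    obtain ⟨b, rfl⟩ : ∃ b, A.vcl isY b = w := Quot.exists_rep w
    rw [Finset.mem_union]
    by_cases hb : isY b.1
    · left
      unfold CY
      simp only [Finset.mem_filter, Finset.mem_univ, true_and]
      exact ⟨b, hb, rfl⟩
    · right
      rw [Finset.mem_image]
      refine ⟨b.1, ?_, A.vn_eq isY b⟩
      simp only [Finset.mem_insert, Finset.mem_filter, Finset.mem_range]
      have := b.2
      by_cases h0 : b.1 = 0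
      · left; exact h0
      · by_cases h1 : b.1 = A.K + 1
        · right; left; exact h1
        · right; right; exact ⟨by omega, by omega, hb⟩
  have h1 := Finset.card_le_card hcover
  rw [Finset.card_univ] at h1
  have h2 := Finset.card_union_le (A.CY isY) ((insert 0 (insert (A.K + 1)
        ((range (A.K + 1)).filter (fun x => 1 ≤ x ∧ ¬ isY x)))).image (A.vn isY))
  have h3 : ((insert 0 (insert (A.K + 1)
        ((range (A.K + 1)).filter (fun x => 1 ≤ x ∧ ¬ isY x)))).image (A.vn isY)).card
        ≤ A.nX isY + 2 := by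
    refine Finset.card_image_le.trans ?_
    refine (Finset.card_insert_le _ _).trans ?_
    have := Finset.card_insert_le (A.K + 1)
      ((range (A.K + 1)).filter (fun x => 1 ≤ x ∧ ¬ isY x))
    unfold nX
    omega
  omega

theorem mem_CY {r : ℕ} (hr : r ≤ A.K + 1) (h : isY r) : A.vn isY r ∈ A.CY isY := by
  unfold CY
  simp only [Finset.mem_filter, Finset.mem_univ, true_and]
  exact ⟨⟨r, by omega⟩, h, (A.vn_eq isY ⟨r, by omega⟩).symm⟩

/-- The number of classes of `Y`-bars is controlled by the number of `X`-bars. -/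
theorem class_count_aux (h0 : ¬ isY 0) (hT : ¬ isY (A.K + 1)) (Λ : Finset ℕ)
    (hΛ : ∀ j ∈ Λ, j < A.M)
    (hline : ∀ r, 1 ≤ r → r ≤ A.K → ∀ j ∈ Λ, ∀ j' ∈ Λ, A.cov r j → A.cov r j' → j = j')
    (hex : ∀ r, 1 ≤ r → r ≤ A.K → isY r → ∃ j ∈ Λ, A.cov r j)
    (f : ℕ → A.Cls isY) (hf : ∀ j ∈ A.J isY Λ, ∃ x ∈ A.RS isY j, A.vn isY (A.hi j x) = f j)
    (hfY : ∀ j ∈ A.J isY Λ, f j ∈ A.CY isY) :
    (A.CY isY).card ≤ A.nX isY + ((A.J isY Λ).image f).card := by
  classical
  -- number of run starts of class C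
  let rC : A.Cls isY → ℕ := fun C =>
    ∑ j ∈ Λ, ((A.RS isY j).filter (fun x => A.vn isY (A.hi j x) = C)).card
  let aC : A.Cls isY → ℕ := fun C => ((A.J isY Λ).filter (fun j => f j = C)).card
  have hJΛ : A.J isY Λ ⊆ Λ := by unfold J; exact Finset.filter_subset _ _
  -- total number of runs
  have hsum_r : ∑ C ∈ A.CY isY, rC C ≤ A.nX isY + (A.J isY Λ).card := by
    have h1 : ∑ C ∈ A.CY isY, rC C ≤ ∑ j ∈ Λ, (A.RS isY j).card := by
      simp only [rC]
      rw [Finset.sum_comm]
      apply Finset.sum_le_sum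
      intro j _
      rw [Finset.card_eq_sum_card_fiberwise (s := A.RS isY j) (t := univ)
        (f := fun x => A.vn isY (A.hi j x)) (fun _ _ => Finset.mem_coe.mpr (Finset.mem_univ _))]
      exact Finset.sum_le_sum_of_subset (Finset.subset_univ _)
    have h2 : ∑ j ∈ Λ, (A.RS isY j).card
        ≤ ∑ j ∈ Λ, ((A.NX isY j).card + (if isY (A.lo j A.K) ∧ isY (A.hi j 0) then 1 else 0)) :=
      Finset.sum_le_sum (fun j hj => A.card_RS isY h0 hT (hΛ j hj))
    rw [Finset.sum_add_distrib] at h2
    have h3 := A.sum_NX isY Λ hline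
    have h4 : ∑ j ∈ Λ, (if isY (A.lo j A.K) ∧ isY (A.hi j 0) then 1 else 0)
        = (A.J isY Λ).card := by
      unfold J
      rw [Finset.card_filter]
    omega
  have hsum_a : ∑ C ∈ A.CY isY, aC C = (A.J isY Λ).card := by
    symm
    apply Finset.card_eq_sum_card_fiberwise
    intro j hj
    exact hfY j hj
  have hr1 : ∀ C ∈ A.CY isY, 1 ≤ rC C := by
    intro C hC
    unfold CY at hC
    simp only [Finset.mem_filter, Finset.mem_univ, true_and] at hC
    obtain ⟨y, hy, rfl⟩ := hC
    have hy1 : 1 ≤ y.1 := by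
      rcases Nat.eq_zero_or_pos y.1 with h | h
      · rw [h] at hy; exact absurd hy h0
      · exact h
    have hyK : y.1 ≤ A.K := by
      have := y.2
      by_contra hcon
      have : y.1 = A.K + 1 := by omega
      rw [this] at hy; exact hT hy
    obtain ⟨j, hj, hc⟩ := hex y.1 hy1 hyK hy
    obtain ⟨x, hx, hv⟩ := A.exists_run isY h0 (hΛ j hj) y.1 hyK hc hy
    rw [A.vn_eq isY y] at hv
    calc 1 ≤ ((A.RS isY j).filter (fun x => A.vn isY (A.hi j x) = A.vcl isY y)).card := by
          rw [Nat.one_le_iff_ne_zero, Finset.card_ne_zero]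
          exact ⟨x, Finset.mem_filter.mpr ⟨hx, hv⟩⟩
      _ ≤ rC (A.vcl isY y) :=
          Finset.single_le_sum
            (f := fun j => ((A.RS isY j).filter (fun x => A.vn isY (A.hi j x) = A.vcl isY y)).card)
            (fun _ _ => Nat.zero_le _) hj
  have har : ∀ C, aC C ≤ rC C := by
    intro C
    have h1 : aC C = ∑ j ∈ (A.J isY Λ).filter (fun j => f j = C), 1 := by
      simp [aC]
    have h2 : ∑ j ∈ (A.J isY Λ).filter (fun j => f j = C), 1
        ≤ ∑ j ∈ (A.J isY Λ).filter (fun j => f j = C),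
          ((A.RS isY j).filter (fun x => A.vn isY (A.hi j x) = C)).card := by
      apply Finset.sum_le_sum
      intro j hj
      rw [Finset.mem_filter] at hj
      obtain ⟨x, hx, hv⟩ := hf j hj.1
      rw [Nat.one_le_iff_ne_zero, Finset.card_ne_zero]
      exact ⟨x, Finset.mem_filter.mpr ⟨hx, hv.trans hj.2⟩⟩
    rw [h1]
    refine h2.trans ?_
    exact Finset.sum_le_sum_of_subset ((Finset.filter_subset _ _).trans hJΛ)
  have key : ∀ C ∈ A.CY isY, aC C + 1 ≤ rC C + (if C ∈ (A.J isY Λ).image f then 1 else 0) := by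
    intro C hC
    have h1 := hr1 C hC
    have h2 := har C
    by_cases hmem : C ∈ (A.J isY Λ).image f
    · rw [if_pos hmem]; omega
    · rw [if_neg hmem]
      have : aC C = 0 := by
        simp only [aC]
        rw [Finset.card_eq_zero, Finset.filter_eq_empty_iff]
        intro j hj hfj
        exact hmem (Finset.mem_image.mpr ⟨j, hj, hfj⟩)
      omega
  have hkey := Finset.sum_le_sum key
  rw [Finset.sum_add_distrib, Finset.sum_add_distrib] at hkey
  have h5 : ∑ C ∈ A.CY isY, (if C ∈ (A.J isY Λ).image f then 1 else 0)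
      ≤ ((A.J isY Λ).image f).card := by
    rw [← Finset.card_filter]
    apply Finset.card_le_card
    intro C hC
    exact (Finset.mem_filter.mp hC).2
  have h6 : ∑ _C ∈ A.CY isY, 1 = (A.CY isY).card := by simp
  omega

theorem class_count (h0 : ¬ isY 0) (hT : ¬ isY (A.K + 1)) (Λ : Finset ℕ)
    (hΛ : ∀ j ∈ Λ, j < A.M)
    (hline : ∀ r, 1 ≤ r → r ≤ A.K → ∀ j ∈ Λ, ∀ j' ∈ Λ, A.cov r j → A.cov r j' → j = j')
    (hex : ∀ r, 1 ≤ r → r ≤ A.K → isY r → ∃ j ∈ Λ, A.cov r j) :
    2 * (A.CY isY).card ≤ 2 * A.nX isY + (A.CT isY Λ).card + (A.CB isY Λ).card := by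
  have h1 := A.class_count_aux isY h0 hT Λ hΛ hline hex (fun j => A.vn isY (A.lo j A.K)) (by
    intro j hj
    unfold J at hj
    rw [Finset.mem_filter] at hj
    exact A.exists_run isY h0 (hΛ j hj.1) (A.lo j A.K) (A.lo_le _ _) (A.lo_cov (hΛ j hj.1))
      hj.2.1) (by
    intro j hj
    unfold J at hj
    rw [Finset.mem_filter] at hj
    have := A.lo_le j A.K
    exact A.mem_CY isY (by omega) hj.2.1)
  have h2 := A.class_count_aux isY h0 hT Λ hΛ hline hex (fun j => A.vn isY (A.hi j 0)) (by
    intro j hj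
    unfold J at hj
    rw [Finset.mem_filter] at hj
    refine ⟨0, ?_, rfl⟩
    unfold RS N
    simp only [Finset.mem_filter, Finset.mem_range]
    exact ⟨⟨by omega, h0, A.cov0 (hΛ j hj.1)⟩, hj.2.2⟩) (by
    intro j hj
    unfold J at hj
    rw [Finset.mem_filter] at hj
    exact A.mem_CY isY (A.hi_le_top (hΛ j hj.1) (Nat.zero_le _)) hj.2.2)
  have h3 : (A.CT isY Λ).card = ((A.J isY Λ).image (fun j => A.vn isY (A.lo j A.K))).card := rfl
  have h4 : (A.CB isY Λ).card = ((A.J isY Λ).image (fun j => A.vn isY (A.hi j 0))).card := rfl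
  omega

end

end Arr

end Pool.Agent.Helper62
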