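import Mathlib
import Pool.Agent.Helper62.UBLines

/-!
The main combinatorial inequality for bar arrangements.
-/

set_option linter.unusedSectionVars false

namespace Pool.Agent.Helper62

open Finset

namespace Arr

variable (A : Arr) (isY : ℕ → Prop) [DecidablePred isY]

theorem label_cls {L : Type*} (lab : ℕ → L)
    (hlab : ∀ j r, j < A.M → r ≤ A.K → A.cov r j → isY r → isY (A.hi j r) →
      lab r = lab (A.hi j r))
    {b c : A.Bar} (h : A.vcl isY b = A.vcl isY c) : lab b.1 = lab c.1 := by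
  have := Quot.eqvGen_exact h
  clear h
  induction this with
  | rel b c h =>
    obtain ⟨e, he, rfl, rfl⟩ := h
    exact hlab e.1.1.1 e.1.2.1 e.1.1.2 (by have := e.1.2.2; omega) e.2 he.1 he.2
  | refl b => rfl
  | symm b c _ ih => exact ih.symm
  | trans b c d _ _ ih1 ih2 => exact ih1.trans ih2

theorem main_count (h0 : ¬ isY 0) (hT : ¬ isY (A.K + 1)) (Λ : Finset ℕ)
    (hΛ : ∀ j ∈ Λ, j < A.M)
    (hline : ∀ r, 1 ≤ r → r ≤ A.K → ∀ j ∈ Λ, ∀ j' ∈ Λ, A.cov r j → A.cov r j' → j = j')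
    (hex : ∀ r, 1 ≤ r → r ≤ A.K → isY r → ∃ j ∈ Λ, A.cov r j)
    {L : Type*} (lab : ℕ → L)
    (hlab : ∀ j r, j < A.M → r ≤ A.K → A.cov r j → isY r → isY (A.hi j r) →
      lab r = lab (A.hi j r))
    (T : Finset A.Edge)
    (hT1 : ∀ e ∈ T, A.mixed isY e ∧ (A.p e).1 ≠ 0 ∧ (A.q e).1 ≠ A.K + 1)
    (hT2 : ∀ e ∈ T, ∀ e' ∈ T, A.xend isY e = A.xend isY e' →
      lab (A.yend isY e).1 = lab (A.yend isY e').1 → e = e') :
    T.card ≤ 4 * A.nX isY := by
  classical
  have hfinW : Finite (A.Cls isY) := Quot.finite _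
  have : Fintype (A.Cls isY) := Fintype.ofFinite _
  -- top edges
  have hex_top : ∀ C ∈ A.CT isY Λ, ∃ e : A.Edge, A.mixed isY e ∧
      (A.xend isY e).1 = A.K + 1 ∧ A.vcl isY (A.yend isY e) = C := by
    intro C hC
    unfold CT at hC
    rw [Finset.mem_image] at hC
    obtain ⟨j, hj, rfl⟩ := hC
    unfold J at hj
    rw [Finset.mem_filter] at hj
    have hjM := hΛ j hj.1
    have hlo := A.lo_le j A.K
    let e : A.Edge := ⟨(⟨j, hjM⟩, ⟨A.lo j A.K, by omega⟩), A.lo_cov hjM⟩
    have hp : (A.p e).1 = A.lo j A.K := rfl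
    have hq : (A.q e).1 = A.K + 1 := by
      show A.hi j (A.lo j A.K) = A.K + 1
      rw [A.hi_eq_iff hjM hlo (A.lo_cov hjM)]
      exact ⟨A.covT hjM, by omega, by simp⟩
    have hpY : isY (A.p e).1 := by rw [hp]; exact hj.2.1
    have hqY : ¬ isY (A.q e).1 := by rw [hq]; exact hT
    refine ⟨e, Or.inl ⟨hpY, hqY⟩, ?_, ?_⟩
    · unfold xend; rw [if_pos hpY]; exact hq
    · unfold yend; rw [if_pos hpY, ← A.vn_eq, hp]
  have hex_bot : ∀ C ∈ A.CB isY Λ, ∃ e : A.Edge, A.mixed isY e ∧
      (A.xend isY e).1 = 0 ∧ A.vcl isY (A.yend isY e) = C := by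
    intro C hC
    unfold CB at hC
    rw [Finset.mem_image] at hC
    obtain ⟨j, hj, rfl⟩ := hC
    unfold J at hj
    rw [Finset.mem_filter] at hj
    have hjM := hΛ j hj.1
    let e : A.Edge := ⟨(⟨j, hjM⟩, ⟨0, by omega⟩), A.cov0 hjM⟩
    have hp : (A.p e).1 = 0 := rfl
    have hq : (A.q e).1 = A.hi j 0 := rfl
    have hpY : ¬ isY (A.p e).1 := by rw [hp]; exact h0
    have hqY : isY (A.q e).1 := by rw [hq]; exact hj.2.2
    refine ⟨e, Or.inr ⟨hpY, hqY⟩, ?_, ?_⟩
    · unfold xend; rw [if_neg hpY]; exact hp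
    · unfold yend; rw [if_neg hpY, ← A.vn_eq, hq]
  choose eT heT1 heT2 heT3 using hex_top
  choose eB heB1 heB2 heB3 using hex_bot
  let ST : Finset A.Edge := (A.CT isY Λ).attach.image (fun C => eT C.1 C.2)
  let SB : Finset A.Edge := (A.CB isY Λ).attach.image (fun C => eB C.1 C.2)
  have hSTcard : ST.card = (A.CT isY Λ).card := by
    rw [← Finset.card_attach (s := A.CT isY Λ)]
    apply Finset.card_image_of_injective
    intro C C' h
    apply Subtype.ext
    have h' : eT C.1 C.2 = eT C'.1 C'.2 := h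
    rw [← heT3 C.1 C.2, ← heT3 C'.1 C'.2, h']
  have hSBcard : SB.card = (A.CB isY Λ).card := by
    rw [← Finset.card_attach (s := A.CB isY Λ)]
    apply Finset.card_image_of_injective
    intro C C' h
    apply Subtype.ext
    have h' : eB C.1 C.2 = eB C'.1 C'.2 := h
    rw [← heB3 C.1 C.2, ← heB3 C'.1 C'.2, h']
  have hST : ∀ e ∈ ST, ∃ C, ∃ hC : C ∈ A.CT isY Λ, e = eT C hC := by
    intro e he
    rw [Finset.mem_image] at he
    obtain ⟨C, _, rfl⟩ := he
    exact ⟨C.1, C.2, rfl⟩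
  have hSB : ∀ e ∈ SB, ∃ C, ∃ hC : C ∈ A.CB isY Λ, e = eB C hC := by
    intro e he
    rw [Finset.mem_image] at he
    obtain ⟨C, _, rfl⟩ := he
    exact ⟨C.1, C.2, rfl⟩
  -- x-ends of the main edges are real
  have hTx : ∀ e ∈ T, 1 ≤ (A.xend isY e).1 ∧ (A.xend isY e).1 ≤ A.K := by
    intro e he
    obtain ⟨hm, hp0, hqT⟩ := hT1 e he
    have hp2 : (A.p e).1 ≤ A.K := by
      show e.1.2.1 ≤ A.K
      have := e.1.2.2; omega
    have hq1 : 1 ≤ (A.q e).1 := by
      have := (A.hi_mem (j := e.1.1.1) (r := e.1.2.1) e.1.1.2 (by have := e.1.2.2; omega)).1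
      show 1 ≤ A.hi e.1.1.1 e.1.2.1
      omega
    have hq2 := (A.q e).2
    unfold xend
    split_ifs
    · exact ⟨hq1, by omega⟩
    · exact ⟨by omega, hp2⟩
  -- the set of all edges
  let S := T ∪ (ST ∪ SB)
  have hdisj1 : Disjoint ST SB := by
    rw [Finset.disjoint_left]
    intro e he he'
    obtain ⟨C, hC, rfl⟩ := hST e he
    obtain ⟨C', hC', h⟩ := hSB _ he'
    have h1 := heT2 C hC
    have h2 := heB2 C' hC'
    rw [← h, h1] at h2
    omega
  have hdisj2 : Disjoint T (ST ∪ SB) := by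
    rw [Finset.disjoint_left]
    intro e he he'
    have h := hTx e he
    rw [Finset.mem_union] at he'
    rcases he' with he' | he'
    · obtain ⟨C, hC, rfl⟩ := hST e he'
      rw [heT2 C hC] at h; omega
    · obtain ⟨C, hC, rfl⟩ := hSB e he'
      rw [heB2 C hC] at h; omega
  have hScard : S.card = T.card + (A.CT isY Λ).card + (A.CB isY Λ).card := by
    simp only [S]
    rw [Finset.card_union_of_disjoint hdisj2, Finset.card_union_of_disjoint hdisj1, hSTcard,
      hSBcard]
    ring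
  have hmix : ∀ e ∈ S, A.mixed isY e := by
    intro e he
    simp only [S, Finset.mem_union] at he
    rcases he with he | he | he
    · exact (hT1 e he).1
    · obtain ⟨C, hC, rfl⟩ := hST e he
      exact heT1 C hC
    · obtain ⟨C, hC, rfl⟩ := hSB e he
      exact heB1 C hC
  have hinj : ∀ e ∈ S, ∀ e' ∈ S, A.xend isY e = A.xend isY e' →
      A.vcl isY (A.yend isY e) = A.vcl isY (A.yend isY e') → e = e' := by
    intro e he e' he' hx hy
    have hx' : (A.xend isY e).1 = (A.xend isY e').1 := by rw [hx]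
    simp only [S, Finset.mem_union] at he he'
    rcases he with he | he | he
    · have h1 := hTx e he
      rcases he' with he' | he' | he'
      · exact hT2 e he e' he' hx (A.label_cls isY lab hlab hy)
      · obtain ⟨C, hC, rfl⟩ := hST e' he'
        rw [heT2 C hC] at hx'; omega
      · obtain ⟨C, hC, rfl⟩ := hSB e' he'
        rw [heB2 C hC] at hx'; omega
    · obtain ⟨C, hC, rfl⟩ := hST e he
      rw [heT2 C hC] at hx'
      rcases he' with he' | he' | he'
      · have h1 := hTx e' he'; omega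
      · obtain ⟨C', hC', rfl⟩ := hST e' he'
        rw [heT3, heT3] at hy
        subst hy; rfl
      · obtain ⟨C', hC', rfl⟩ := hSB e' he'
        rw [heB2 C' hC'] at hx'; omega
    · obtain ⟨C, hC, rfl⟩ := hSB e he
      rw [heB2 C hC] at hx'
      rcases he' with he' | he' | he'
      · have h1 := hTx e' he'; omega
      · obtain ⟨C', hC', rfl⟩ := hST e' he'
        rw [heT2 C' hC'] at hx'; omega
      · obtain ⟨C', hC', rfl⟩ := hSB e' he'
        rw [heB3, heB3] at hy
        subst hy; rfl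
  have hpl := A.planar isY S hmix hinj
  have hW := A.card_W isY
  have hcc := A.class_count isY h0 hT Λ hΛ hline hex
  -- trivial case
  rcases Finset.eq_empty_or_nonempty T with hTe | ⟨e, he⟩
  · rw [hTe]; simp
  · have hnX : 1 ≤ A.nX isY := by
      have hx := hTx e he
      have hnot := A.xend_not isY (hT1 e he).1
      unfold nX
      rw [Nat.one_le_iff_ne_zero, Finset.card_ne_zero]
      refine ⟨(A.xend isY e).1, ?_⟩
      simp only [Finset.mem_filter, Finset.mem_range]
      exact ⟨by omega, hx.1, hnot⟩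
    omega

end Arr

end Pool.Agent.Helper62
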