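import Mathlib
import Pool.Agent.Helper62.UBMain

/-!
From unit bars in the plane to combinatorial bar arrangements.
-/

set_option linter.unusedSectionVars false

namespace Pool.Agent.Helper62

open Finset

section

variable {ι : Type} [Fintype ι]

/-- Visibility of two bars of an indexed family of unit bars. -/
def Vis (l h : ι → ℝ) (i j : ι) : Prop :=
  ∃ u v : ℝ, u < v ∧ l i ≤ u ∧ v ≤ l i + 1 ∧ l j ≤ u ∧ v ≤ l j + 1 ∧
    ∀ k, k ≠ i → k ≠ j → ∀ w, u ≤ w → w ≤ v → l k ≤ w → w ≤ l k + 1 →
      ¬ (min (h i) (h j) ≤ h k ∧ h k ≤ max (h i) (h j))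

/-- enumeration of the bars from bottom to top -/
theorem exists_enum (l h : ι → ℝ) (hdisj : ∀ i j, i ≠ j → h i = h j → 1 < |l i - l j|) :
    ∃ σ : Fin (Fintype.card ι) ≃ ι, ∀ a b, a < b → h (σ a) ≤ h (σ b) := by
  classical
  let φ : ι → ℝ ×ₗ ℝ := fun i => toLex (h i, l i)
  have hφ : Function.Injective φ := by
    intro i j hij
    by_contra hne
    have h1 : (h i, l i) = (h j, l j) := toLex_inj.mp hij
    have h2 := (Prod.mk.injEq _ _ _ _).mp h1
    have := hdisj i j hne h2.1
    rw [h2.2] at this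
    simp at this
    linarith
  let _ : LinearOrder ι := LinearOrder.lift' φ hφ
  let e : Fin (Fintype.card ι) ≃o ι := monoEquivOfFin ι rfl
  refine ⟨e.toEquiv, ?_⟩
  intro a b hab
  have h1 : e a ≤ e b := (e.le_iff_le).mpr hab.le
  have h2 : φ (e a) ≤ φ (e b) := h1
  have h3 := Prod.Lex.toLex_le_toLex.mp h2
  rcases h3 with h3 | h3
  · exact h3.le
  · exact h3.1.le

/-- number of elements of `P` below `x` -/
noncomputable def idx (P : Finset ℝ) (x : ℝ) : ℕ := (P.filter (fun y => y < x)).card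

/-- column of the point `u` -/
noncomputable def colOf (P : Finset ℝ) (u : ℝ) : ℕ := (P.filter (fun y => y ≤ u)).card - 1

theorem idx_le_of_le {P : Finset ℝ} {x u : ℝ} (hx : x ∈ P) (h : x ≤ u) :
    idx P x ≤ colOf P u := by
  unfold idx colOf
  have hsub : insert x (P.filter (fun y => y < x)) ⊆ P.filter (fun y => y ≤ u) := by
    intro y hy
    rw [Finset.mem_insert] at hy
    rw [Finset.mem_filter]
    rcases hy with rfl | hy
    · exact ⟨hx, h⟩
    · rw [Finset.mem_filter] at hy
      exact ⟨hy.1, (hy.2.le).trans h⟩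
  have h1 := Finset.card_le_card hsub
  rw [Finset.card_insert_of_notMem (by simp)] at h1
  omega

theorem lt_idx_of_lt {P : Finset ℝ} {x u : ℝ} (h : u < x) (hne : ∃ y ∈ P, y ≤ u) :
    colOf P u < idx P x := by
  unfold idx colOf
  have hsub : P.filter (fun y => y ≤ u) ⊆ P.filter (fun y => y < x) := by
    intro y hy
    rw [Finset.mem_filter] at hy ⊢
    exact ⟨hy.1, lt_of_le_of_lt hy.2 h⟩
  have h1 := Finset.card_le_card hsub
  have h2 : 0 < (P.filter (fun y => y ≤ u)).card := by
    rw [Finset.card_pos]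
    obtain ⟨y, hy, hyu⟩ := hne
    exact ⟨y, Finset.mem_filter.mpr ⟨hy, hyu⟩⟩
  omega

/-- a bar covers the column of `u` iff its half-open interval contains `u` -/
theorem cov_iff {P : Finset ℝ} {x u : ℝ} (hx : x ∈ P) (hx1 : x + 1 ∈ P)
    (hne : ∃ y ∈ P, y ≤ u) :
    (idx P x ≤ colOf P u ∧ colOf P u < idx P (x + 1)) ↔ (x ≤ u ∧ u < x + 1) := by
  constructor
  · rintro ⟨h1, h2⟩
    constructor
    · by_contra hcon
      push Not at hcon
      have := lt_idx_of_lt hcon hne
      omega
    · by_contra hcon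
      push Not at hcon
      have := idx_le_of_le hx1 hcon
      omega
  · rintro ⟨h1, h2⟩
    exact ⟨idx_le_of_le hx h1, lt_idx_of_lt h2 hne⟩

theorem idx_lt_idx {P : Finset ℝ} {x y : ℝ} (hx : x ∈ P) (h : x < y) : idx P x < idx P y := by
  unfold idx
  apply Finset.card_lt_card
  rw [Finset.ssubset_iff_of_subset]
  · exact ⟨x, Finset.mem_filter.mpr ⟨hx, h⟩, by simp⟩
  · intro z hz
    rw [Finset.mem_filter] at hz ⊢
    exact ⟨hz.1, hz.2.trans h⟩

theorem idx_le_card {P : Finset ℝ} {x : ℝ} (hx : x ∈ P) : idx P x ≤ P.card - 1 := by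
  unfold idx
  have : P.filter (fun y => y < x) ⊆ P.erase x := by
    intro y hy
    rw [Finset.mem_filter] at hy
    exact Finset.mem_erase.mpr ⟨hy.2.ne, hy.1⟩
  have h1 := Finset.card_le_card this
  rw [Finset.card_erase_of_mem hx] at h1
  exact h1

/-- interior of a column -/
theorem exists_interior (P : Finset ℝ) {j : ℕ} (hj : j + 1 < P.card) :
    ∃ u v : ℝ, u < v ∧ ∀ w, u ≤ w → w ≤ v → w ∉ P ∧ colOf P w = j ∧ ∃ y ∈ P, y ≤ w := by
  classical
  let e := P.orderEmbOfFin rfl
  have hmem : ∀ i, e i ∈ P := fun i => Finset.orderEmbOfFin_mem P rfl i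
  have hsurj : ∀ y ∈ P, ∃ i, e i = y := by
    intro y hy
    have : y ∈ Set.range e := by
      rw [Finset.range_orderEmbOfFin]; exact hy
    exact this
  let a := e ⟨j, by omega⟩
  let b := e ⟨j + 1, hj⟩
  have hab : a < b := e.strictMono (by simp [Fin.lt_def])
  refine ⟨(2 * a + b) / 3, (a + 2 * b) / 3, by linarith, ?_⟩
  intro w hw1 hw2
  have haw : a < w := by linarith
  have hwb : w < b := by linarith
  have hfil : P.filter (fun y => y ≤ w) = (univ.filter (fun i : Fin P.card => i.1 ≤ j)).image e := by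
    ext y
    rw [Finset.mem_filter, Finset.mem_image]
    constructor
    · rintro ⟨hy, hyw⟩
      obtain ⟨i, rfl⟩ := hsurj y hy
      refine ⟨i, ?_, rfl⟩
      rw [Finset.mem_filter]
      refine ⟨Finset.mem_univ _, ?_⟩
      by_contra hcon
      push Not at hcon
      have : b ≤ e i := e.monotone (by rw [Fin.le_def]; simp only; omega)
      linarith
    · rintro ⟨i, hi, rfl⟩
      rw [Finset.mem_filter] at hi
      refine ⟨hmem i, ?_⟩
      have : e i ≤ a := e.monotone (by rw [Fin.le_def]; exact hi.2)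
      linarith
  refine ⟨?_, ?_, ⟨a, hmem _, haw.le⟩⟩
  · intro hwP
    obtain ⟨i, hi⟩ := hsurj w hwP
    by_cases hij : i.1 ≤ j
    · have : e i ≤ a := e.monotone (by rw [Fin.le_def]; exact hij)
      linarith
    · have : b ≤ e i := e.monotone (by rw [Fin.le_def]; simp only; omega)
      linarith
  · unfold colOf
    rw [hfil, Finset.card_image_of_injective _ e.injective]
    have : (univ.filter (fun i : Fin P.card => i.1 ≤ j)).card = j + 1 := by
      have h1 : (univ.filter (fun i : Fin P.card => i.1 ≤ j)) = Finset.Iic ⟨j, by omega⟩ := by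
        ext i
        simp [Fin.le_def]
      rw [h1, Fin.card_Iic]
    rw [this]; simp

end

end Pool.Agent.Helper62
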