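import Mathlib
import Pool.Agent.Helper62.UBDefs
import Pool.Agent.Helper62.UBGeom

/-!
Realizable bipartite patterns: unions, relabelings, and the link with `ub`.
-/

set_option linter.unusedSectionVars false

namespace Pool.Agent.Helper62

open Finset

/-- `Realiz P Q c d S`: there is a finite family of unit bars labelled by `P ⊕ Q`, pairwise
disjoint, in which bars on the same side never see each other, with at most `c p` bars labelled
`p` and at most `d q` bars labelled `q`, and in which every pair of `S` is seen. -/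
def Realiz (P Q : Type) (c : P → ℕ) (d : Q → ℕ) (S : Set (P × Q)) : Prop :=
  ∃ (ι : Type) (_ : Fintype ι) (x y : ι → ℝ) (lab : ι → P ⊕ Q),
    (∀ i j, i ≠ j → y i = y j → 1 < |x i - x j|) ∧
    (∀ i j, i ≠ j → Vis x y i j → (lab i).isLeft ≠ (lab j).isLeft) ∧
    (∀ p, ∀ F : Finset ι, (∀ i ∈ F, lab i = Sum.inl p) → F.card ≤ c p) ∧
    (∀ q, ∀ F : Finset ι, (∀ i ∈ F, lab i = Sum.inr q) → F.card ≤ d q) ∧
    (∀ s ∈ S, ∃ i j, lab i = Sum.inl s.1 ∧ lab j = Sum.inr s.2 ∧ Vis x y i j)

theorem Realiz.mono {P Q : Type} {c c' : P → ℕ} {d d' : Q → ℕ} {S S' : Set (P × Q)}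
    (H : Realiz P Q c d S) (hc : ∀ p, c p ≤ c' p) (hd : ∀ q, d q ≤ d' q) (hS : S' ⊆ S) :
    Realiz P Q c' d' S' := by
  obtain ⟨ι, hι, x, y, lab, h1, h2, h3, h4, h5⟩ := H
  exact ⟨ι, hι, x, y, lab, h1, h2, fun p F hF => (h3 p F hF).trans (hc p),
    fun q F hF => (h4 q F hF).trans (hd q), fun s hs => h5 s (hS hs)⟩

/-- relabelling -/
theorem Realiz.map {P Q P' Q' : Type} [Fintype P] [Fintype Q] [DecidableEq P'] [DecidableEq Q']
    {c : P → ℕ} {d : Q → ℕ} {c' : P' → ℕ} {d' : Q' → ℕ} {S : Set (P × Q)} {S' : Set (P' × Q')}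
    (H : Realiz P Q c d S) (f : P → P') (g : Q → Q')
    (hc : ∀ p', ∑ p ∈ univ.filter (fun p => f p = p'), c p ≤ c' p')
    (hd : ∀ q', ∑ q ∈ univ.filter (fun q => g q = q'), d q ≤ d' q')
    (hS : ∀ s' ∈ S', ∃ s ∈ S, f s.1 = s'.1 ∧ g s.2 = s'.2) :
    Realiz P' Q' c' d' S' := by
  classical
  obtain ⟨ι, hι, x, y, lab, h1, h2, h3, h4, h5⟩ := H
  refine ⟨ι, hι, x, y, fun i => Sum.map f g (lab i), h1, ?_, ?_, ?_, ?_⟩
  · intro i j hij hV
    have := h2 i j hij hV
    simpa [Sum.isLeft_map] using this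
  · intro p' F hF
    refine le_trans ?_ (hc p')
    have hmaps : ∀ i ∈ F, ∃ p, lab i = Sum.inl p ∧ f p = p' := by
      intro i hi
      have : Sum.map f g (lab i) = Sum.inl p' := hF i hi
      rcases hl : lab i with p | q
      · rw [hl] at this
        simp only [Sum.map_inl, Sum.inl.injEq] at this
        exact ⟨p, rfl, this⟩
      · rw [hl] at this
        simp at this
    have hsub : F ⊆ (univ.filter (fun p => f p = p')).biUnion
        (fun p => F.filter (fun i => lab i = Sum.inl p)) := by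
      intro i hi
      obtain ⟨p, hp, hfp⟩ := hmaps i hi
      rw [Finset.mem_biUnion]
      exact ⟨p, Finset.mem_filter.mpr ⟨Finset.mem_univ _, hfp⟩, Finset.mem_filter.mpr ⟨hi, hp⟩⟩
    refine (Finset.card_le_card hsub).trans ?_
    refine Finset.card_biUnion_le.trans ?_
    apply Finset.sum_le_sum
    intro p _
    apply h3 p
    intro i hi
    exact (Finset.mem_filter.mp hi).2
  · intro q' F hF
    refine le_trans ?_ (hd q')
    have hmaps : ∀ i ∈ F, ∃ q, lab i = Sum.inr q ∧ g q = q' := by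
      intro i hi
      have : Sum.map f g (lab i) = Sum.inr q' := hF i hi
      rcases hl : lab i with p | q
      · rw [hl] at this
        simp at this
      · rw [hl] at this
        simp only [Sum.map_inr, Sum.inr.injEq] at this
        exact ⟨q, rfl, this⟩
    have hsub : F ⊆ (univ.filter (fun q => g q = q')).biUnion
        (fun q => F.filter (fun i => lab i = Sum.inr q)) := by
      intro i hi
      obtain ⟨q, hq, hgq⟩ := hmaps i hi
      rw [Finset.mem_biUnion]
      exact ⟨q, Finset.mem_filter.mpr ⟨Finset.mem_univ _, hgq⟩, Finset.mem_filter.mpr ⟨hi, hq⟩⟩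
    refine (Finset.card_le_card hsub).trans ?_
    refine Finset.card_biUnion_le.trans ?_
    apply Finset.sum_le_sum
    intro q _
    apply h4 q
    intro i hi
    exact (Finset.mem_filter.mp hi).2
  · intro s' hs'
    obtain ⟨s, hs, hf, hg⟩ := hS s' hs'
    obtain ⟨i, j, hi, hj, hV⟩ := h5 s hs
    refine ⟨i, j, ?_, ?_, hV⟩
    · simp [hi, hf]
    · simp [hj, hg]

/-- swapping the two sides -/
theorem Realiz.swap {P Q : Type} {c : P → ℕ} {d : Q → ℕ} {S : Set (P × Q)}
    (H : Realiz P Q c d S) : Realiz Q P d c {s | (s.2, s.1) ∈ S} := by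
  obtain ⟨ι, hι, x, y, lab, h1, h2, h3, h4, h5⟩ := H
  refine ⟨ι, hι, x, y, fun i => (lab i).swap, h1, ?_, ?_, ?_, ?_⟩
  · intro i j hij hV
    have := h2 i j hij hV
    rcases hi : lab i with p | q <;> rcases hj : lab j with p' | q' <;> simp_all
  · intro q F hF
    apply h4 q F
    intro i hi
    have := hF i hi
    rcases hl : lab i with p | q' <;> simp_all
  · intro p F hF
    apply h3 p F
    intro i hi
    have := hF i hi
    rcases hl : lab i with p | q' <;> simp_all
  · rintro ⟨q, p⟩ hs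
    obtain ⟨i, j, hi, hj, u, v, k1, k2, k3, k4, k5, k6⟩ := h5 (p, q) hs
    refine ⟨j, i, by simp [hj], by simp [hi], u, v, k1, k4, k5, k2, k3, ?_⟩
    intro k hk1 hk2 w hw1 hw2 hw3 hw4
    rw [min_comm, max_comm]
    exact k6 k hk2 hk1 w hw1 hw2 hw3 hw4

/-- disjoint union of a finite family, placed side by side -/
theorem Realiz.union {κ P Q : Type} [Fintype κ] (c : κ → P → ℕ) (d : κ → Q → ℕ)
    (S : κ → Set (P × Q)) (H : ∀ k, Realiz P Q (c k) (d k) (S k)) :
    Realiz P Q (fun p => ∑ k, c k p) (fun q => ∑ k, d k q) (⋃ k, S k) := by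
  classical
  choose ι hι x y lab h1 h2 h3 h4 h5 using H
  -- a uniform bound on the positions
  have hbd : ∃ R : ℝ, 0 ≤ R ∧ ∀ k i, |x k i| ≤ R := by
    have : ∀ k, ∃ R : ℝ, ∀ i, |x k i| ≤ R := by
      intro k
      have := (Set.finite_range (fun i => |x k i|)).bddAbove
      obtain ⟨R, hR⟩ := this
      exact ⟨R, fun i => hR ⟨i, rfl⟩⟩
    choose R hR using this
    have := (Set.finite_range R).bddAbove
    obtain ⟨R0, hR0⟩ := this
    refine ⟨max R0 0, le_max_right _ _, ?_⟩
    intro k i
    exact (hR k i).trans ((hR0 ⟨k, rfl⟩).trans (le_max_left _ _))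
  obtain ⟨R, hR0, hR⟩ := hbd
  let e : κ → ℕ := fun k => (Fintype.equivFin κ k).1
  have he : Function.Injective e := by
    intro k k' h
    exact (Fintype.equivFin κ).injective (Fin.ext h)
  let D : ℝ := 2 * R + 2
  have hD : 2 ≤ D := by simp only [D]; linarith
  -- separation of different blocks
  have hsep : ∀ k k' : κ, k ≠ k' → ∀ i j, 1 < |(x k i + D * e k) - (x k' j + D * e k')| := by
    intro k k' hne i j
    have hne' : e k ≠ e k' := fun h => hne (he h)
    have hi := abs_le.mp (hR k i)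
    have hj := abs_le.mp (hR k' j)
    rcases lt_or_gt_of_ne hne' with hlt | hlt
    · have : (e k : ℝ) + 1 ≤ e k' := by exact_mod_cast hlt
      have h2 : D * e k + D ≤ D * e k' := by nlinarith
      rw [lt_abs]; right
      simp only [D] at h2 ⊢
      linarith
    · have : (e k' : ℝ) + 1 ≤ e k := by exact_mod_cast hlt
      have h2 : D * e k' + D ≤ D * e k := by nlinarith
      rw [lt_abs]; left
      simp only [D] at h2 ⊢
      linarith
  refine ⟨Σ k, ι k, inferInstance, fun i => x i.1 i.2 + D * e i.1, fun i => y i.1 i.2,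
    fun i => lab i.1 i.2, ?_, ?_, ?_, ?_, ?_⟩
  · rintro ⟨k, i⟩ ⟨k', j⟩ hne hy
    by_cases hk : k = k'
    · subst hk
      have hij : i ≠ j := by rintro rfl; exact hne rfl
      have := h1 k i j hij hy
      simp only
      rwa [add_sub_add_right_eq_sub]
    · exact hsep k k' hk i j
  · rintro ⟨k, i⟩ ⟨k', j⟩ hne hV
    by_cases hk : k = k'
    · subst hk
      have hij : i ≠ j := by rintro rfl; exact hne rfl
      apply h2 k i j hij
      obtain ⟨u, v, k1, k2, k3, k4, k5, k6⟩ := hV
      simp only at k1 k2 k3 k4 k5 k6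
      refine ⟨u - D * e k, v - D * e k, by linarith, by linarith, by linarith, by linarith,
        by linarith, ?_⟩
      intro l hli hlj w hw1 hw2 hw3 hw4
      have := k6 ⟨k, l⟩ (by intro h; apply hli; simpa using h) (by intro h; apply hlj; simpa using h)
        (w + D * e k) (by linarith) (by linarith) (by simp only; linarith)
        (by simp only; linarith)
      exact this
    · exfalso
      obtain ⟨u, v, k1, k2, k3, k4, k5, _⟩ := hV
      simp only at k2 k3 k4 k5
      have := hsep k k' hk i j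
      rw [lt_abs] at this
      rcases this with h | h <;> linarith
  · intro p F hF
    have hsub : F ⊆ univ.sigma (fun k => (univ : Finset (ι k)).filter (fun i => lab k i = Sum.inl p)) := by
      rintro ⟨k, i⟩ hi
      rw [Finset.mem_sigma]
      exact ⟨Finset.mem_univ _, Finset.mem_filter.mpr ⟨Finset.mem_univ _, hF _ hi⟩⟩
    refine (Finset.card_le_card hsub).trans ?_
    rw [Finset.card_sigma]
    apply Finset.sum_le_sum
    intro k _
    apply h3 k p
    intro i hi
    exact (Finset.mem_filter.mp hi).2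
  · intro q F hF
    have hsub : F ⊆ univ.sigma (fun k => (univ : Finset (ι k)).filter (fun i => lab k i = Sum.inr q)) := by
      rintro ⟨k, i⟩ hi
      rw [Finset.mem_sigma]
      exact ⟨Finset.mem_univ _, Finset.mem_filter.mpr ⟨Finset.mem_univ _, hF _ hi⟩⟩
    refine (Finset.card_le_card hsub).trans ?_
    rw [Finset.card_sigma]
    apply Finset.sum_le_sum
    intro k _
    apply h4 k q
    intro i hi
    exact (Finset.mem_filter.mp hi).2
  · rintro s hs
    rw [Set.mem_iUnion] at hs
    obtain ⟨k, hs⟩ := hs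
    obtain ⟨i, j, hi, hj, u, v, k1, k2, k3, k4, k5, k6⟩ := h5 k s hs
    refine ⟨⟨k, i⟩, ⟨k, j⟩, hi, hj, u + D * e k, v + D * e k, by linarith, by simp only; linarith,
      by simp only; linarith, by simp only; linarith, by simp only; linarith, ?_⟩
    rintro ⟨k', l⟩ hli hlj w hw1 hw2 hw3 hw4
    simp only at hw3 hw4
    by_cases hk : k = k'
    · subst hk
      have hli' : l ≠ i := by rintro rfl; exact hli rfl
      have hlj' : l ≠ j := by rintro rfl; exact hlj rfl
      exact k6 l hli' hlj' (w - D * e k) (by linarith) (by linarith) (by linarith) (by linarith)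
    · exfalso
      have := hsep k k' hk i l
      rw [lt_abs] at this
      rcases this with h | h <;> linarith

/-- union of two patterns -/
theorem Realiz.union2 {P Q : Type} {c c' : P → ℕ} {d d' : Q → ℕ} {S S' : Set (P × Q)}
    (H : Realiz P Q c d S) (H' : Realiz P Q c' d' S') :
    Realiz P Q (fun p => c p + c' p) (fun q => d q + d' q) (S ∪ S') := by
  have := Realiz.union (κ := Bool) (fun b => if b then c else c') (fun b => if b then d else d')
    (fun b => if b then S else S') (by intro k; cases k <;> simp [H, H'])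
  refine this.mono ?_ ?_ ?_
  · intro p; simp
  · intro q; simp
  · intro s hs
    rw [Set.mem_iUnion]
    rcases hs with hs | hs
    · exact ⟨true, by simpa using hs⟩
    · exact ⟨false, by simpa using hs⟩

/-- the empty pattern -/
theorem Realiz.empty {P Q : Type} : Realiz P Q (fun _ => 0) (fun _ => 0) ∅ := by
  refine ⟨Empty, inferInstance, fun i => i.elim, fun i => i.elim, fun i => i.elim,
    fun i => i.elim, fun i => i.elim, ?_, ?_, ?_⟩
  · intro p F _
    simp [Finset.eq_empty_of_isEmpty F]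
  · intro p F _
    simp [Finset.eq_empty_of_isEmpty F]
  · intro s hs; exact hs.elim

theorem disj_of_lt {b c : ℝ × ℝ} (h : b.2 = c.2 → 1 < |b.1 - c.1|) : Disjoint (seg b) (seg c) := by
  rw [Set.disjoint_left]
  rintro ⟨p1, p2⟩ ⟨h1, h2, h3⟩ ⟨h4, h5, h6⟩
  simp only at h1 h2 h3 h4 h5 h6
  have := h (h3.symm.trans h6)
  rw [lt_abs] at this
  rcases this with h | h <;> linarith

/-- a realizable complete pattern gives an upper bound for `ub` -/
theorem Realiz.isRep {m n t : ℕ}
    (H : Realiz (Fin m) (Fin n) (fun _ => t) (fun _ => t) Set.univ) :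
    ∃ B, IsRep (completeBipartiteGraph (Fin m) (Fin n)) t B := by
  classical
  obtain ⟨ι, hι, x, y, lab, h1, h2, h3, h4, h5⟩ := H
  let pos : ι → ℝ × ℝ := fun i => (x i, y i)
  have hposinj : ∀ i j, pos i = pos j → i = j := by
    intro i j hij
    by_contra hne
    have h := (Prod.mk.injEq _ _ _ _).mp hij
    have := h1 i j hne h.2
    rw [h.1] at this
    simp at this
    linarith
  let B : Fin m ⊕ Fin n → Finset (ℝ × ℝ) := fun v => (univ.filter (fun i => lab i = v)).image pos
  have hmem : ∀ v b, b ∈ B v ↔ ∃ i, lab i = v ∧ pos i = b := by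
    intro v b
    simp [B]
  have hvis : ∀ i j, Sees {d | ∃ x, d ∈ B x} (pos i) (pos j) ↔ Vis x y i j := by
    intro i j
    constructor
    · rintro ⟨u, v, k1, k2, k3, k4, k5, k6⟩
      refine ⟨u, v, k1, k2, k3, k4, k5, ?_⟩
      intro k hki hkj w hw1 hw2 hw3 hw4 hb
      have := k6 (pos k) ⟨lab k, (hmem _ _).mpr ⟨k, rfl, rfl⟩⟩
        (fun h => hki (hposinj _ _ h)) (fun h => hkj (hposinj _ _ h))
      rw [Set.disjoint_left] at this
      exact this (a := (w, y k)) ⟨hw3, hw4, rfl⟩ ⟨⟨hw1, hw2⟩, hb.1, hb.2⟩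
    · rintro ⟨u, v, k1, k2, k3, k4, k5, k6⟩
      refine ⟨u, v, k1, k2, k3, k4, k5, ?_⟩
      rintro d ⟨z, hz⟩ hdi hdj
      rw [hmem] at hz
      obtain ⟨k, _, rfl⟩ := hz
      rw [Set.disjoint_left]
      rintro ⟨p1, p2⟩ ⟨hp1, hp2, hp3⟩ ⟨⟨hq1, hq2⟩, hq3, hq4⟩
      simp only at hp1 hp2 hp3 hq1 hq2 hq3 hq4
      refine k6 k (by rintro rfl; exact hdi rfl) (by rintro rfl; exact hdj rfl) p1 hq1 hq2 hp1 hp2 ?_
      have : p2 = y k := hp3
      rw [← this]
      exact ⟨hq3, hq4⟩
  refine ⟨B, ?_, ?_, ?_⟩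
  · intro v
    refine Finset.card_image_le.trans ?_
    rcases v with p | q
    · exact h3 p _ (fun i hi => (Finset.mem_filter.mp hi).2)
    · exact h4 q _ (fun i hi => (Finset.mem_filter.mp hi).2)
  · intro v w b hb c hc hne
    rw [hmem] at hb hc
    obtain ⟨i, hi, rfl⟩ := hb
    obtain ⟨j, hj, rfl⟩ := hc
    have hij : i ≠ j := by
      rintro rfl
      rcases hne with h | h
      · exact h (hi.symm.trans hj)
      · exact h rfl
    apply disj_of_lt
    intro hy
    exact h1 i j hij hy
  · intro v w hvw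
    constructor
    · intro hadj
      rcases v with p | q <;> rcases w with p' | q'
      · simp [completeBipartiteGraph] at hadj
      · obtain ⟨i, j, hi, hj, hV⟩ := h5 (p, q') trivial
        exact ⟨pos i, (hmem _ _).mpr ⟨i, hi, rfl⟩, pos j, (hmem _ _).mpr ⟨j, hj, rfl⟩,
          (hvis i j).mpr hV⟩
      · obtain ⟨i, j, hi, hj, u, v, k1, k2, k3, k4, k5, k6⟩ := h5 (p', q) trivial
        refine ⟨pos j, (hmem _ _).mpr ⟨j, hj, rfl⟩, pos i, (hmem _ _).mpr ⟨i, hi, rfl⟩,
          (hvis j i).mpr ⟨u, v, k1, k4, k5, k2, k3, ?_⟩⟩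
        intro k hk1 hk2 w hw1 hw2 hw3 hw4
        rw [min_comm, max_comm]
        exact k6 k hk2 hk1 w hw1 hw2 hw3 hw4
      · simp [completeBipartiteGraph] at hadj
    · rintro ⟨b, hb, c, hc, hs⟩
      rw [hmem] at hb hc
      obtain ⟨i, hi, rfl⟩ := hb
      obtain ⟨j, hj, rfl⟩ := hc
      rw [hvis] at hs
      have hij : i ≠ j := by
        rintro rfl
        exact hvw (hi.symm.trans hj)
      have := h2 i j hij hs
      rw [hi, hj] at this
      rcases v with p | q <;> rcases w with p' | q' <;>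
        simp [completeBipartiteGraph] at this ⊢

theorem Realiz.ub_le {m n t : ℕ}
    (H : Realiz (Fin m) (Fin n) (fun _ => t) (fun _ => t) Set.univ) :
    ub (completeBipartiteGraph (Fin m) (Fin n)) ≤ t := by
  obtain ⟨B, hB⟩ := H.isRep
  exact Nat.sInf_le ⟨B, hB⟩

end Pool.Agent.Helper62
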