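import Mathlib
import Pool.Agent.Helper62.UBRealiz

/-!
The slanted brick wall.
-/

set_option linter.unusedSectionVars false

namespace Pool.Agent.Helper62

open Finset

/-- positions of the bars of the wall; `inl (s,c)` are the `Y`-bars, `inr (r,c)` the `X`-bars -/
noncomputable def wx (h L : ℕ) : (Fin (h+1) × Fin (L+2)) ⊕ (Fin h × Fin (L+1)) → ℝ
  | Sum.inl p => 2 * (p.1.1 : ℝ) + p.2.1 - 3/2
  | Sum.inr p => 2 * (p.1.1 : ℝ) + p.2.1

noncomputable def wy (h L : ℕ) : (Fin (h+1) × Fin (L+2)) ⊕ (Fin h × Fin (L+1)) → ℝ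
  | Sum.inl p => 2 * (p.1.1 : ℝ) + ((p.2.1 % 2 : ℕ) : ℝ) / 4
  | Sum.inr p => 2 * (p.1.1 : ℝ) + 1 + ((p.2.1 % 2 : ℕ) : ℝ) / 4

theorem mod2_bd (c : ℕ) : (0:ℝ) ≤ ((c % 2 : ℕ) : ℝ) ∧ ((c % 2 : ℕ) : ℝ) ≤ 1 := by
  constructor
  · positivity
  · have : c % 2 ≤ 1 := by omega
    exact_mod_cast this

/-- covering a row by unit intervals -/
theorem exists_cell (L : ℕ) (z : ℝ) (h0 : 0 ≤ z) (h1 : z ≤ L + 1) :
    ∃ c : Fin (L + 1), (c.1 : ℝ) ≤ z ∧ z ≤ (c.1 : ℝ) + 1 := by
  by_cases h : z < L + 1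
  · have hf := Nat.floor_le h0
    have hf' := Nat.lt_floor_add_one z
    have hlt : ⌊z⌋₊ < L + 1 := by
      rw [Nat.floor_lt h0]; exact_mod_cast h
    exact ⟨⟨⌊z⌋₊, hlt⟩, hf, hf'.le⟩
  · push Not at h
    refine ⟨⟨L, by omega⟩, ?_, ?_⟩
    · simp only; linarith
    · simp only; linarith

theorem wall (h L : ℕ) :
    Realiz (Fin (h+1) × Fin (L+2)) (Fin h × Fin (L+1)) (fun _ => 1) (fun _ => 1)
      {s | (s.1.1.1 = s.2.1.1 ∨ s.1.1.1 = s.2.1.1 + 1) ∧
        (2 * s.1.1.1 + s.1.2.1 = 2 * s.2.1.1 + s.2.2.1 + 2 ∨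
          2 * s.1.1.1 + s.1.2.1 = 2 * s.2.1.1 + s.2.2.1 + 1)} := by
  classical
  refine ⟨_, inferInstance, wx h L, wy h L, id, ?_, ?_, ?_, ?_, ?_⟩
  · -- disjointness
    rintro (⟨s, c⟩ | ⟨s, c⟩) (⟨s', c'⟩ | ⟨s', c'⟩) hne hy
    · simp only [wx, wy] at hy ⊢
      have h1 : 8 * s.1 + c.1 % 2 = 8 * s'.1 + c'.1 % 2 := by
        have : (8 * (s.1 : ℝ) + ((c.1 % 2 : ℕ) : ℝ)) = 8 * s'.1 + ((c'.1 % 2 : ℕ) : ℝ) := by
          linarith
        exact_mod_cast this
      have h2 : s.1 = s'.1 := by omega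
      have h3 : c.1 ≠ c'.1 := by
        intro h3; apply hne
        rw [Sum.inl.injEq, Prod.mk.injEq]; exact ⟨Fin.ext h2, Fin.ext h3⟩
      rw [h2, lt_abs]
      rcases lt_or_gt_of_ne h3 with h4 | h4
      · right
        have : (c.1 : ℝ) + 2 ≤ c'.1 := by
          have : c.1 + 2 ≤ c'.1 := by omega
          exact_mod_cast this
        linarith
      · left
        have : (c'.1 : ℝ) + 2 ≤ c.1 := by
          have : c'.1 + 2 ≤ c.1 := by omega
          exact_mod_cast this
        linarith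
    · exfalso
      simp only [wy] at hy
      have : (8 * (s.1 : ℝ) + ((c.1 % 2 : ℕ) : ℝ)) = 8 * s'.1 + 4 + ((c'.1 % 2 : ℕ) : ℝ) := by
        linarith
      have h1 : 8 * s.1 + c.1 % 2 = 8 * s'.1 + 4 + c'.1 % 2 := by exact_mod_cast this
      omega
    · exfalso
      simp only [wy] at hy
      have : (8 * (s.1 : ℝ) + 4 + ((c.1 % 2 : ℕ) : ℝ)) = 8 * s'.1 + ((c'.1 % 2 : ℕ) : ℝ) := by
        linarith
      have h1 : 8 * s.1 + 4 + c.1 % 2 = 8 * s'.1 + c'.1 % 2 := by exact_mod_cast this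
      omega
    · simp only [wx, wy] at hy ⊢
      have h1 : 8 * s.1 + c.1 % 2 = 8 * s'.1 + c'.1 % 2 := by
        have : (8 * (s.1 : ℝ) + ((c.1 % 2 : ℕ) : ℝ)) = 8 * s'.1 + ((c'.1 % 2 : ℕ) : ℝ) := by
          linarith
        exact_mod_cast this
      have h2 : s.1 = s'.1 := by omega
      have h3 : c.1 ≠ c'.1 := by
        intro h3; apply hne
        rw [Sum.inr.injEq, Prod.mk.injEq]; exact ⟨Fin.ext h2, Fin.ext h3⟩
      rw [h2, lt_abs]
      rcases lt_or_gt_of_ne h3 with h4 | h4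
      · right
        have : (c.1 : ℝ) + 2 ≤ c'.1 := by
          have : c.1 + 2 ≤ c'.1 := by omega
          exact_mod_cast this
        linarith
      · left
        have : (c'.1 : ℝ) + 2 ≤ c.1 := by
          have : c'.1 + 2 ≤ c.1 := by omega
          exact_mod_cast this
        linarith
  · -- no visibility inside a side
    -- Y bars, s < s'
    have hYY : ∀ (s s' : Fin (h+1)) (c c' : Fin (L+2)), s.1 < s'.1 →
        ¬ Vis (wx h L) (wy h L) (Sum.inl (s, c)) (Sum.inl (s', c')) := by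
      rintro s s' c c' hlt ⟨u, v, k1, k2, k3, k4, k5, k6⟩
      simp only [wx] at k2 k3 k4 k5
      have hs' : (s.1 : ℝ) + 1 ≤ s'.1 := by exact_mod_cast hlt
      have hc : (c.1 : ℝ) ≤ L + 1 := by
        have := c.2
        have : c.1 ≤ L + 1 := by omega
        exact_mod_cast this
      have hc' : (0 : ℝ) ≤ c'.1 := by positivity
      have hsh : s.1 < h := by have := s'.2; omega
      obtain ⟨d, hd1, hd2⟩ := exists_cell L (u - 2 * s.1) (by linarith) (by linarith)
      refine k6 (Sum.inr (⟨s.1, hsh⟩, d)) (by simp) (by simp) u le_rfl k1.le ?_ ?_ ?_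
      · simp only [wx]; linarith
      · simp only [wx]; linarith
      · simp only [wy]
        have b1 := mod2_bd c.1
        have b2 := mod2_bd c'.1
        have b3 := mod2_bd d.1
        constructor
        · rw [min_le_iff]; left; linarith
        · rw [le_max_iff]; right; linarith
    have hXX : ∀ (s s' : Fin h) (c c' : Fin (L+1)), s.1 < s'.1 →
        ¬ Vis (wx h L) (wy h L) (Sum.inr (s, c)) (Sum.inr (s', c')) := by
      rintro s s' c c' hlt ⟨u, v, k1, k2, k3, k4, k5, k6⟩
      simp only [wx] at k2 k3 k4 k5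
      have hs' : (s.1 : ℝ) + 1 ≤ s'.1 := by exact_mod_cast hlt
      have hc : (c.1 : ℝ) ≤ L := by
        have := c.2
        have : c.1 ≤ L := by omega
        exact_mod_cast this
      have hc' : (0 : ℝ) ≤ c'.1 := by positivity
      obtain ⟨d, hd1, hd2⟩ := exists_cell (L+1) (u - 2 * s.1 - 1/2) (by linarith)
        (by push_cast; linarith)
      refine k6 (Sum.inl (⟨s.1 + 1, by have := s.2; omega⟩, d)) (by simp) (by simp) u le_rfl k1.le
        ?_ ?_ ?_
      · simp only [wx]; push_cast; linarith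
      · simp only [wx]; push_cast; linarith
      · simp only [wy]
        have b1 := mod2_bd c.1
        have b2 := mod2_bd c'.1
        have b3 := mod2_bd d.1
        push_cast
        constructor
        · rw [min_le_iff]; left; linarith
        · rw [le_max_iff]; right; linarith
    have hsame : ∀ (i : (Fin (h+1) × Fin (L+2)) ⊕ (Fin h × Fin (L+1))) (j), Vis (wx h L) (wy h L) i j →
        wx h L i < wx h L j + 1 ∧ wx h L j < wx h L i + 1 := by
      rintro i j ⟨u, v, k1, k2, k3, k4, k5, _⟩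
      constructor <;> linarith
    rintro (⟨s, c⟩ | ⟨s, c⟩) (⟨s', c'⟩ | ⟨s', c'⟩) hne hV
    · exfalso
      rcases lt_trichotomy s.1 s'.1 with hlt | heq | hlt
      · exact hYY s s' c c' hlt hV
      · have := hsame _ _ hV
        simp only [wx, heq] at this
        have h1 : (c.1 : ℝ) < c'.1 + 1 := by linarith
        have h2 : (c'.1 : ℝ) < c.1 + 1 := by linarith
        have h1' : c.1 < c'.1 + 1 := by exact_mod_cast h1
        have h2' : c'.1 < c.1 + 1 := by exact_mod_cast h2
        apply hne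
        rw [Sum.inl.injEq, Prod.mk.injEq]; exact ⟨Fin.ext heq, Fin.ext (by omega)⟩
      · apply hYY s' s c' c hlt
        obtain ⟨u, v, k1, k2, k3, k4, k5, k6⟩ := hV
        refine ⟨u, v, k1, k4, k5, k2, k3, ?_⟩
        intro k hk1 hk2 w hw1 hw2 hw3 hw4
        rw [min_comm, max_comm]
        exact k6 k hk2 hk1 w hw1 hw2 hw3 hw4
    · simp
    · simp
    · exfalso
      rcases lt_trichotomy s.1 s'.1 with hlt | heq | hlt
      · exact hXX s s' c c' hlt hV
      · have := hsame _ _ hV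
        simp only [wx, heq] at this
        have h1 : (c.1 : ℝ) < c'.1 + 1 := by linarith
        have h2 : (c'.1 : ℝ) < c.1 + 1 := by linarith
        have h1' : c.1 < c'.1 + 1 := by exact_mod_cast h1
        have h2' : c'.1 < c.1 + 1 := by exact_mod_cast h2
        apply hne
        rw [Sum.inr.injEq, Prod.mk.injEq]; exact ⟨Fin.ext heq, Fin.ext (by omega)⟩
      · apply hXX s' s c' c hlt
        obtain ⟨u, v, k1, k2, k3, k4, k5, k6⟩ := hV
        refine ⟨u, v, k1, k4, k5, k2, k3, ?_⟩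
        intro k hk1 hk2 w hw1 hw2 hw3 hw4
        rw [min_comm, max_comm]
        exact k6 k hk2 hk1 w hw1 hw2 hw3 hw4
  · intro p F hF
    rw [Finset.card_le_one]
    intro i hi j hj
    have h1 := hF i hi
    have h2 := hF j hj
    simp only [id] at h1 h2
    rw [h1, h2]
  · intro p F hF
    rw [Finset.card_le_one]
    intro i hi j hj
    have h1 := hF i hi
    have h2 := hF j hj
    simp only [id] at h1 h2
    rw [h1, h2]
  · -- visibility
    rintro ⟨⟨s, c'⟩, ⟨r, c⟩⟩ ⟨hs, hpos⟩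
    simp only at hs hpos
    refine ⟨Sum.inl (s, c'), Sum.inr (r, c), rfl, rfl, ?_⟩
    have b1 := mod2_bd c.1
    have b2 := mod2_bd c'.1
    -- common part: nothing else in the open channel
    have hother : ∀ (k : (Fin (h+1) × Fin (L+2)) ⊕ (Fin h × Fin (L+1))), k ≠ Sum.inl (s, c') →
        k ≠ Sum.inr (r, c) → ∀ w : ℝ, 2 * (s.1 : ℝ) + c'.1 - 3/2 < w → w < 2 * (s.1 : ℝ) + c'.1 - 1/2 →
        2 * (r.1 : ℝ) + c.1 < w → w < 2 * (r.1 : ℝ) + c.1 + 1 → wx h L k ≤ w → w ≤ wx h L k + 1 →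
        ¬ (min (wy h L (Sum.inl (s, c'))) (wy h L (Sum.inr (r, c))) ≤ wy h L k ∧
          wy h L k ≤ max (wy h L (Sum.inl (s, c'))) (wy h L (Sum.inr (r, c)))) := by
      rintro (⟨s2, c2⟩ | ⟨r2, c2⟩) hk1 hk2 w hw1 hw2 hw3 hw4 hw5 hw6 ⟨hb1, hb2⟩
      · simp only [wx, wy] at hw5 hw6 hb1 hb2
        have e1 : (2 * (s2.1 : ℝ) + c2.1) < 2 * s.1 + c'.1 + 1 := by linarith
        have e2 : (2 * (s.1 : ℝ) + c'.1) < 2 * s2.1 + c2.1 + 1 := by linarith
        have e1' : 2 * s2.1 + c2.1 < 2 * s.1 + c'.1 + 1 := by exact_mod_cast e1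
        have e2' : 2 * s.1 + c'.1 < 2 * s2.1 + c2.1 + 1 := by exact_mod_cast e2
        have b3 := mod2_bd c2.1
        rw [min_le_iff] at hb1
        rw [le_max_iff] at hb2
        have hs2 : s2.1 = s.1 := by
          rcases hs with hs | hs
          · have hsr : (s.1 : ℝ) = r.1 := by exact_mod_cast hs
            have f1 : (s.1 : ℝ) < s2.1 + 1 := by rcases hb1 with hb1 | hb1 <;> linarith
            have f2 : (s2.1 : ℝ) < s.1 + 1 := by rcases hb2 with hb2 | hb2 <;> linarith
            have f1' : s.1 < s2.1 + 1 := by exact_mod_cast f1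
            have f2' : s2.1 < s.1 + 1 := by exact_mod_cast f2
            omega
          · have hsr : (s.1 : ℝ) = r.1 + 1 := by exact_mod_cast hs
            have f1 : (s.1 : ℝ) < s2.1 + 1 := by rcases hb1 with hb1 | hb1 <;> linarith
            have f2 : (s2.1 : ℝ) < s.1 + 1 := by rcases hb2 with hb2 | hb2 <;> linarith
            have f1' : s.1 < s2.1 + 1 := by exact_mod_cast f1
            have f2' : s2.1 < s.1 + 1 := by exact_mod_cast f2
            omega
        apply hk1
        rw [Sum.inl.injEq, Prod.mk.injEq]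
        exact ⟨Fin.ext hs2, Fin.ext (by omega)⟩
      · simp only [wx, wy] at hw5 hw6 hb1 hb2
        have e1 : (2 * (r2.1 : ℝ) + c2.1) < 2 * r.1 + c.1 + 1 := by linarith
        have e2 : (2 * (r.1 : ℝ) + c.1) < 2 * r2.1 + c2.1 + 1 := by linarith
        have e1' : 2 * r2.1 + c2.1 < 2 * r.1 + c.1 + 1 := by exact_mod_cast e1
        have e2' : 2 * r.1 + c.1 < 2 * r2.1 + c2.1 + 1 := by exact_mod_cast e2
        have b3 := mod2_bd c2.1
        rw [min_le_iff] at hb1
        rw [le_max_iff] at hb2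
        have hs2 : r2.1 = r.1 := by
          rcases hs with hs | hs
          · have hsr : (s.1 : ℝ) = r.1 := by exact_mod_cast hs
            have f1 : (r.1 : ℝ) < r2.1 + 1 := by rcases hb1 with hb1 | hb1 <;> linarith
            have f2 : (r2.1 : ℝ) < r.1 + 1 := by rcases hb2 with hb2 | hb2 <;> linarith
            have f1' : r.1 < r2.1 + 1 := by exact_mod_cast f1
            have f2' : r2.1 < r.1 + 1 := by exact_mod_cast f2
            omega
          · have hsr : (s.1 : ℝ) = r.1 + 1 := by exact_mod_cast hs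
            have f1 : (r.1 : ℝ) < r2.1 + 1 := by rcases hb1 with hb1 | hb1 <;> linarith
            have f2 : (r2.1 : ℝ) < r.1 + 1 := by rcases hb2 with hb2 | hb2 <;> linarith
            have f1' : r.1 < r2.1 + 1 := by exact_mod_cast f1
            have f2' : r2.1 < r.1 + 1 := by exact_mod_cast f2
            omega
        apply hk2
        rw [Sum.inr.injEq, Prod.mk.injEq]
        exact ⟨Fin.ext hs2, Fin.ext (by omega)⟩
    rcases hpos with hpos | hpos
    · -- Y is half a unit to the right of X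
      have hp : 2 * (s.1 : ℝ) + c'.1 = 2 * r.1 + c.1 + 2 := by exact_mod_cast hpos
      refine ⟨2 * r.1 + c.1 + 5/8, 2 * r.1 + c.1 + 7/8, by linarith, ?_, ?_, ?_, ?_, ?_⟩
      · simp only [wx]; linarith
      · simp only [wx]; linarith
      · simp only [wx]; linarith
      · simp only [wx]; linarith
      · intro k hk1 hk2 w hw1 hw2 hw3 hw4
        exact hother k hk1 hk2 w (by linarith) (by linarith) (by linarith) (by linarith) hw3 hw4
    · have hp : 2 * (s.1 : ℝ) + c'.1 = 2 * r.1 + c.1 + 1 := by exact_mod_cast hpos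
      refine ⟨2 * r.1 + c.1 + 1/8, 2 * r.1 + c.1 + 3/8, by linarith, ?_, ?_, ?_, ?_, ?_⟩
      · simp only [wx]; linarith
      · simp only [wx]; linarith
      · simp only [wx]; linarith
      · simp only [wx]; linarith
      · intro k hk1 hk2 w hw1 hw2 hw3 hw4
        exact hother k hk1 hk2 w (by linarith) (by linarith) (by linarith) (by linarith) hw3 hw4

end Pool.Agent.Helper62
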