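import Mathlib
import Pool.Agent.Helper62.UBWall

/-!
The three-layer drifting pattern.
-/

set_option linter.unusedSectionVars false

namespace Pool.Agent.Helper62

open Finset

/-- sign of a side: upper `1`, lower `-1` -/
def sg (b : Bool) : ℝ := if b then 1 else -1

/-- index of the bars: outer `Y` bars, inner `Y` bars, middle `X` bars, outer `X` bars -/
abbrev DY (K : ℕ) : Type := (Bool × Fin (K+1)) ⊕ (Bool × Fin K)
abbrev DX (K : ℕ) : Type := Fin (K+1) ⊕ (Bool × Fin K)

noncomputable def dx (K : ℕ) : DY K ⊕ DX K → ℝ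
  | Sum.inl (Sum.inl p) => (p.2.1 : ℝ)
  | Sum.inl (Sum.inr p) => (p.2.1 : ℝ) + ((p.2.1 : ℝ) + 1) / ((K : ℝ) + 1)
  | Sum.inr (Sum.inl k) => (k.1 : ℝ)
  | Sum.inr (Sum.inr p) => (p.2.1 : ℝ) + ((p.2.1 : ℝ) + 1) / ((K : ℝ) + 1)

noncomputable def dy (K : ℕ) : DY K ⊕ DX K → ℝ
  | Sum.inl (Sum.inl p) => sg p.1 * (3 + ((p.2.1 % 2 : ℕ) : ℝ) / 4)
  | Sum.inl (Sum.inr p) => sg p.1
  | Sum.inr (Sum.inl k) => ((k.1 % 2 : ℕ) : ℝ) / 4
  | Sum.inr (Sum.inr p) => sg p.1 * 2

/-- the seen pairs -/
def dS (K : ℕ) : Set (DY K × DX K) :=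
  {s | match s with
    | (Sum.inr p, Sum.inl k) => k.1 = p.2.1 ∨ k.1 = p.2.1 + 1
    | (Sum.inr p, Sum.inr q) => p = q
    | (Sum.inl p, Sum.inl k) => k = p.2
    | (Sum.inl p, Sum.inr q) => p.1 = q.1 ∧ (p.2.1 = q.2.1 ∨ p.2.1 = q.2.1 + 1)}

theorem vis_symm {ι : Type} {l h : ι → ℝ} {i j : ι} (H : Vis l h i j) : Vis l h j i := by
  obtain ⟨u, v, h1, h2, h3, h4, h5, h6⟩ := H
  refine ⟨u, v, h1, h4, h5, h2, h3, ?_⟩
  intro k hk1 hk2 w hw1 hw2 hw3 hw4
  rw [min_comm, max_comm]
  exact h6 k hk2 hk1 w hw1 hw2 hw3 hw4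

theorem vis_overlap {ι : Type} {l h : ι → ℝ} {i j : ι} (H : Vis l h i j) :
    l i < l j + 1 ∧ l j < l i + 1 := by
  obtain ⟨u, v, h1, h2, h3, h4, h5, _⟩ := H
  constructor <;> linarith

/-- `k` blocks the visibility of `i` and `j` when the common range of `i` and `j` is covered -/
theorem not_vis_of_block {ι : Type} {l h : ι → ℝ} {i j : ι}
    (H : ∀ w, l i ≤ w → w ≤ l i + 1 → l j ≤ w → w ≤ l j + 1 → ∃ k, k ≠ i ∧ k ≠ j ∧ l k ≤ w ∧
      w ≤ l k + 1 ∧ min (h i) (h j) ≤ h k ∧ h k ≤ max (h i) (h j)) : ¬ Vis l h i j := by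
  rintro ⟨u, v, h1, h2, h3, h4, h5, h6⟩
  obtain ⟨k, hki, hkj, k1, k2, k3, k4⟩ := H u h2 (by linarith) h4 (by linarith)
  exact h6 k hki hkj u le_rfl h1.le k1 k2 ⟨k3, k4⟩

theorem drift_frac (K : ℕ) (k : ℕ) (hk : k < K) :
    0 < ((k : ℝ) + 1) / ((K : ℝ) + 1) ∧ ((k : ℝ) + 1) / ((K : ℝ) + 1) < 1 := by
  have hK : (0 : ℝ) < (K : ℝ) + 1 := by positivity
  have hk' : (k : ℝ) + 1 < (K : ℝ) + 1 := by
    have : (k : ℝ) < K := by exact_mod_cast hk
    linarith
  constructor
  · positivity
  · rw [div_lt_one hK]; exact hk'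

theorem drift_frac_mono (K : ℕ) {k k' : ℕ} (hk : k < k') :
    ((k : ℝ) + 1) / ((K : ℝ) + 1) + 1 / ((K : ℝ) + 1) ≤ ((k' : ℝ) + 1) / ((K : ℝ) + 1) := by
  have hK : (0 : ℝ) < (K : ℝ) + 1 := by positivity
  have hk' : (k : ℝ) + 1 ≤ k' := by exact_mod_cast hk
  rw [← add_div, div_le_div_iff_of_pos_right hK]
  linarith

/-- drifting bars in the same row do not overlap -/
theorem drift_sep (K : ℕ) {k k' : ℕ} (hk : k < k') :
    (k : ℝ) + ((k : ℝ) + 1) / ((K : ℝ) + 1) + 1
      < (k' : ℝ) + ((k' : ℝ) + 1) / ((K : ℝ) + 1) := by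
  have h1 := drift_frac_mono K hk
  have hK : (0 : ℝ) < 1 / ((K : ℝ) + 1) := by positivity
  have hk' : (k : ℝ) + 1 ≤ k' := by exact_mod_cast hk
  linarith

theorem drift_range (K : ℕ) (i : DY K ⊕ DX K) : 0 ≤ dx K i ∧ dx K i + 1 ≤ (K : ℝ) + 1 := by
  rcases i with (⟨b, k⟩ | ⟨b, k⟩) | (k | ⟨b, k⟩)
  · simp only [dx]
    have : k.1 ≤ K := by have := k.2; omega
    have : (k.1 : ℝ) ≤ K := by exact_mod_cast this
    constructor
    · positivity
    · linarith
  · simp only [dx]
    have h1 := drift_frac K k.1 k.2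
    have : (k.1 : ℝ) + 1 ≤ K := by have := k.2; exact_mod_cast this
    constructor
    · have : (0:ℝ) ≤ k.1 := by positivity
      linarith
    · linarith
  · simp only [dx]
    have : k.1 ≤ K := by have := k.2; omega
    have : (k.1 : ℝ) ≤ K := by exact_mod_cast this
    constructor
    · positivity
    · linarith
  · simp only [dx]
    have h1 := drift_frac K k.1 k.2
    have : (k.1 : ℝ) + 1 ≤ K := by have := k.2; exact_mod_cast this
    constructor
    · have : (0:ℝ) ≤ k.1 := by positivity
      linarith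
    · linarith

theorem sg_cases (b : Bool) : sg b = 1 ∨ sg b = -1 := by
  cases b <;> simp [sg]

/-- the middle row blocks everything between an upper and a lower bar -/
theorem drift_mid (K : ℕ) (i j : DY K ⊕ DX K) (hi : 1 ≤ dy K i) (hj : dy K j ≤ -1) :
    ¬ Vis (dx K) (dy K) i j := by
  apply not_vis_of_block
  intro w h1 h2 _ _
  have hr := drift_range K i
  obtain ⟨c, hc1, hc2⟩ := exists_cell K w (by linarith) (by linarith)
  have b1 := mod2_bd c.1
  refine ⟨Sum.inr (Sum.inl c), ?_, ?_, ?_, ?_, ?_, ?_⟩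
  · rintro rfl
    simp only [dy] at hi; linarith
  · rintro rfl
    simp only [dy] at hj; linarith
  · simp only [dx]; exact hc1
  · simp only [dx]; exact hc2
  · rw [min_le_iff]; right; simp only [dy] at hj ⊢; linarith
  · rw [le_max_iff]; left; simp only [dy] at hi ⊢; linarith

theorem drift_disj (K : ℕ) (i j : DY K ⊕ DX K) (hne : i ≠ j) (hy : dy K i = dy K j) :
    1 < |dx K i - dx K j| := by
  rcases i with (⟨b, k⟩ | ⟨b, k⟩) | (k | ⟨b, k⟩) <;>
    rcases j with (⟨b', k'⟩ | ⟨b', k'⟩) | (k' | ⟨b', k'⟩)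
  · -- outer Y, outer Y
    simp only [dx, dy] at hy ⊢
    have c1 := mod2_bd k.1
    have c2 := mod2_bd k'.1
    have hb : b = b' := by
      cases b <;> cases b' <;> simp only [sg] at hy <;> simp at hy ⊢ <;> linarith
    subst hb
    have hsg : sg b ≠ 0 := by rcases sg_cases b with h | h <;> rw [h] <;> norm_num
    have h1 : ((k.1 % 2 : ℕ) : ℝ) = ((k'.1 % 2 : ℕ) : ℝ) := by
      have := mul_left_cancel₀ hsg hy
      linarith
    have h1' : k.1 % 2 = k'.1 % 2 := by exact_mod_cast h1
    have hkk : k.1 ≠ k'.1 := by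
      intro h; apply hne
      have : k = k' := Fin.ext h
      rw [this]
    rw [lt_abs]
    rcases lt_or_gt_of_ne hkk with h4 | h4
    · right
      have : (k.1 : ℝ) + 2 ≤ k'.1 := by
        have : k.1 + 2 ≤ k'.1 := by omega
        exact_mod_cast this
      linarith
    · left
      have : (k'.1 : ℝ) + 2 ≤ k.1 := by
        have : k'.1 + 2 ≤ k.1 := by omega
        exact_mod_cast this
      linarith
  · exfalso
    simp only [dy] at hy
    have c1 := mod2_bd k.1
    rcases sg_cases b with h | h <;> rcases sg_cases b' with h' | h' <;> rw [h, h'] at hy <;>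
      linarith
  · exfalso
    simp only [dy] at hy
    have c1 := mod2_bd k.1
    have c2 := mod2_bd k'.1
    rcases sg_cases b with h | h <;> rw [h] at hy <;> linarith
  · exfalso
    simp only [dy] at hy
    have c1 := mod2_bd k.1
    rcases sg_cases b with h | h <;> rcases sg_cases b' with h' | h' <;> rw [h, h'] at hy <;>
      linarith
  · exfalso
    simp only [dy] at hy
    have c1 := mod2_bd k'.1
    rcases sg_cases b with h | h <;> rcases sg_cases b' with h' | h' <;> rw [h, h'] at hy <;>
      linarith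
  · simp only [dx, dy] at hy ⊢
    have hb : b = b' := by
      cases b <;> cases b' <;> simp only [sg] at hy <;> simp at hy ⊢ <;> linarith
    subst hb
    have hkk : k.1 ≠ k'.1 := by
      intro h; apply hne
      have : k = k' := Fin.ext h
      rw [this]
    rw [lt_abs]
    rcases lt_or_gt_of_ne hkk with h4 | h4
    · right
      have := drift_sep K h4
      linarith
    · left
      have := drift_sep K h4
      linarith
  · exfalso
    simp only [dy] at hy
    have c2 := mod2_bd k'.1
    rcases sg_cases b with h | h <;> rw [h] at hy <;> linarith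
  · exfalso
    simp only [dy] at hy
    rcases sg_cases b with h | h <;> rcases sg_cases b' with h' | h' <;> rw [h, h'] at hy <;>
      linarith
  · exfalso
    simp only [dy] at hy
    have c1 := mod2_bd k.1
    have c2 := mod2_bd k'.1
    rcases sg_cases b' with h | h <;> rw [h] at hy <;> linarith
  · exfalso
    simp only [dy] at hy
    have c1 := mod2_bd k.1
    rcases sg_cases b' with h | h <;> rw [h] at hy <;> linarith
  · simp only [dx, dy] at hy ⊢
    have h1 : ((k.1 % 2 : ℕ) : ℝ) = ((k'.1 % 2 : ℕ) : ℝ) := by linarith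
    have h1' : k.1 % 2 = k'.1 % 2 := by exact_mod_cast h1
    have hkk : k.1 ≠ k'.1 := by
      intro h; apply hne
      have : k = k' := Fin.ext h
      rw [this]
    rw [lt_abs]
    rcases lt_or_gt_of_ne hkk with h4 | h4
    · right
      have : (k.1 : ℝ) + 2 ≤ k'.1 := by
        have : k.1 + 2 ≤ k'.1 := by omega
        exact_mod_cast this
      linarith
    · left
      have : (k'.1 : ℝ) + 2 ≤ k.1 := by
        have : k'.1 + 2 ≤ k.1 := by omega
        exact_mod_cast this
      linarith
  · exfalso
    simp only [dy] at hy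
    have c1 := mod2_bd k.1
    rcases sg_cases b' with h | h <;> rw [h] at hy <;> linarith
  · exfalso
    simp only [dy] at hy
    have c1 := mod2_bd k'.1
    rcases sg_cases b with h | h <;> rcases sg_cases b' with h' | h' <;> rw [h, h'] at hy <;>
      linarith
  · exfalso
    simp only [dy] at hy
    rcases sg_cases b with h | h <;> rcases sg_cases b' with h' | h' <;> rw [h, h'] at hy <;>
      linarith
  · exfalso
    simp only [dy] at hy
    have c1 := mod2_bd k'.1
    rcases sg_cases b with h | h <;> rw [h] at hy <;> linarith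
  · simp only [dx, dy] at hy ⊢
    have hb : b = b' := by
      cases b <;> cases b' <;> simp only [sg] at hy <;> simp at hy ⊢ <;> linarith
    subst hb
    have hkk : k.1 ≠ k'.1 := by
      intro h; apply hne
      have : k = k' := Fin.ext h
      rw [this]
    rw [lt_abs]
    rcases lt_or_gt_of_ne hkk with h4 | h4
    · right
      have := drift_sep K h4
      linarith
    · left
      have := drift_sep K h4
      linarith

theorem drift_up (K : ℕ) (b : Bool) (hb : b = true) (k : Fin (K+1)) (k' : Fin K) :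
    1 ≤ dy K (Sum.inl (Sum.inl (b, k))) ∧ 1 ≤ dy K (Sum.inl (Sum.inr (b, k'))) ∧
      1 ≤ dy K (Sum.inr (Sum.inr (b, k'))) := by
  subst hb
  have c1 := mod2_bd k.1
  simp only [dy, sg, if_true]
  refine ⟨by linarith, by norm_num, by norm_num⟩

theorem drift_down (K : ℕ) (b : Bool) (hb : b = false) (k : Fin (K+1)) (k' : Fin K) :
    dy K (Sum.inl (Sum.inl (b, k))) ≤ -1 ∧ dy K (Sum.inl (Sum.inr (b, k'))) ≤ -1 ∧
      dy K (Sum.inr (Sum.inr (b, k'))) ≤ -1 := by
  subst hb
  have c1 := mod2_bd k.1
  simp only [dy, sg]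
  refine ⟨?_, ?_, ?_⟩ <;> simp <;> linarith

/-- the bars of one side do not see each other -/
theorem drift_same (K : ℕ) (i j : DY K ⊕ DX K) (hne : i ≠ j)
    (hV : Vis (dx K) (dy K) i j) : i.isLeft ≠ j.isLeft := by
  have hov := vis_overlap hV
  have hV' := vis_symm hV
  have hint : ∀ k k' : Fin (K+1), (k.1 : ℝ) < k'.1 + 1 → (k'.1 : ℝ) < k.1 + 1 → k = k' := by
    intro k k' h1 h2
    have h1' : k.1 < k'.1 + 1 := by exact_mod_cast h1
    have h2' : k'.1 < k.1 + 1 := by exact_mod_cast h2
    exact Fin.ext (by omega)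
  have hdr : ∀ k k' : Fin K, (k.1 : ℝ) + ((k.1 : ℝ) + 1) / ((K : ℝ) + 1)
      < (k'.1 : ℝ) + ((k'.1 : ℝ) + 1) / ((K : ℝ) + 1) + 1 →
      (k'.1 : ℝ) + ((k'.1 : ℝ) + 1) / ((K : ℝ) + 1)
      < (k.1 : ℝ) + ((k.1 : ℝ) + 1) / ((K : ℝ) + 1) + 1 → k = k' := by
    intro k k' h1 h2
    rcases lt_trichotomy k.1 k'.1 with h | h | h
    · have := drift_sep K h; linarith
    · exact Fin.ext h
    · have := drift_sep K h; linarith
  rcases i with (⟨b, k⟩ | ⟨b, k⟩) | (k | ⟨b, k⟩) <;>
    rcases j with (⟨b', k'⟩ | ⟨b', k'⟩) | (k' | ⟨b', k'⟩)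
  · exfalso
    simp only [dx] at hov
    have hkk := hint k k' hov.1 hov.2
    subst hkk
    cases hb : b <;> cases hb' : b'
    · rw [hb, hb'] at hne; exact hne rfl
    · subst hb; subst hb'
      have h1 := mod2_bd k.1
      exact drift_mid K _ _ (by simp only [dy, sg]; simp; linarith)
        (by simp only [dy, sg]; simp; linarith) hV'
    · subst hb; subst hb'
      have h1 := mod2_bd k.1
      exact drift_mid K _ _ (by simp only [dy, sg]; simp; linarith)
        (by simp only [dy, sg]; simp; linarith) hV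
    · rw [hb, hb'] at hne; exact hne rfl
  · exfalso
    by_cases hbb : b = b'
    · subst hbb
      revert hV
      apply not_vis_of_block
      intro w _ _ h3 h4
      refine ⟨Sum.inr (Sum.inr (b, k')), by simp, by simp, ?_, ?_, ?_, ?_⟩
      · simpa only [dx] using h3
      · simpa only [dx] using h4
      · have c1 := mod2_bd k.1
        simp only [dy]
        cases b <;> simp [sg] <;> first | (left; linarith) | (right; linarith) | linarith
      · have c1 := mod2_bd k.1
        simp only [dy]
        cases b <;> simp [sg] <;> first | (left; linarith) | (right; linarith) | linarith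
    · have c1 := mod2_bd k.1
      cases hb : b <;> cases hb' : b'
      · exact hbb (hb.trans hb'.symm)
      · subst hb; subst hb'
        exact drift_mid K _ _ (by simp [dy, sg]) (by simp only [dy, sg]; simp; linarith) hV'
      · subst hb; subst hb'
        exact drift_mid K _ _ (by simp only [dy, sg]; simp; linarith) (by simp [dy, sg]) hV
      · exact hbb (hb.trans hb'.symm)
  · simp
  · simp
  · exfalso
    by_cases hbb : b = b'
    · subst hbb
      revert hV
      apply not_vis_of_block
      intro w h1 h2 _ _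
      refine ⟨Sum.inr (Sum.inr (b, k)), by simp, by simp, ?_, ?_, ?_, ?_⟩
      · simpa only [dx] using h1
      · simpa only [dx] using h2
      · have c1 := mod2_bd k'.1
        simp only [dy]
        cases b <;> simp [sg] <;> first | (left; linarith) | (right; linarith) | linarith
      · have c1 := mod2_bd k'.1
        simp only [dy]
        cases b <;> simp [sg] <;> first | (left; linarith) | (right; linarith) | linarith
    · have c1 := mod2_bd k'.1
      cases hb : b <;> cases hb' : b'
      · exact hbb (hb.trans hb'.symm)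
      · subst hb; subst hb'
        exact drift_mid K _ _ (by simp only [dy, sg]; simp; linarith) (by simp [dy, sg]) hV'
      · subst hb; subst hb'
        exact drift_mid K _ _ (by simp [dy, sg]) (by simp only [dy, sg]; simp; linarith) hV
      · exact hbb (hb.trans hb'.symm)
  · exfalso
    simp only [dx] at hov
    have hkk := hdr k k' hov.1 hov.2
    subst hkk
    cases hb : b <;> cases hb' : b'
    · rw [hb, hb'] at hne; exact hne rfl
    · subst hb; subst hb'
      exact drift_mid K _ _ (by simp [dy, sg]) (by simp [dy, sg]) hV'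
    · subst hb; subst hb'
      exact drift_mid K _ _ (by simp [dy, sg]) (by simp [dy, sg]) hV
    · rw [hb, hb'] at hne; exact hne rfl
  · simp
  · simp
  · simp
  · simp
  · exfalso
    simp only [dx] at hov
    have hkk := hint k k' hov.1 hov.2
    subst hkk
    exact hne rfl
  · exfalso
    revert hV
    apply not_vis_of_block
    intro w _ _ h3 h4
    refine ⟨Sum.inl (Sum.inr (b', k')), by simp, by simp, ?_, ?_, ?_, ?_⟩
    · simpa only [dx] using h3
    · simpa only [dx] using h4
    · have c1 := mod2_bd k.1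
      simp only [dy]
      cases b' <;> simp [sg] <;> first | (left; linarith) | (right; linarith) | linarith
    · have c1 := mod2_bd k.1
      simp only [dy]
      cases b' <;> simp [sg] <;> first | (left; linarith) | (right; linarith) | linarith
  · simp
  · simp
  · exfalso
    revert hV
    apply not_vis_of_block
    intro w h1 h2 _ _
    refine ⟨Sum.inl (Sum.inr (b, k)), by simp, by simp, ?_, ?_, ?_, ?_⟩
    · simpa only [dx] using h1
    · simpa only [dx] using h2
    · have c1 := mod2_bd k'.1
      simp only [dy]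
      cases b <;> simp [sg] <;> first | (left; linarith) | (right; linarith) | linarith
    · have c1 := mod2_bd k'.1
      simp only [dy]
      cases b <;> simp [sg] <;> first | (left; linarith) | (right; linarith) | linarith
  · exfalso
    simp only [dx] at hov
    have hkk := hdr k k' hov.1 hov.2
    subst hkk
    cases hb : b <;> cases hb' : b'
    · rw [hb, hb'] at hne; exact hne rfl
    · subst hb; subst hb'
      exact drift_mid K _ _ (by simp [dy, sg]) (by simp [dy, sg]) hV'
    · subst hb; subst hb'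
      exact drift_mid K _ _ (by simp [dy, sg]) (by simp [dy, sg]) hV
    · rw [hb, hb'] at hne; exact hne rfl

end Pool.Agent.Helper62
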