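import Mathlib
import Pool.Agent.Helper62.UBDrift

/-!
Visible pairs of the three-layer drifting pattern.
-/

set_option linter.unusedSectionVars false

namespace Pool.Agent.Helper62

open Finset

theorem int_bar_eq {k k' : ℕ} {w : ℝ} (h1 : (k : ℝ) < w) (h2 : w < (k : ℝ) + 1)
    (h3 : (k' : ℝ) ≤ w) (h4 : w ≤ (k' : ℝ) + 1) : k' = k := by
  have e1 : (k : ℝ) < k' + 1 := by linarith
  have e2 : (k' : ℝ) < k + 1 := by linarith
  have e1' : k < k' + 1 := by exact_mod_cast e1
  have e2' : k' < k + 1 := by exact_mod_cast e2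
  omega

/-- left end of the drifting bars of index `k` -/
noncomputable def dpos (K k : ℕ) : ℝ := (k : ℝ) + ((k : ℝ) + 1) / ((K : ℝ) + 1)

theorem dpos_sep {K k k' : ℕ} (hk : k < k') : dpos K k + 1 < dpos K k' := drift_sep K hk

theorem drift_bar_eq {K k k' : ℕ} {w : ℝ} (h1 : dpos K k < w) (h2 : w < dpos K k + 1)
    (h3 : dpos K k' ≤ w) (h4 : w ≤ dpos K k' + 1) : k' = k := by
  rcases lt_trichotomy k k' with h | h | h
  · have := dpos_sep (K := K) h; linarith
  · exact h.symm
  · have := dpos_sep (K := K) h; linarith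

theorem drift_none {K k k' : ℕ} {w : ℝ} (h1 : (k : ℝ) + (k : ℝ) / ((K : ℝ) + 1) < w)
    (h2 : w < dpos K k) (h3 : dpos K k' ≤ w) (h4 : w ≤ dpos K k' + 1) : False := by
  rcases lt_or_ge k' k with h | h
  · have hm : ((k' : ℝ) + 1) / ((K : ℝ) + 1) ≤ (k : ℝ) / ((K : ℝ) + 1) := by
      have hK : (0 : ℝ) < (K : ℝ) + 1 := by positivity
      rw [div_le_div_iff_of_pos_right hK]
      exact_mod_cast h
    have : (k' : ℝ) + 1 ≤ k := by exact_mod_cast h
    unfold dpos at h4
    linarith
  · rcases eq_or_lt_of_le h with h | h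
    · subst h; linarith
    · have := dpos_sep (K := K) h; linarith

/-- `clear w i j`: at the abscissa `w` no bar other than `i, j` lies between `i` and `j` -/
def Clear (K : ℕ) (w : ℝ) (i j : DY K ⊕ DX K) : Prop :=
  ∀ k, k ≠ i → k ≠ j → dx K k ≤ w → w ≤ dx K k + 1 →
    ¬ (min (dy K i) (dy K j) ≤ dy K k ∧ dy K k ≤ max (dy K i) (dy K j))

theorem vis_of_clear {K : ℕ} {i j : DY K ⊕ DX K} {a b : ℝ} (hab : a < b)
    (hi : dx K i ≤ a ∧ b ≤ dx K i + 1) (hj : dx K j ≤ a ∧ b ≤ dx K j + 1)
    (H : ∀ w, a < w → w < b → Clear K w i j) : Vis (dx K) (dy K) i j := by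
  refine ⟨(2*a+b)/3, (a+2*b)/3, by linarith, by linarith, by linarith, by linarith, by linarith, ?_⟩
  intro k hk1 hk2 w hw1 hw2 hw3 hw4
  exact H w (by linarith) (by linarith) k hk1 hk2 hw3 hw4

theorem sg_true : sg true = 1 := by simp [sg]
theorem sg_false : sg false = -1 := by simp [sg]

/-- at `w`, the integral bars have index `k0`, the drifting bars index `κ` -/
theorem clear_inner_mid {K : ℕ} {w : ℝ} (b : Bool) (κ : Fin K) (k0 : Fin (K+1))
    (hint : ∀ k : ℕ, (k : ℝ) ≤ w → w ≤ (k : ℝ) + 1 → k = k0.1)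
    (hdr : ∀ k : ℕ, dpos K k ≤ w → w ≤ dpos K k + 1 → k = κ.1) :
    Clear K w (Sum.inl (Sum.inr (b, κ))) (Sum.inr (Sum.inl k0)) := by
  have c0 := mod2_bd k0.1
  rintro ((⟨b', k⟩ | ⟨b', k⟩) | (k | ⟨b', k⟩)) hk1 hk2 hw3 hw4 ⟨hb1, hb2⟩
  · simp only [dy] at hb1 hb2
    have c1 := mod2_bd k.1
    rw [min_le_iff] at hb1
    rw [le_max_iff] at hb2
    cases b <;> cases b' <;> simp only [sg_true, sg_false] at hb1 hb2 <;>
      rcases hb1 with hb1 | hb1 <;> rcases hb2 with hb2 | hb2 <;> linarith
  · have hk : k.1 = κ.1 := hdr k.1 hw3 hw4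
    simp only [dy] at hb1 hb2
    rw [min_le_iff] at hb1
    rw [le_max_iff] at hb2
    cases b <;> cases b'
    · exact hk1 (by rw [Fin.ext hk])
    · simp only [sg_true, sg_false] at hb1 hb2
      rcases hb1 with hb1 | hb1 <;> rcases hb2 with hb2 | hb2 <;> linarith
    · simp only [sg_true, sg_false] at hb1 hb2
      rcases hb1 with hb1 | hb1 <;> rcases hb2 with hb2 | hb2 <;> linarith
    · exact hk1 (by rw [Fin.ext hk])
  · have hk : k.1 = k0.1 := hint k.1 hw3 hw4
    exact hk2 (by rw [Fin.ext hk])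
  · simp only [dy] at hb1 hb2
    rw [min_le_iff] at hb1
    rw [le_max_iff] at hb2
    cases b <;> cases b' <;> simp only [sg_true, sg_false] at hb1 hb2 <;>
      rcases hb1 with hb1 | hb1 <;> rcases hb2 with hb2 | hb2 <;> linarith

theorem clear_inner_outer {K : ℕ} {w : ℝ} (b : Bool) (κ : Fin K)
    (hdr : ∀ k : ℕ, dpos K k ≤ w → w ≤ dpos K k + 1 → k = κ.1) :
    Clear K w (Sum.inl (Sum.inr (b, κ))) (Sum.inr (Sum.inr (b, κ))) := by
  rintro ((⟨b', k⟩ | ⟨b', k⟩) | (k | ⟨b', k⟩)) hk1 hk2 hw3 hw4 ⟨hb1, hb2⟩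
  · simp only [dy] at hb1 hb2
    have c1 := mod2_bd k.1
    rw [min_le_iff] at hb1
    rw [le_max_iff] at hb2
    cases b <;> cases b' <;> simp only [sg_true, sg_false] at hb1 hb2 <;>
      rcases hb1 with hb1 | hb1 <;> rcases hb2 with hb2 | hb2 <;> linarith
  · have hk : k.1 = κ.1 := hdr k.1 hw3 hw4
    simp only [dy] at hb1 hb2
    rw [min_le_iff] at hb1
    rw [le_max_iff] at hb2
    cases b <;> cases b'
    · exact hk1 (by rw [Fin.ext hk])
    · simp only [sg_true, sg_false] at hb1 hb2
      rcases hb1 with hb1 | hb1 <;> rcases hb2 with hb2 | hb2 <;> linarith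
    · simp only [sg_true, sg_false] at hb1 hb2
      rcases hb1 with hb1 | hb1 <;> rcases hb2 with hb2 | hb2 <;> linarith
    · exact hk1 (by rw [Fin.ext hk])
  · simp only [dy] at hb1 hb2
    have c1 := mod2_bd k.1
    rw [min_le_iff] at hb1
    rw [le_max_iff] at hb2
    cases b <;> simp only [sg_true, sg_false] at hb1 hb2 <;>
      rcases hb1 with hb1 | hb1 <;> rcases hb2 with hb2 | hb2 <;> linarith
  · have hk : k.1 = κ.1 := hdr k.1 hw3 hw4
    simp only [dy] at hb1 hb2
    rw [min_le_iff] at hb1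
    rw [le_max_iff] at hb2
    cases b <;> cases b'
    · exact hk2 (by rw [Fin.ext hk])
    · simp only [sg_true, sg_false] at hb1 hb2
      rcases hb1 with hb1 | hb1 <;> rcases hb2 with hb2 | hb2 <;> linarith
    · simp only [sg_true, sg_false] at hb1 hb2
      rcases hb1 with hb1 | hb1 <;> rcases hb2 with hb2 | hb2 <;> linarith
    · exact hk2 (by rw [Fin.ext hk])

theorem clear_outer_mid {K : ℕ} {w : ℝ} (b : Bool) (k0 : Fin (K+1))
    (hint : ∀ k : ℕ, (k : ℝ) ≤ w → w ≤ (k : ℝ) + 1 → k = k0.1)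
    (hdr : ∀ k : ℕ, dpos K k ≤ w → w ≤ dpos K k + 1 → False) :
    Clear K w (Sum.inl (Sum.inl (b, k0))) (Sum.inr (Sum.inl k0)) := by
  have c0 := mod2_bd k0.1
  rintro ((⟨b', k⟩ | ⟨b', k⟩) | (k | ⟨b', k⟩)) hk1 hk2 hw3 hw4 ⟨hb1, hb2⟩
  · have hk : k.1 = k0.1 := hint k.1 hw3 hw4
    simp only [dy] at hb1 hb2
    have c1 := mod2_bd k.1
    rw [min_le_iff] at hb1
    rw [le_max_iff] at hb2
    cases b <;> cases b'
    · exact hk1 (by rw [Fin.ext hk])
    · simp only [sg_true, sg_false] at hb1 hb2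
      rcases hb1 with hb1 | hb1 <;> rcases hb2 with hb2 | hb2 <;> linarith
    · simp only [sg_true, sg_false] at hb1 hb2
      rcases hb1 with hb1 | hb1 <;> rcases hb2 with hb2 | hb2 <;> linarith
    · exact hk1 (by rw [Fin.ext hk])
  · exact hdr k.1 hw3 hw4
  · have hk : k.1 = k0.1 := hint k.1 hw3 hw4
    exact hk2 (by rw [Fin.ext hk])
  · exact hdr k.1 hw3 hw4

theorem clear_outer_outer {K : ℕ} {w : ℝ} (b : Bool) (k0 : Fin (K+1)) (κ : Fin K)
    (hint : ∀ k : ℕ, (k : ℝ) ≤ w → w ≤ (k : ℝ) + 1 → k = k0.1)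
    (hdr : ∀ k : ℕ, dpos K k ≤ w → w ≤ dpos K k + 1 → k = κ.1) :
    Clear K w (Sum.inl (Sum.inl (b, k0))) (Sum.inr (Sum.inr (b, κ))) := by
  have c0 := mod2_bd k0.1
  rintro ((⟨b', k⟩ | ⟨b', k⟩) | (k | ⟨b', k⟩)) hk1 hk2 hw3 hw4 ⟨hb1, hb2⟩
  · have hk : k.1 = k0.1 := hint k.1 hw3 hw4
    simp only [dy] at hb1 hb2
    have c1 := mod2_bd k.1
    rw [min_le_iff] at hb1
    rw [le_max_iff] at hb2
    cases b <;> cases b'
    · exact hk1 (by rw [Fin.ext hk])
    · simp only [sg_true, sg_false] at hb1 hb2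
      rcases hb1 with hb1 | hb1 <;> rcases hb2 with hb2 | hb2 <;> linarith
    · simp only [sg_true, sg_false] at hb1 hb2
      rcases hb1 with hb1 | hb1 <;> rcases hb2 with hb2 | hb2 <;> linarith
    · exact hk1 (by rw [Fin.ext hk])
  · simp only [dy] at hb1 hb2
    rw [min_le_iff] at hb1
    rw [le_max_iff] at hb2
    cases b <;> cases b' <;> simp only [sg_true, sg_false] at hb1 hb2 <;>
      rcases hb1 with hb1 | hb1 <;> rcases hb2 with hb2 | hb2 <;> linarith
  · simp only [dy] at hb1 hb2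
    have c1 := mod2_bd k.1
    rw [min_le_iff] at hb1
    rw [le_max_iff] at hb2
    cases b <;> simp only [sg_true, sg_false] at hb1 hb2 <;>
      rcases hb1 with hb1 | hb1 <;> rcases hb2 with hb2 | hb2 <;> linarith
  · have hk : k.1 = κ.1 := hdr k.1 hw3 hw4
    simp only [dy] at hb1 hb2
    rw [min_le_iff] at hb1
    rw [le_max_iff] at hb2
    cases b <;> cases b'
    · exact hk2 (by rw [Fin.ext hk])
    · simp only [sg_true, sg_false] at hb1 hb2
      rcases hb1 with hb1 | hb1 <;> rcases hb2 with hb2 | hb2 <;> linarith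
    · simp only [sg_true, sg_false] at hb1 hb2
      rcases hb1 with hb1 | hb1 <;> rcases hb2 with hb2 | hb2 <;> linarith
    · exact hk2 (by rw [Fin.ext hk])

theorem dpos_bd {K k : ℕ} (hk : k < K) : (k : ℝ) < dpos K k ∧ dpos K k < (k : ℝ) + 1 := by
  have := drift_frac K k hk
  unfold dpos
  constructor <;> linarith

theorem drift (K : ℕ) :
    Realiz (DY K) (DX K) (fun _ => 1) (fun _ => 1) (dS K) := by
  classical
  refine ⟨_, inferInstance, dx K, dy K, id, drift_disj K, drift_same K, ?_, ?_, ?_⟩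
  · intro p F hF
    rw [Finset.card_le_one]
    intro i hi j hj
    have h1 := hF i hi
    have h2 := hF j hj
    simp only [id] at h1 h2
    rw [h1, h2]
  · intro p F hF
    rw [Finset.card_le_one]
    intro i hi j hj
    have h1 := hF i hi
    have h2 := hF j hj
    simp only [id] at h1 h2
    rw [h1, h2]
  · rintro ⟨(⟨b, k⟩ | ⟨b, k⟩), (k' | ⟨b', k'⟩)⟩ hs
    · -- outer Y, middle X
      simp only [dS, Set.mem_ofPred_eq] at hs
      subst hs
      refine ⟨Sum.inl (Sum.inl (b, k')), Sum.inr (Sum.inl k'), rfl, rfl, ?_⟩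
      have hK : (0 : ℝ) < (K : ℝ) + 1 := by positivity
      have hfr0 : (0 : ℝ) ≤ (k'.1 : ℝ) / ((K : ℝ) + 1) := by positivity
      have hfr1 : ((k'.1 : ℝ) + 1) / ((K : ℝ) + 1) ≤ 1 := by
        rw [div_le_one hK]
        have : k'.1 ≤ K := by have := k'.2; omega
        have : (k'.1 : ℝ) ≤ K := by exact_mod_cast this
        linarith
      have hlt : (k'.1 : ℝ) / ((K : ℝ) + 1) < ((k'.1 : ℝ) + 1) / ((K : ℝ) + 1) := by
        rw [div_lt_div_iff_of_pos_right hK]; linarith
      apply vis_of_clear (a := (k'.1 : ℝ) + (k'.1 : ℝ) / ((K : ℝ) + 1)) (b := dpos K k'.1)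
      · unfold dpos; linarith
      · unfold dpos; simp only [dx]; constructor <;> linarith
      · unfold dpos; simp only [dx]; constructor <;> linarith
      · intro w hw1 hw2
        apply clear_outer_mid
        · intro k h3 h4
          refine int_bar_eq (w := w) (by linarith) ?_ h3 h4
          unfold dpos at hw2; linarith
        · intro k h3 h4
          exact drift_none hw1 hw2 h3 h4
    · -- outer Y, outer X
      simp only [dS, Set.mem_ofPred_eq] at hs
      obtain ⟨rfl, hs⟩ := hs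
      refine ⟨Sum.inl (Sum.inl (b, k)), Sum.inr (Sum.inr (b, k')), rfl, rfl, ?_⟩
      have hd := dpos_bd k'.2
      rcases hs with hs | hs
      · have hs' : (k.1 : ℝ) = k'.1 := by exact_mod_cast hs
        apply vis_of_clear (a := dpos K k'.1) (b := (k'.1 : ℝ) + 1) hd.2
        · simp only [dx]; constructor <;> linarith
        · constructor
          · exact le_of_eq rfl
          · show (k'.1 : ℝ) + 1 ≤ dpos K k'.1 + 1
            linarith
        · intro w hw1 hw2
          apply clear_outer_outer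
          · intro j h3 h4
            rw [hs]
            exact int_bar_eq (w := w) (by linarith) hw2 h3 h4
          · intro j h3 h4
            exact drift_bar_eq (w := w) hw1 (by linarith) h3 h4
      · have hs' : (k.1 : ℝ) = k'.1 + 1 := by exact_mod_cast hs
        apply vis_of_clear (a := (k'.1 : ℝ) + 1) (b := dpos K k'.1 + 1) (by linarith)
        · simp only [dx]; constructor <;> linarith
        · constructor
          · show dpos K k'.1 ≤ (k'.1 : ℝ) + 1
            linarith
          · exact le_of_eq rfl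
        · intro w hw1 hw2
          apply clear_outer_outer
          · intro j h3 h4
            exact int_bar_eq (w := w) (by linarith) (by linarith) h3 h4
          · intro j h3 h4
            exact drift_bar_eq (w := w) (by linarith) hw2 h3 h4
    · -- inner Y, middle X
      simp only [dS, Set.mem_ofPred_eq] at hs
      refine ⟨Sum.inl (Sum.inr (b, k)), Sum.inr (Sum.inl k'), rfl, rfl, ?_⟩
      have hd := dpos_bd k.2
      rcases hs with hs | hs
      · have hs' : (k'.1 : ℝ) = k.1 := by exact_mod_cast hs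
        apply vis_of_clear (a := dpos K k.1) (b := (k.1 : ℝ) + 1) hd.2
        · constructor
          · exact le_of_eq rfl
          · show (k.1 : ℝ) + 1 ≤ dpos K k.1 + 1
            linarith
        · simp only [dx]; constructor <;> linarith
        · intro w hw1 hw2
          apply clear_inner_mid
          · intro j h3 h4
            rw [hs]
            exact int_bar_eq (w := w) (by linarith) hw2 h3 h4
          · intro j h3 h4
            exact drift_bar_eq (w := w) hw1 (by linarith) h3 h4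
      · have hs' : (k'.1 : ℝ) = k.1 + 1 := by exact_mod_cast hs
        apply vis_of_clear (a := (k.1 : ℝ) + 1) (b := dpos K k.1 + 1) (by linarith)
        · constructor
          · show dpos K k.1 ≤ (k.1 : ℝ) + 1
            linarith
          · exact le_of_eq rfl
        · simp only [dx]; constructor <;> linarith
        · intro w hw1 hw2
          apply clear_inner_mid
          · intro j h3 h4
            exact int_bar_eq (w := w) (by linarith) (by linarith) h3 h4
          · intro j h3 h4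
            exact drift_bar_eq (w := w) (by linarith) hw2 h3 h4
    · -- inner Y, outer X
      simp only [dS, Set.mem_ofPred_eq] at hs
      rw [← hs]
      refine ⟨Sum.inl (Sum.inr (b, k)), Sum.inr (Sum.inr (b, k)), rfl, rfl, ?_⟩
      apply vis_of_clear (a := dpos K k.1) (b := dpos K k.1 + 1) (by linarith)
      · exact ⟨le_of_eq rfl, le_of_eq rfl⟩
      · exact ⟨le_of_eq rfl, le_of_eq rfl⟩
      · intro w hw1 hw2
        apply clear_inner_outer
        intro j h3 h4
        exact drift_bar_eq (w := w) hw1 hw2 h3 h4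

end Pool.Agent.Helper62
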