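import Mathlib
import Pool.Agent.Helper62.UBRealiz
import Pool.Agent.Helper62.UBWall
import Pool.Agent.Helper62.UBDrift2

/-!
Labelled patterns obtained from the wall and the drifting pattern.
-/

set_option linter.unusedSectionVars false

namespace Pool.Agent.Helper62

open Finset

theorem sum_one_le {α β : Type} [Fintype α] (P : α → Prop) [DecidablePred P]
    (T : Finset β) (key : α → β) (h1 : ∀ a, P a → key a ∈ T)
    (h2 : ∀ a b, P a → P b → key a = key b → a = b) :
    ∑ _a ∈ univ.filter P, 1 ≤ T.card := by
  classical
  rw [← Finset.card_eq_sum_ones]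
  apply Finset.card_le_card_of_injOn key
  · intro a ha
    rw [Finset.coe_filter, Set.mem_ofPred_eq] at ha
    exact h1 a ha.2
  · intro a ha b hb hab
    rw [Finset.coe_filter, Set.mem_ofPred_eq] at ha hb
    exact h2 a b ha.2 hb.2 hab

/-- one bar over another -/
theorem Realiz.single : Realiz Unit Unit (fun _ => 1) (fun _ => 1) Set.univ := by
  refine ⟨Bool, inferInstance, fun _ => 0, fun b => if b then 1 else 0,
    fun b => if b then Sum.inl () else Sum.inr (), ?_, ?_, ?_, ?_, ?_⟩
  · intro i j hij hy
    cases i <;> cases j <;> simp_all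
  · intro i j hij _
    cases i <;> cases j <;> simp_all
  · intro p F hF
    refine (Finset.card_le_card (t := {true}) ?_).trans (by simp)
    intro i hi
    have := hF i hi
    cases i <;> simp_all
  · intro p F hF
    refine (Finset.card_le_card (t := {false}) ?_).trans (by simp)
    intro i hi
    have := hF i hi
    cases i <;> simp_all
  · intro s _
    refine ⟨true, false, by simp, by simp, 0, 1, by norm_num, le_rfl, by norm_num, le_rfl,
      by norm_num, ?_⟩
    intro k hk1 hk2
    cases k <;> simp_all

theorem Realiz.trivial_bound (m n : ℕ) :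
    Realiz (Fin m) (Fin n) (fun _ => n) (fun _ => m) Set.univ := by
  classical
  have h := Realiz.union (κ := Fin m × Fin n) (P := Fin m) (Q := Fin n)
    (fun k p => if k.1 = p then 1 else 0) (fun k q => if k.2 = q then 1 else 0)
    (fun k => {k}) (by
      intro k
      refine Realiz.single.map (fun _ => k.1) (fun _ => k.2) ?_ ?_ ?_
      · intro p'
        by_cases h : k.1 = p' <;> simp [h]
      · intro q'
        by_cases h : k.2 = q' <;> simp [h]
      · intro s' hs'
        rw [Set.mem_singleton_iff] at hs'
        exact ⟨((), ()), trivial, by rw [hs'], by rw [hs']⟩)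
  refine h.mono ?_ ?_ ?_
  · intro p
    rw [Fintype.sum_prod_type]
    have : ∀ x : Fin m, ∑ _y : Fin n, (if x = p then 1 else 0) = if x = p then n else 0 := by
      intro x; split_ifs <;> simp
    simp only [this]
    simp
  · intro q
    rw [Fintype.sum_prod_type]
    simp
  · intro s _
    rw [Set.mem_iUnion]
    exact ⟨s, rfl⟩

theorem aux1 {y t : ℕ} (h1 : t % 2 = y % 2) (h2 : y % 4 < 2) : 4 * (y / 4) + t % 2 = y := by
  omega

theorem aux2 {y t : ℕ} (h1 : t % 2 = y % 2) (h2 : ¬ y % 4 < 2) :
    4 * (y / 4) + 2 + t % 2 = y := by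
  omega

/-- even number of labels on one side, from a wall of height one -/
theorem pat_even (m w : ℕ) (hm : 0 < m) (hw : 0 < w) :
    Realiz (Fin m) (Fin (2 * w)) (fun _ => 14 * w) (fun _ => (m + 3) / 4 + 1) Set.univ := by
  classical
  set K := (m + 3) / 4 with hK
  have hw2 : 0 < 2 * w := by omega
  let rl : ℕ → ℕ → ℕ := fun r c =>
    if r = 1 then 4 * (c / (2 * w)) + (c % (2 * w)) % 2
    else 4 * ((c - 2) / (2 * w)) + 2 + ((c - 2) % (2 * w)) % 2
  have h := wall 1 (2 * w * K)
  refine h.map (fun p => ⟨if rl p.1.1 p.2.1 < m then rl p.1.1 p.2.1 else 0, by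
    split_ifs with h
    · exact h
    · exact hm⟩) (fun p => ⟨p.2.1 % (2 * w), Nat.mod_lt _ hw2⟩) ?_ ?_ ?_
  · intro y
    have hc : 14 * w = (range 7 ×ˢ range (2 * w)).card := by
      rw [Finset.card_product, Finset.card_range, Finset.card_range]; ring
    rw [hc]
    apply sum_one_le _ _ (fun p : Fin (1+1) × Fin (2 * w * K + 2) =>
      if p.1.1 = 0 ∧ p.2.1 < 2 then ((6, p.2.1) : ℕ × ℕ)
      else (if rl p.1.1 p.2.1 < m then 0 else rl p.1.1 p.2.1 - m + 1,
        (if p.1.1 = 1 then p.2.1 else p.2.1 - 2) % (2 * w)))
    · rintro ⟨⟨r, hr⟩, ⟨c, hcc⟩⟩ _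
      simp only
      have hk : ∀ c', c' < 2 * w * K + 2 → c' / (2 * w) ≤ K := by
        intro c' hc'
        apply Nat.le_of_lt_succ
        rw [Nat.div_lt_iff_lt_mul hw2]
        have : (K + 1) * (2 * w) = 2 * w * K + 2 * w := by ring
        show c' < (K + 1) * (2 * w)
        omega
      have hk' : ∀ c', c' < 2 * w * K → c' / (2 * w) < K := by
        intro c' hc'
        rw [Nat.div_lt_iff_lt_mul hw2]
        have : K * (2 * w) = 2 * w * K := by ring
        omega
      have hKpos : 0 < 2 * w * K := Nat.mul_pos hw2 (by omega)
      split_ifs with h1 h2 h3 h4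
      · rw [Finset.mem_product, Finset.mem_range, Finset.mem_range]
        exact ⟨by norm_num, by show c < 2 * w; omega⟩
      · rw [Finset.mem_product, Finset.mem_range, Finset.mem_range]
        exact ⟨by norm_num, Nat.mod_lt _ hw2⟩
      · rw [Finset.mem_product, Finset.mem_range, Finset.mem_range]
        exact ⟨by norm_num, Nat.mod_lt _ hw2⟩
      · rw [Finset.mem_product, Finset.mem_range, Finset.mem_range]
        refine ⟨?_, Nat.mod_lt _ hw2⟩
        show rl r c - m + 1 < 7
        have := hk c hcc
        simp only [rl, if_pos h4]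
        omega
      · rw [Finset.mem_product, Finset.mem_range, Finset.mem_range]
        refine ⟨?_, Nat.mod_lt _ hw2⟩
        show rl r c - m + 1 < 7
        have := hk' (c - 2) (by omega)
        simp only [rl, if_neg h4]
        omega
    · rintro ⟨⟨r, hr⟩, ⟨c, hcc⟩⟩ ⟨⟨r', hr'⟩, ⟨c', hcc'⟩⟩ hp hp' hkey
      simp only [Fin.mk.injEq, Fin.ext_iff] at hp hp' hkey ⊢
      rw [Prod.mk.injEq, Fin.mk.injEq, Fin.mk.injEq]
      have hr01 : r = 0 ∨ r = 1 := by omega
      have hr01' : r' = 0 ∨ r' = 1 := by omega
      have hkb : ∀ c', c' < 2 * w * K + 2 → c' / (2 * w) ≤ K := by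
        intro c' hc'
        apply Nat.le_of_lt_succ
        rw [Nat.div_lt_iff_lt_mul hw2]
        have : (K + 1) * (2 * w) = 2 * w * K + 2 * w := by ring
        show c' < (K + 1) * (2 * w)
        omega
      have hk1 := hkb c hcc
      have hk2 := hkb c' hcc'
      have hkb' : ∀ c', c' < 2 * w * K → c' / (2 * w) < K := by
        intro c' hc'
        rw [Nat.div_lt_iff_lt_mul hw2]
        have : K * (2 * w) = 2 * w * K := by ring
        omega
      have hKpos : 0 < 2 * w * K := Nat.mul_pos hw2 (by omega)
      have hk3 := hkb' (c - 2) (by omega)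
      have hk4 := hkb' (c' - 2) (by omega)
      have d1 := Nat.div_add_mod c (2 * w)
      have d2 := Nat.div_add_mod c' (2 * w)
      have d3 := Nat.div_add_mod (c - 2) (2 * w)
      have d4 := Nat.div_add_mod (c' - 2) (2 * w)
      simp only [rl] at hp hp' hkey
      by_cases e1 : r = 0 ∧ c < 2
      · rw [if_pos e1] at hkey
        by_cases e2 : r' = 0 ∧ c' < 2
        · rw [if_pos e2] at hkey
          rw [Prod.mk.injEq] at hkey
          exact ⟨by omega, hkey.2⟩
        · rw [if_neg e2] at hkey
          rw [Prod.mk.injEq] at hkey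
          exfalso
          rcases hr01' with q | q
          · have q' : ¬ r' = 1 := by omega
            simp only [if_neg q'] at hkey
            have := hkey.1
            split_ifs at this <;> omega
          · simp only [if_pos q] at hkey
            have := hkey.1
            split_ifs at this <;> omega
      · rw [if_neg e1] at hkey
        by_cases e2 : r' = 0 ∧ c' < 2
        · rw [if_pos e2] at hkey
          rw [Prod.mk.injEq] at hkey
          exfalso
          rcases hr01 with q | q
          · have q' : ¬ r = 1 := by omega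
            simp only [if_neg q'] at hkey
            have := hkey.1
            split_ifs at this <;> omega
          · simp only [if_pos q] at hkey
            have := hkey.1
            split_ifs at this <;> omega
        · rw [if_neg e2] at hkey
          rw [Prod.mk.injEq] at hkey
          obtain ⟨k1, k2⟩ := hkey
          rcases hr01 with q | q <;> rcases hr01' with q' | q'
          · have q1 : ¬ r = 1 := by omega
            have q2 : ¬ r' = 1 := by omega
            simp only [if_neg q1, if_neg q2] at hp hp' k1 k2
            have : (c - 2) / (2 * w) = (c' - 2) / (2 * w) := by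
              rw [k2] at k1 hp
              split_ifs at k1 hp hp' <;> omega
            rw [this, k2] at d3
            omega
          · have q1 : ¬ r = 1 := by omega
            simp only [if_neg q1, if_pos q'] at hp hp' k1 k2
            exfalso
            rw [k2] at k1 hp
            split_ifs at k1 hp hp' <;> omega
          · have q1 : ¬ r' = 1 := by omega
            simp only [if_neg q1, if_pos q] at hp hp' k1 k2
            exfalso
            rw [k2] at k1 hp
            split_ifs at k1 hp hp' <;> omega
          · simp only [if_pos q, if_pos q'] at hp hp' k1 k2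
            have : c / (2 * w) = c' / (2 * w) := by
              rw [k2] at k1 hp
              split_ifs at k1 hp hp' <;> omega
            rw [this, k2] at d1
            omega
  · intro x
    have hc : K + 1 = (range (K + 1)).card := by rw [Finset.card_range]
    rw [hc]
    apply sum_one_le _ _ (fun p : Fin 1 × Fin (2 * w * K + 1) => p.2.1 / (2 * w))
    · rintro ⟨r, ⟨c, hcc⟩⟩ _
      rw [Finset.mem_range]
      show c / (2 * w) < K + 1
      rw [Nat.div_lt_iff_lt_mul hw2]
      have : (K + 1) * (2 * w) = 2 * w * K + 2 * w := by ring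
      omega
    · rintro ⟨r, ⟨c, hcc⟩⟩ ⟨r', ⟨c', hcc'⟩⟩ hp hp' hkey
      simp only [Fin.ext_iff] at hp hp' hkey
      have d1 := Nat.div_add_mod c (2 * w)
      have d2 := Nat.div_add_mod c' (2 * w)
      rw [hkey, hp] at d1
      rw [hp'] at d2
      rw [Prod.mk.injEq]
      exact ⟨Subsingleton.elim _ _, Fin.ext (by show c = c'; omega)⟩
  · rintro ⟨y, x⟩ _
    -- find the offset
    have hex : ∃ t δ : ℕ, t < 2 * w ∧ t % 2 = y.1 % 2 ∧ (δ = 0 ∨ δ = 1) ∧
        (t + δ) % (2 * w) = x.1 := by
      have hx := x.2
      by_cases hb : x.1 % 2 = y.1 % 2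
      · exact ⟨x.1, 0, hx, hb, Or.inl rfl, by rw [add_zero, Nat.mod_eq_of_lt hx]⟩
      · by_cases hx0 : x.1 = 0
        · refine ⟨2 * w - 1, 1, by omega, by omega, Or.inr rfl, ?_⟩
          have : 2 * w - 1 + 1 = 2 * w := by omega
          rw [this, Nat.mod_self, hx0]
        · refine ⟨x.1 - 1, 1, by omega, by omega, Or.inr rfl, ?_⟩
          have : x.1 - 1 + 1 = x.1 := by omega
          rw [this, Nat.mod_eq_of_lt hx]
    obtain ⟨t, δ, ht, htp, hδ, hx⟩ := hex
    have hkK : y.1 / 4 < K := by
      have := y.2
      omega
    have hL : 2 * w * (y.1 / 4) + 2 * w ≤ 2 * w * K := by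
      have : 2 * w * (y.1 / 4) + 2 * w = 2 * w * (y.1 / 4 + 1) := by ring
      rw [this]
      exact Nat.mul_le_mul_left _ hkK
    have hmod : ∀ t', (2 * w * (y.1 / 4) + t') % (2 * w) = t' % (2 * w) := by
      intro t'
      rw [Nat.mul_add_mod]
    have hdiv : (2 * w * (y.1 / 4) + t) / (2 * w) = y.1 / 4 := by
      rw [Nat.mul_add_div hw2, Nat.div_eq_of_lt ht, add_zero]
    have hmt : t % (2 * w) = t := Nat.mod_eq_of_lt ht
    have hy := y.2
    by_cases hside : y.1 % 4 < 2
    · refine ⟨((⟨1, by omega⟩, ⟨2 * w * (y.1 / 4) + t, by omega⟩),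
        (⟨0, by omega⟩, ⟨2 * w * (y.1 / 4) + t + δ, by omega⟩)), ?_, ?_, ?_⟩
      · rw [Set.mem_ofPred_eq]
        constructor
        · first
            | exact Or.inl rfl
            | exact Or.inr rfl
        · rcases hδ with rfl | rfl
          · left
            show (_ : ℕ) = _
            simp only
            omega
          · right
            simp only
            omega
      · apply Fin.ext
        simp only [rl]
        have : 4 * (y.1 / 4) + (t % 2) = y.1 := aux1 htp hside
        simp only [if_true, hmod, hdiv, hmt, this, if_pos hy]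
      · apply Fin.ext
        simp only
        rw [add_assoc, hmod, hx]
    · refine ⟨((⟨0, by omega⟩, ⟨2 * w * (y.1 / 4) + t + 2, by omega⟩),
        (⟨0, by omega⟩, ⟨2 * w * (y.1 / 4) + t + δ, by omega⟩)), ?_, ?_, ?_⟩
      · rw [Set.mem_ofPred_eq]
        constructor
        · first
            | exact Or.inl rfl
            | exact Or.inr rfl
        · rcases hδ with rfl | rfl
          · left
            show (_ : ℕ) = _
            simp only
            omega
          · right
            simp only
            omega
      · apply Fin.ext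
        simp only [rl]
        have : 4 * (y.1 / 4) + 2 + (t % 2) = y.1 := aux2 htp hside
        simp only [Nat.add_sub_cancel, hmod, hdiv, hmt, this, if_pos hy]
        simp
      · apply Fin.ext
        simp only
        rw [add_assoc, hmod, hx]

end Pool.Agent.Helper62
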