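import Mathlib
import Pool.Agent.Helper62.UBPats

/-!
Labelled patterns obtained from the drifting pattern (three labels on one side).
-/

set_option linter.unusedSectionVars false

namespace Pool.Agent.Helper62

open Finset

/-- the value of a `Y` bar of the drifting pattern -/
def dval (K : ℕ) : DY K → ℕ
  | Sum.inr p => 4 * p.2.1 + (if p.1 then 0 else 1)
  | Sum.inl p => 4 * p.2.1 + (if p.1 then 2 else 3)

theorem dval_inj (K : ℕ) : Function.Injective (dval K) := by
  intro a b hab
  rcases a with ⟨b1, k1⟩ | ⟨b1, k1⟩ <;> rcases b with ⟨b2, k2⟩ | ⟨b2, k2⟩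
  · cases b1 <;> cases b2 <;> simp only [dval] at hab <;> simp at hab
    · have : k1 = k2 := Fin.ext (by omega)
      rw [this]
    · exfalso; omega
    · exfalso; omega
    · have : k1 = k2 := Fin.ext (by omega)
      rw [this]
  · cases b1 <;> cases b2 <;> simp only [dval] at hab <;> simp at hab <;> exfalso <;> omega
  · cases b1 <;> cases b2 <;> simp only [dval] at hab <;> simp at hab <;> exfalso <;> omega
  · cases b1 <;> cases b2 <;> simp only [dval] at hab <;> simp at hab
    · have : k1 = k2 := Fin.ext (by omega)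
      rw [this]
    · exfalso; omega
    · exfalso; omega
    · have : k1 = k2 := Fin.ext (by omega)
      rw [this]

theorem dval_lt (K : ℕ) (a : DY K) : dval K a < 4 * K + 4 := by
  rcases a with ⟨b1, k1⟩ | ⟨b1, k1⟩
  · have := k1.2
    cases b1 <;> simp only [dval] <;> simp <;> omega
  · have := k1.2
    cases b1 <;> simp only [dval] <;> simp <;> omega

/-- the value of an `X` bar -/
def dxv (K : ℕ) : DX K → ℕ
  | Sum.inl k => k.1
  | Sum.inr p => p.2.1 + 2

def dxk (K : ℕ) : DX K → ℕ × ℕ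
  | Sum.inl k => (0, k.1 / 3)
  | Sum.inr p => (if p.1 then 1 else 2, (p.2.1 + 2) / 3)

theorem pat_three (m : ℕ) (hm : 0 < m) :
    Realiz (Fin m) (Fin 3) (fun _ => 12) (fun _ => (m + 3) / 4 + 6) Set.univ := by
  classical
  set K := (m + 3) / 4 + 1 with hK
  have h := drift K
  refine h.map (fun p => ⟨if 4 ≤ dval K p ∧ dval K p < m + 4 then dval K p - 4 else 0, by
    split_ifs with h
    · omega
    · exact hm⟩) (fun p => ⟨dxv K p % 3, Nat.mod_lt _ (by norm_num)⟩) ?_ ?_ ?_
  · intro y
    have hc : 12 = (range 12).card := by rw [Finset.card_range]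
    rw [hc]
    apply sum_one_le _ _ (fun p : DY K => if 4 ≤ dval K p ∧ dval K p < m + 4 then 0
      else if dval K p < 4 then 1 + dval K p else 5 + (dval K p - m - 4))
    · intro a _
      rw [Finset.mem_range]
      have := dval_lt K a
      split_ifs <;> omega
    · intro a b ha hb hab
      apply dval_inj K
      simp only [Fin.ext_iff] at ha hb
      have := y.2
      split_ifs at ha hb hab <;> omega
  · intro x
    have hc : (m + 3) / 4 + 6 ≥ (range 3 ×ˢ range ((K + 1) / 3 + 1)).card := by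
      rw [Finset.card_product, Finset.card_range, Finset.card_range]; omega
    refine le_trans ?_ hc
    apply sum_one_le _ _ (dxk K)
    · rintro (k | ⟨b, k⟩) _
      · rw [Finset.mem_product, Finset.mem_range, Finset.mem_range]
        have := k.2
        exact ⟨by simp [dxk], by simp only [dxk]; omega⟩
      · rw [Finset.mem_product, Finset.mem_range, Finset.mem_range]
        have := k.2
        exact ⟨by simp only [dxk]; split_ifs <;> norm_num, by simp only [dxk]; omega⟩
    · intro a b ha hb hab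
      simp only [Fin.ext_iff] at ha hb
      rcases a with k1 | ⟨b1, k1⟩ <;> rcases b with k2 | ⟨b2, k2⟩
      · simp only [dxv, dxk, Prod.mk.injEq] at ha hb hab
        rw [Sum.inl.injEq]
        exact Fin.ext (by omega)
      · simp only [dxk, Prod.mk.injEq] at hab
        exfalso
        have := hab.1
        split_ifs at this
      · simp only [dxk, Prod.mk.injEq] at hab
        exfalso
        have := hab.1
        split_ifs at this
      · simp only [dxv, dxk, Prod.mk.injEq] at ha hb hab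
        rw [Sum.inr.injEq, Prod.mk.injEq]
        refine ⟨?_, Fin.ext (by omega)⟩
        have := hab.1
        cases b1 <;> cases b2 <;> simp_all
  · rintro ⟨y, x⟩ _
    have hy := y.2
    have hx := x.2
    have hk1 : 1 ≤ (y.1 + 4) / 4 := by omega
    have hk2 : (y.1 + 4) / 4 < K := by omega
    -- residues
    by_cases hin : (y.1 + 4) % 4 < 2
    · -- inner bar
      let b : Bool := decide ((y.1 + 4) % 4 = 0)
      have hval : dval K (Sum.inr (b, ⟨(y.1 + 4) / 4, hk2⟩)) = y.1 + 4 := by
        simp only [dval, b]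
        split_ifs with h1
        · rw [decide_eq_true_eq] at h1
          omega
        · rw [decide_eq_true_eq] at h1
          omega
      have hf : (⟨if 4 ≤ dval K (Sum.inr (b, ⟨(y.1 + 4) / 4, hk2⟩)) ∧
          dval K (Sum.inr (b, ⟨(y.1 + 4) / 4, hk2⟩)) < m + 4 then
          dval K (Sum.inr (b, ⟨(y.1 + 4) / 4, hk2⟩)) - 4 else 0, by
          rw [hval]; split_ifs <;> omega⟩ : Fin m) = y := by
        apply Fin.ext
        simp only [hval]
        rw [if_pos ⟨by omega, by omega⟩]
        omega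
      have hres : ((y.1 + 4) / 4) % 3 = x.1 ∨ ((y.1 + 4) / 4 + 1) % 3 = x.1 ∨
        ((y.1 + 4) / 4 + 2) % 3 = x.1 := by omega
      rcases hres with hr | hr | hr
      · exact ⟨(Sum.inr (b, ⟨(y.1 + 4) / 4, hk2⟩), Sum.inl ⟨(y.1 + 4) / 4, by omega⟩),
          Or.inl rfl, hf, Fin.ext hr⟩
      · exact ⟨(Sum.inr (b, ⟨(y.1 + 4) / 4, hk2⟩), Sum.inl ⟨(y.1 + 4) / 4 + 1, by omega⟩),
          Or.inr rfl, hf, Fin.ext hr⟩
      · exact ⟨(Sum.inr (b, ⟨(y.1 + 4) / 4, hk2⟩), Sum.inr (b, ⟨(y.1 + 4) / 4, hk2⟩)),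
          rfl, hf, Fin.ext hr⟩
    · let b : Bool := decide ((y.1 + 4) % 4 = 2)
      have hk3 : (y.1 + 4) / 4 < K + 1 := by omega
      have hval : dval K (Sum.inl (b, ⟨(y.1 + 4) / 4, hk3⟩)) = y.1 + 4 := by
        simp only [dval, b]
        split_ifs with h1
        · rw [decide_eq_true_eq] at h1
          omega
        · rw [decide_eq_true_eq] at h1
          omega
      have hf : (⟨if 4 ≤ dval K (Sum.inl (b, ⟨(y.1 + 4) / 4, hk3⟩)) ∧
          dval K (Sum.inl (b, ⟨(y.1 + 4) / 4, hk3⟩)) < m + 4 then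
          dval K (Sum.inl (b, ⟨(y.1 + 4) / 4, hk3⟩)) - 4 else 0, by
          rw [hval]; split_ifs <;> omega⟩ : Fin m) = y := by
        apply Fin.ext
        simp only [hval]
        rw [if_pos ⟨by omega, by omega⟩]
        omega
      have hres : ((y.1 + 4) / 4) % 3 = x.1 ∨ ((y.1 + 4) / 4 - 1 + 2) % 3 = x.1 ∨
        ((y.1 + 4) / 4 + 2) % 3 = x.1 := by omega
      rcases hres with hr | hr | hr
      · exact ⟨(Sum.inl (b, ⟨(y.1 + 4) / 4, hk3⟩), Sum.inl ⟨(y.1 + 4) / 4, hk3⟩),
          rfl, hf, Fin.ext hr⟩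
      · refine ⟨(Sum.inl (b, ⟨(y.1 + 4) / 4, hk3⟩), Sum.inr (b, ⟨(y.1 + 4) / 4 - 1, by omega⟩)),
          ⟨rfl, Or.inr ?_⟩, hf, Fin.ext hr⟩
        show (y.1 + 4) / 4 = (y.1 + 4) / 4 - 1 + 1
        omega
      · exact ⟨(Sum.inl (b, ⟨(y.1 + 4) / 4, hk3⟩), Sum.inr (b, ⟨(y.1 + 4) / 4, hk2⟩)),
          ⟨rfl, Or.inl rfl⟩, hf, Fin.ext hr⟩

end Pool.Agent.Helper62
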