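import Mathlib
import Pool.Agent.Helper62.UBPats2

/-!
Square patterns from walls of odd height, and their block products.
-/

set_option linter.unusedSectionVars false

namespace Pool.Agent.Helper62

open Finset

theorem mod_eq_sub {a b g : ℕ} (hab : a ≤ b) (h : a % g = b % g) : g ∣ b - a :=
  (Nat.modEq_iff_dvd' hab).mp h

/-- residues of an interval of length `g` are distinct -/
theorem mod_inj_of_lt {a c c' g : ℕ} (hc : c < g) (hc' : c' < g)
    (h : (a + c) % g = (a + c') % g) : c = c' := by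
  have := Nat.ModEq.add_left_cancel' a h
  have h2 : c % g = c' % g := this
  rwa [Nat.mod_eq_of_lt hc, Nat.mod_eq_of_lt hc'] at h2

theorem mod_inj_of_lt' {a c c' g : ℕ} (hc : c < g) (hc' : c' < g)
    (h : (c + a) % g = (c' + a) % g) : c = c' := by
  rw [Nat.add_comm c, Nat.add_comm c'] at h
  exact mod_inj_of_lt hc hc' h

/-- a wall of odd height `h` gives a complete pattern on `4h + 4h` labels -/
theorem pat_square (h : ℕ) (hodd : h % 2 = 1) :
    Realiz (Fin (4 * h)) (Fin (4 * h)) (fun _ => h + 5) (fun _ => h + 1) Set.univ := by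
  classical
  have hpos : 0 < h := by omega
  have hg : 0 < 4 * h := by omega
  have H := wall h (4 * h)
  refine H.map (fun p => ⟨(4 * p.1.1 + p.2.1) % (4 * h), Nat.mod_lt _ hg⟩)
    (fun p => ⟨(8 * p.1.1 + p.2.1 + 5) % (4 * h), Nat.mod_lt _ hg⟩) ?_ ?_ ?_
  · intro y
    have hc : h + 5 = (range (h + 5)).card := by rw [Finset.card_range]
    rw [hc]
    apply sum_one_le _ _ (fun p : Fin (h + 1) × Fin (4 * h + 2) =>
      if p.2.1 < 4 * h then p.1.1 else
        (if p.2.1 = 4 * h then h + 1 + (if p.1.1 < h then 0 else 1)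
        else h + 3 + (if p.1.1 < h then 0 else 1)))
    · rintro ⟨⟨s, hs⟩, ⟨c, hcc⟩⟩ _
      rw [Finset.mem_range]
      simp only
      split_ifs <;> omega
    · rintro ⟨⟨s, hs⟩, ⟨c, hcc⟩⟩ ⟨⟨s', hs'⟩, ⟨c', hcc'⟩⟩ hp hp' hkey
      simp only [Fin.ext_iff] at hp hp' hkey
      have hmod : (4 * s + c) % (4 * h) = (4 * s' + c') % (4 * h) := by rw [hp, hp']
      rw [Prod.mk.injEq, Fin.mk.injEq, Fin.mk.injEq]
      have key2 : ∀ s1 s2 c0 : ℕ, s1 < h + 1 → s2 < h + 1 → (s1 < h ↔ s2 < h) →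
          (4 * s1 + c0) % (4 * h) = (4 * s2 + c0) % (4 * h) → s1 = s2 := by
        intro s1 s2 c0 h1 h2 h3 h4
        have h5 : (4 * s1) % (4 * h) = (4 * s2) % (4 * h) := Nat.ModEq.add_right_cancel' c0 h4
        rw [Nat.mul_mod_mul_left, Nat.mul_mod_mul_left] at h5
        by_cases h6 : s1 < h
        · have h7 := h3.mp h6
          rw [Nat.mod_eq_of_lt h6, Nat.mod_eq_of_lt h7] at h5
          omega
        · have h7 : ¬ s2 < h := fun q => h6 (h3.mpr q)
          omega
      by_cases e1 : c < 4 * h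
      · rw [if_pos e1] at hkey
        by_cases e2 : c' < 4 * h
        · rw [if_pos e2] at hkey
          subst hkey
          exact ⟨rfl, mod_inj_of_lt e1 e2 hmod⟩
        · exfalso
          rw [if_neg e2] at hkey
          split_ifs at hkey <;> omega
      · rw [if_neg e1] at hkey
        by_cases e2 : c' < 4 * h
        · exfalso
          rw [if_pos e2] at hkey
          split_ifs at hkey <;> omega
        · rw [if_neg e2] at hkey
          by_cases e3 : c = 4 * h
          · rw [if_pos e3] at hkey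
            by_cases e4 : c' = 4 * h
            · rw [if_pos e4] at hkey
              refine ⟨key2 s s' c hs hs' ?_ (by rw [hmod, e3, e4]), by omega⟩
              split_ifs at hkey <;> omega
            · exfalso
              rw [if_neg e4] at hkey
              split_ifs at hkey <;> omega
          · rw [if_neg e3] at hkey
            by_cases e4 : c' = 4 * h
            · exfalso
              rw [if_pos e4] at hkey
              split_ifs at hkey <;> omega
            · rw [if_neg e4] at hkey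
              have e5 : c = c' := by omega
              refine ⟨key2 s s' c hs hs' ?_ (by rw [hmod, e5]), e5⟩
              split_ifs at hkey <;> omega
  · intro x
    have hc : h + 1 = (range (h + 1)).card := by rw [Finset.card_range]
    rw [hc]
    apply sum_one_le _ _ (fun p : Fin h × Fin (4 * h + 1) =>
      if p.2.1 < 4 * h then p.1.1 else h)
    · rintro ⟨⟨r, hr⟩, ⟨c, hcc⟩⟩ _
      rw [Finset.mem_range]
      simp only
      split_ifs <;> omega
    · rintro ⟨⟨r, hr⟩, ⟨c, hcc⟩⟩ ⟨⟨r', hr'⟩, ⟨c', hcc'⟩⟩ hp hp' hkey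
      simp only [Fin.ext_iff] at hp hp' hkey
      have hmod : (8 * r + c + 5) % (4 * h) = (8 * r' + c' + 5) % (4 * h) := by rw [hp, hp']
      have hmod2 : (8 * r + c) % (4 * h) = (8 * r' + c') % (4 * h) :=
        Nat.ModEq.add_right_cancel' 5 hmod
      rw [Prod.mk.injEq, Fin.mk.injEq, Fin.mk.injEq]
      by_cases e1 : c < 4 * h
      · rw [if_pos e1] at hkey
        by_cases e2 : c' < 4 * h
        · rw [if_pos e2] at hkey
          subst hkey
          exact ⟨rfl, mod_inj_of_lt e1 e2 hmod2⟩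
        · exfalso
          rw [if_neg e2] at hkey
          omega
      · rw [if_neg e1] at hkey
        by_cases e2 : c' < 4 * h
        · exfalso
          rw [if_pos e2] at hkey
          omega
        · have e3 : c = c' := by omega
          refine ⟨?_, e3⟩
          rw [e3] at hmod2
          have h5 : (8 * r) % (4 * h) = (8 * r') % (4 * h) := Nat.ModEq.add_right_cancel' c' hmod2
          have h6 : (4 * (2 * r)) % (4 * h) = (4 * (2 * r')) % (4 * h) := by
            rw [← mul_assoc, ← mul_assoc]; exact h5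
          rw [Nat.mul_mod_mul_left, Nat.mul_mod_mul_left] at h6
          have h7 : 2 * r ≡ 2 * r' [MOD h] := Nat.eq_of_mul_eq_mul_left (by norm_num) h6
          have h8 : r ≡ r' [MOD h] := by
            apply Nat.ModEq.cancel_left_of_coprime _ h7
            have : Nat.Coprime h 2 := by
              rw [Nat.coprime_comm, Nat.coprime_two_left, Nat.odd_iff]; exact hodd
            exact this
          have h9 : r % h = r' % h := h8
          rwa [Nat.mod_eq_of_lt hr, Nat.mod_eq_of_lt hr'] at h9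
  · rintro ⟨y, x⟩ _
    have hy := y.2
    have hx := x.2
    obtain ⟨D, hDlt, hD⟩ : ∃ D, D < 4 * h ∧ x.1 + 4 * h ≡ y.1 + D + 1 [MOD 4 * h] := by
      refine ⟨(x.1 + 4 * h - y.1 - 1) % (4 * h), Nat.mod_lt _ hg, ?_⟩
      have h1 : (x.1 + 4 * h - y.1 - 1) % (4 * h) ≡ x.1 + 4 * h - y.1 - 1 [MOD 4 * h] :=
        Nat.mod_modEq _ _
      have h2 := Nat.ModEq.add_left (y.1 + 1) h1
      have h3 : y.1 + 1 + (x.1 + 4 * h - y.1 - 1) = x.1 + 4 * h := by omega
      rw [h3] at h2
      have h4 : y.1 + (x.1 + 4 * h - y.1 - 1) % (4 * h) + 1 =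
        y.1 + 1 + (x.1 + 4 * h - y.1 - 1) % (4 * h) := by ring
      rw [h4]
      exact h2.symm
    have hr : D / 4 < h := by omega
    obtain ⟨c0, hc0, hc1⟩ : ∃ c0, c0 < 4 * h ∧ 8 * (D / 4) + c0 + 5 ≡ x.1 [MOD 4 * h] := by
      refine ⟨(x.1 + 8 * h - (8 * (D / 4) + 5)) % (4 * h), Nat.mod_lt _ hg, ?_⟩
      have h1 : (x.1 + 8 * h - (8 * (D / 4) + 5)) % (4 * h) ≡ x.1 + 8 * h - (8 * (D / 4) + 5)
        [MOD 4 * h] := Nat.mod_modEq _ _
      have h2 := Nat.ModEq.add_left (8 * (D / 4) + 5) h1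
      have h3 : 8 * (D / 4) + 5 + (x.1 + 8 * h - (8 * (D / 4) + 5)) = x.1 + 4 * h + 4 * h := by
        omega
      rw [h3] at h2
      have h4 : 8 * (D / 4) + (x.1 + 8 * h - (8 * (D / 4) + 5)) % (4 * h) + 5 =
        8 * (D / 4) + 5 + (x.1 + 8 * h - (8 * (D / 4) + 5)) % (4 * h) := by ring
      rw [h4]
      refine h2.trans ?_
      show (x.1 + 4 * h + 4 * h) % (4 * h) = x.1 % (4 * h)
      rw [Nat.add_mod_right, Nat.add_mod_right]
    have hxx : x.1 + 4 * h ≡ x.1 [MOD 4 * h] := Nat.add_mod_right _ _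
    -- the residue of the bar above or below
    have main : ∀ c A, 8 * (D / 4) + c + 5 ≡ x.1 [MOD 4 * h] → A + (D + 1) = 8 * (D / 4) + c + 5 →
        A % (4 * h) = y.1 := by
      intro c A h1 h2
      have h3 : A + (D + 1) ≡ y.1 + (D + 1) [MOD 4 * h] := by
        rw [h2]
        exact h1.trans (hxx.symm.trans hD)
      have h4 : A ≡ y.1 [MOD 4 * h] := Nat.ModEq.add_right_cancel' _ h3
      have h5 : A % (4 * h) = y.1 % (4 * h) := h4
      rwa [Nat.mod_eq_of_lt hy] at h5
    have hxres : ∀ c, 8 * (D / 4) + c + 5 ≡ x.1 [MOD 4 * h] →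
        (8 * (D / 4) + c + 5) % (4 * h) = x.1 := by
      intro c h1
      have h5 : (8 * (D / 4) + c + 5) % (4 * h) = x.1 % (4 * h) := h1
      rwa [Nat.mod_eq_of_lt hx] at h5
    have hcase : D % 4 = 0 ∨ D % 4 = 1 ∨ D % 4 = 2 ∨ D % 4 = 3 := by omega
    rcases hcase with hκ | hκ | hκ | hκ
    · refine ⟨((⟨D / 4 + 1, by omega⟩, ⟨c0, by omega⟩), (⟨D / 4, hr⟩, ⟨c0, by omega⟩)), ?_,
        Fin.ext (main c0 _ hc1 (by show 4 * (D / 4 + 1) + c0 + (D + 1) = _; omega)),
        Fin.ext (hxres c0 hc1)⟩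
      rw [Set.mem_ofPred_eq]
      refine ⟨Or.inr rfl, Or.inl ?_⟩
      simp only
      omega
    · -- shift the representative
      obtain ⟨c1, hc2, hc3, hc4⟩ : ∃ c1, 1 ≤ c1 ∧ c1 < 4 * h + 1 ∧
          8 * (D / 4) + c1 + 5 ≡ x.1 [MOD 4 * h] := by
        by_cases h0 : c0 = 0
        · refine ⟨4 * h, by omega, by omega, ?_⟩
          rw [h0] at hc1
          have h1 : 8 * (D / 4) + 4 * h + 5 = 8 * (D / 4) + 0 + 5 + 4 * h := by ring
          rw [h1]
          refine Nat.ModEq.trans ?_ hc1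
          exact Nat.add_mod_right _ _
        · exact ⟨c0, by omega, by omega, hc1⟩
      refine ⟨((⟨D / 4 + 1, by omega⟩, ⟨c1 - 1, by omega⟩), (⟨D / 4, hr⟩, ⟨c1, by omega⟩)), ?_,
        Fin.ext (main c1 _ hc4 (by show 4 * (D / 4 + 1) + (c1 - 1) + (D + 1) = _; omega)),
        Fin.ext (hxres c1 hc4)⟩
      rw [Set.mem_ofPred_eq]
      refine ⟨Or.inr rfl, Or.inr ?_⟩
      simp only
      omega
    · refine ⟨((⟨D / 4, by omega⟩, ⟨c0 + 2, by omega⟩), (⟨D / 4, hr⟩, ⟨c0, by omega⟩)), ?_,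
        Fin.ext (main c0 _ hc1 (by show 4 * (D / 4) + (c0 + 2) + (D + 1) = _; omega)),
        Fin.ext (hxres c0 hc1)⟩
      rw [Set.mem_ofPred_eq]
      refine ⟨Or.inl rfl, Or.inl ?_⟩
      simp only
      omega
    · refine ⟨((⟨D / 4, by omega⟩, ⟨c0 + 1, by omega⟩), (⟨D / 4, hr⟩, ⟨c0, by omega⟩)), ?_,
        Fin.ext (main c0 _ hc1 (by show 4 * (D / 4) + (c0 + 1) + (D + 1) = _; omega)),
        Fin.ext (hxres c0 hc1)⟩
      rw [Set.mem_ofPred_eq]
      refine ⟨Or.inl rfl, Or.inr ?_⟩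
      simp only
      omega

theorem sum_sum_filter {κ U : Type} [Fintype κ] [Fintype U] (P : κ → U → Prop)
    [∀ k u, Decidable (P k u)] (C N : ℕ)
    (h : ∑ _z ∈ univ.filter (fun z : κ × U => P z.1 z.2), 1 ≤ N) :
    ∑ k, ∑ _u ∈ univ.filter (P k), C ≤ N * C := by
  have h1 : ∑ k, ∑ _u ∈ univ.filter (P k), C =
      (∑ _z ∈ univ.filter (fun z : κ × U => P z.1 z.2), 1) * C := by
    rw [Finset.sum_mul, Finset.sum_filter, Fintype.sum_prod_type]
    apply Finset.sum_congr rfl
    intro k _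
    rw [Finset.sum_filter]
    simp only [one_mul]
  rw [h1]
  exact Nat.mul_le_mul_right _ h

theorem block_unique {g k k' u u' : ℕ} (hu : u < g) (hu' : u' < g) (h : k * g + u = k' * g + u') :
    k = k' ∧ u = u' := by
  have hg : 0 < g := by omega
  have h1 : (k * g + u) / g = k := by
    rw [mul_comm, Nat.mul_add_div hg, Nat.div_eq_of_lt hu, add_zero]
  have h2 : (k' * g + u') / g = k' := by
    rw [mul_comm, Nat.mul_add_div hg, Nat.div_eq_of_lt hu', add_zero]
  have h3 : k = k' := by rw [← h1, ← h2, h]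
  subst h3
  exact ⟨rfl, by omega⟩

theorem last_block {g k q m u : ℕ} (hu : u < g) (hq2 : (q - 1) * g < m) (hk : k < q)
    (h : ¬ k * g + u < m) : k = q - 1 := by
  by_contra hne
  have h1 : k + 1 ≤ q - 1 := by omega
  have h2 : (k + 1) * g ≤ (q - 1) * g := Nat.mul_le_mul_right _ h1
  have h3 : (k + 1) * g = k * g + g := by ring
  omega

/-- the counting part, for one of the two sides -/
theorem block_count (g m p q a : ℕ) (hm : 0 < m) (hq2 : (q - 1) * g < m)
    (ha : p * g ≤ a * m) (y : Fin m)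
    (β : Fin p × Fin q → Fin g → Fin m)
    (hβ : ∀ ik u, (β ik u).1 = if ik.2.1 * g + u.1 < m then ik.2.1 * g + u.1
      else (ik.1.1 * g + u.1) % m) :
    ∑ _z ∈ univ.filter (fun z : (Fin p × Fin q) × Fin g => β z.1 z.2 = y), 1 ≤ p + a := by
  classical
  have hc : p + a = (range (p + a)).card := by rw [Finset.card_range]
  rw [hc]
  apply sum_one_le _ _ (fun z : (Fin p × Fin q) × Fin g =>
    if z.1.2.1 * g + z.2.1 < m then z.1.1.1 else p + (z.1.1.1 * g + z.2.1) / m)
  · rintro ⟨⟨⟨i, hi⟩, ⟨k, hk⟩⟩, ⟨u, hu⟩⟩ _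
    rw [Finset.mem_range]
    simp only
    split_ifs with h1
    · omega
    · have h2 : i * g + u < a * m := by
        have h3 : (i + 1) * g ≤ p * g := Nat.mul_le_mul_right _ hi
        have h4 : (i + 1) * g = i * g + g := by ring
        omega
      have h3 : (i * g + u) / m < a := by
        rwa [Nat.div_lt_iff_lt_mul hm]
      omega
  · rintro ⟨⟨⟨i, hi⟩, ⟨k, hk⟩⟩, ⟨u, hu⟩⟩ ⟨⟨⟨i', hi'⟩, ⟨k', hk'⟩⟩, ⟨u', hu'⟩⟩ hz hz' hkey
    rw [Fin.ext_iff, hβ] at hz hz'
    simp only at hz hz' hkey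
    by_cases e1 : k * g + u < m
    · rw [if_pos e1] at hkey hz
      by_cases e2 : k' * g + u' < m
      · rw [if_pos e2] at hkey hz'
        obtain ⟨e3, e4⟩ := block_unique hu hu' (hz.trans hz'.symm)
        subst e3 e4 hkey
        rfl
      · exfalso
        rw [if_neg e2] at hkey
        generalize (i' * g + u') / m = D at hkey
        omega
    · rw [if_neg e1] at hkey hz
      by_cases e2 : k' * g + u' < m
      · exfalso
        rw [if_pos e2] at hkey
        generalize (i * g + u) / m = D at hkey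
        omega
      · rw [if_neg e2] at hkey hz'
        have hdiv : (i * g + u) / m = (i' * g + u') / m := by omega
        have hmod : (i * g + u) % m = (i' * g + u') % m := hz.trans hz'.symm
        have heq : i * g + u = i' * g + u' := by
          rw [← Nat.div_add_mod (i * g + u) m, ← Nat.div_add_mod (i' * g + u') m, hdiv, hmod]
        obtain ⟨e3, e4⟩ := block_unique hu hu' heq
        have e5 := last_block hu hq2 hk e1
        have e6 := last_block hu' hq2 hk' e2
        have e7 : k = k' := by rw [e5, e6]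
        subst e3 e4 e7
        rfl

/-- block products of the square pattern -/
theorem pat_blocks (h m n p q a b : ℕ) (hodd : h % 2 = 1) (hm : 0 < m) (hn : 0 < n)
    (hp1 : n ≤ p * (4 * h)) (hp2 : (p - 1) * (4 * h) < n)
    (hq1 : m ≤ q * (4 * h)) (hq2 : (q - 1) * (4 * h) < m)
    (ha : p * (4 * h) ≤ a * m) (hb : q * (4 * h) ≤ b * n) :
    Realiz (Fin m) (Fin n) (fun _ => (p + a) * (h + 5)) (fun _ => (q + b) * (h + 1)) Set.univ := by
  classical
  have hg : 0 < 4 * h := by omega
  let β : Fin p × Fin q → Fin (4 * h) → Fin m := fun ik u =>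
    ⟨if ik.2.1 * (4 * h) + u.1 < m then ik.2.1 * (4 * h) + u.1
      else (ik.1.1 * (4 * h) + u.1) % m, by
      split_ifs with h1
      · exact h1
      · exact Nat.mod_lt _ hm⟩
  let α : Fin p × Fin q → Fin (4 * h) → Fin n := fun ik u =>
    ⟨if ik.1.1 * (4 * h) + u.1 < n then ik.1.1 * (4 * h) + u.1
      else (ik.2.1 * (4 * h) + u.1) % n, by
      split_ifs with h1
      · exact h1
      · exact Nat.mod_lt _ hn⟩
  have H : ∀ ik : Fin p × Fin q, Realiz (Fin m) (Fin n)
      (fun y => ∑ _u ∈ univ.filter (fun u => β ik u = y), (h + 5))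
      (fun x => ∑ _u ∈ univ.filter (fun u => α ik u = x), (h + 1))
      {s | (∃ u, β ik u = s.1) ∧ (∃ v, α ik v = s.2)} := by
    intro ik
    refine (pat_square h hodd).map (β ik) (α ik) (fun _ => le_rfl) (fun _ => le_rfl) ?_
    rintro ⟨y, x⟩ ⟨⟨u, hu⟩, ⟨v, hv⟩⟩
    exact ⟨(u, v), trivial, hu, hv⟩
  refine (Realiz.union _ _ _ H).mono ?_ ?_ ?_
  · intro y
    apply sum_sum_filter (fun ik u => β ik u = y)
    exact block_count (4 * h) m p q a hm hq2 ha y β (fun _ _ => rfl)
  · intro x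
    apply sum_sum_filter (fun ik u => α ik u = x)
    have h1 := block_count (4 * h) n q p b hn hp2 hb x
      (fun ki u => α (ki.2, ki.1) u) (fun _ _ => rfl)
    refine le_trans ?_ h1
    rw [← Finset.card_eq_sum_ones, ← Finset.card_eq_sum_ones]
    apply Finset.card_le_card_of_injOn (fun z => ((z.1.2, z.1.1), z.2))
    · intro z hz
      rw [Finset.coe_filter, Set.mem_ofPred_eq] at hz ⊢
      exact ⟨Finset.mem_univ _, hz.2⟩
    · intro z _ z' _ hzz
      simp only [Prod.mk.injEq] at hzz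
      obtain ⟨⟨e1, e2⟩, e3⟩ := hzz
      exact Prod.ext (Prod.ext e2 e1) e3
  · rintro ⟨y, x⟩ _
    rw [Set.mem_iUnion]
    have hy := y.2
    have hx := x.2
    have hi : x.1 / (4 * h) < p := by
      rw [Nat.div_lt_iff_lt_mul hg]; omega
    have hk : y.1 / (4 * h) < q := by
      rw [Nat.div_lt_iff_lt_mul hg]; omega
    have d1 := Nat.div_add_mod x.1 (4 * h)
    have d2 := Nat.div_add_mod y.1 (4 * h)
    rw [mul_comm (4 * h)] at d1 d2
    refine ⟨(⟨x.1 / (4 * h), hi⟩, ⟨y.1 / (4 * h), hk⟩),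
      ⟨⟨y.1 % (4 * h), Nat.mod_lt _ hg⟩, ?_⟩, ⟨⟨x.1 % (4 * h), Nat.mod_lt _ hg⟩, ?_⟩⟩
    · apply Fin.ext
      simp only [β, d2, if_pos hy]
    · apply Fin.ext
      simp only [α, d1, if_pos hx]

end Pool.Agent.Helper62
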