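import Mathlib
import Pool.Agent.Helper62.UBGeom

/-!
The geometric inequality for families of unit bars.
-/

set_option linter.unusedSectionVars false

namespace Pool.Agent.Helper62

open Finset

section

variable {ι : Type} [Fintype ι]

theorem Vis.symm {l h : ι → ℝ} {i j : ι} (H : Vis l h i j) : Vis l h j i := by
  obtain ⟨u, v, h1, h2, h3, h4, h5, h6⟩ := H
  refine ⟨u, v, h1, h4, h5, h2, h3, ?_⟩
  intro k hk1 hk2 w hw1 hw2 hw3 hw4
  rw [min_comm, max_comm]
  exact h6 k hk2 hk1 w hw1 hw2 hw3 hw4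

/-- all endpoints -/
noncomputable def ends (l : ι → ℝ) : Finset ℝ := by
  classical
  exact univ.image l ∪ univ.image (fun i => l i + 1)

theorem l_mem (l : ι → ℝ) (i : ι) : l i ∈ ends l := by
  unfold ends
  rw [Finset.mem_union]; left
  exact Finset.mem_image_of_mem _ (Finset.mem_univ _)

theorem r_mem (l : ι → ℝ) (i : ι) : l i + 1 ∈ ends l := by
  unfold ends
  rw [Finset.mem_union]; right
  exact Finset.mem_image.mpr ⟨i, Finset.mem_univ _, rfl⟩

/-- bar of rank `r` -/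
noncomputable def br (σ : Fin (Fintype.card ι) ≃ ι) (i0 : ι) (r : ℕ) : ι :=
  if h : r - 1 < Fintype.card ι then σ ⟨r - 1, h⟩ else i0

/-- rank of a bar -/
def rk (σ : Fin (Fintype.card ι) ≃ ι) (i : ι) : ℕ := (σ.symm i).1 + 1

theorem rk_pos (σ : Fin (Fintype.card ι) ≃ ι) (i : ι) : 1 ≤ rk σ i := by unfold rk; omega

theorem rk_le (σ : Fin (Fintype.card ι) ≃ ι) (i : ι) : rk σ i ≤ Fintype.card ι := by
  unfold rk; have := (σ.symm i).2; omega

theorem br_rk (σ : Fin (Fintype.card ι) ≃ ι) (i0 i : ι) : br σ i0 (rk σ i) = i := by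
  unfold br rk
  simp

theorem rk_br (σ : Fin (Fintype.card ι) ≃ ι) (i0 : ι) {r : ℕ} (h1 : 1 ≤ r)
    (h2 : r ≤ Fintype.card ι) : rk σ (br σ i0 r) = r := by
  unfold br
  rw [dif_pos (by omega)]
  unfold rk
  simp only [Equiv.symm_apply_apply]
  omega

theorem rk_inj (σ : Fin (Fintype.card ι) ≃ ι) {i j : ι} (h : rk σ i = rk σ j) : i = j := by
  unfold rk at h
  have : (σ.symm i) = (σ.symm j) := Fin.ext (by omega)
  exact σ.symm.injective this

/-- the arrangement attached to a family of bars -/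
noncomputable def mkArr (l : ι → ℝ) (σ : Fin (Fintype.card ι) ≃ ι) (i0 : ι) : Arr where
  M := (ends l).card - 1
  K := Fintype.card ι
  a r := if 1 ≤ r ∧ r ≤ Fintype.card ι then idx (ends l) (l (br σ i0 r)) else 0
  b r := if 1 ≤ r ∧ r ≤ Fintype.card ι then idx (ends l) (l (br σ i0 r) + 1)
    else (ends l).card - 1
  hab := by
    intro r _
    split_ifs with h
    · exact idx_lt_idx (l_mem l _) (by linarith)
    · have h1 := idx_lt_idx (l_mem l i0) (show l i0 < l i0 + 1 by linarith)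
      have h2 := idx_le_card (r_mem l i0)
      omega
  hb := by
    intro r _
    split_ifs with h
    · exact idx_le_card (r_mem l _)
    · exact le_rfl
  a0 := by simp
  b0 := by simp
  aT := by simp
  bT := by simp

theorem mkArr_cov (l : ι → ℝ) (σ : Fin (Fintype.card ι) ≃ ι) (i0 i : ι) {u : ℝ}
    (hne : ∃ y ∈ ends l, y ≤ u) :
    (mkArr l σ i0).cov (rk σ i) (colOf (ends l) u) ↔ (l i ≤ u ∧ u < l i + 1) := by
  unfold Arr.cov mkArr
  simp only
  rw [if_pos ⟨rk_pos σ i, rk_le σ i⟩, if_pos ⟨rk_pos σ i, rk_le σ i⟩, br_rk]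
  exact cov_iff (l_mem l i) (r_mem l i) hne

/-- visible bars are consecutive in some column -/
theorem edge_of_vis (l h : ι → ℝ) (σ : Fin (Fintype.card ι) ≃ ι) (i0 : ι)
    (hσ : ∀ a b, a < b → h (σ a) ≤ h (σ b)) {i j : ι} (hV : Vis l h i j)
    (hr : rk σ i < rk σ j) :
    ∃ E : (mkArr l σ i0).Edge, ((mkArr l σ i0).p E).1 = rk σ i ∧
      ((mkArr l σ i0).q E).1 = rk σ j := by
  obtain ⟨u, v, huv, h1, h2, h3, h4, h5⟩ := hV
  have hne : ∃ y ∈ ends l, y ≤ u := ⟨l i, l_mem l i, h1⟩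
  have hci := (mkArr_cov l σ i0 i hne).mpr ⟨h1, by linarith⟩
  have hcj := (mkArr_cov l σ i0 j hne).mpr ⟨h3, by linarith⟩
  have hjM : colOf (ends l) u < (mkArr l σ i0).M :=
    (mkArr l σ i0).cov_lt (by have := rk_le σ i; show rk σ i ≤ Fintype.card ι + 1; omega) hci
  have hmono : ∀ a b : ι, rk σ a < rk σ b → h a ≤ h b := by
    intro a b hab
    have := hσ (σ.symm a) (σ.symm b) (by rw [Fin.lt_def]; unfold rk at hab; omega)
    simpa using this
  have hKi : rk σ i ≤ (mkArr l σ i0).K := rk_le σ i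
  refine ⟨⟨(⟨colOf (ends l) u, hjM⟩, ⟨rk σ i, by omega⟩), hci⟩, rfl, ?_⟩
  show (mkArr l σ i0).hi (colOf (ends l) u) (rk σ i) = rk σ j
  rw [(mkArr l σ i0).hi_eq_iff hjM hKi hci]
  refine ⟨hcj, rk_pos σ j, ?_⟩
  apply le_antisymm
  · exact (mkArr l σ i0).le_lo (by omega) hci
  · by_contra hcon
    push Not at hcon
    set s := (mkArr l σ i0).lo (colOf (ends l) u) (rk σ j - 1) with hs
    have hs1 : s ≤ rk σ j - 1 := (mkArr l σ i0).lo_le _ _
    have hs2 : (mkArr l σ i0).cov s (colOf (ends l) u) := (mkArr l σ i0).lo_cov hjM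
    have hsle : s ≤ Fintype.card ι := by have := rk_le σ j; omega
    have hs0 : 1 ≤ s := by have := rk_pos σ i; omega
    have hsk : rk σ (br σ i0 s) = s := rk_br σ i0 hs0 hsle
    set k := br σ i0 s with hk
    have hck : l k ≤ u ∧ u < l k + 1 := by
      rw [← mkArr_cov l σ i0 k hne, hsk]; exact hs2
    have hki : k ≠ i := by rintro hkk; rw [hkk] at hsk; omega
    have hkj : k ≠ j := by
      rintro hkk; rw [hkk] at hsk; have := rk_pos σ j; omega
    have hh1 : h i ≤ h k := hmono i k (by omega)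
    have hh2 : h k ≤ h j := hmono k j (by have := rk_pos σ j; omega)
    exact h5 k hki hkj u le_rfl huv.le hck.1 hck.2.le
      ⟨(min_le_left _ _).trans hh1, hh2.trans (le_max_right _ _)⟩

theorem geom_bound (l h : ι → ℝ) (hdisj : ∀ i j, i ≠ j → h i = h j → 1 < |l i - l j|)
    (isY : ι → Prop) {L : Type*} (lab : ι → L)
    (hYY : ∀ i j, i ≠ j → isY i → isY j → Vis l h i j → lab i = lab j)
    (T : Finset (ι × ι)) (hT : ∀ e ∈ T, ¬ isY e.1 ∧ isY e.2 ∧ Vis l h e.1 e.2)
    (hTinj : ∀ e ∈ T, ∀ e' ∈ T, e.1 = e'.1 → lab e.2 = lab e'.2 → e = e')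
    [DecidablePred isY] :
    T.card ≤ 4 * (univ.filter (fun i => ¬ isY i)).card := by
  classical
  rcases Finset.eq_empty_or_nonempty T with hTe | ⟨e0, he0⟩
  · rw [hTe]; simp
  have i0 : ι := e0.1
  obtain ⟨σ, hσ⟩ := exists_enum l h hdisj
  set A := mkArr l σ i0 with hA
  have hKA : A.K = Fintype.card ι := rfl
  have hMA : A.M = (ends l).card - 1 := rfl
  let isY' : ℕ → Prop := fun r => 1 ≤ r ∧ r ≤ Fintype.card ι ∧ isY (br σ i0 r)
  have hmono : ∀ a b : ι, rk σ a < rk σ b → h a ≤ h b := by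
    intro a b hab
    have := hσ (σ.symm a) (σ.symm b) (by rw [Fin.lt_def]; unfold rk at hab; omega)
    simpa using this
  have hisY' : ∀ i, isY' (rk σ i) ↔ isY i := by
    intro i
    simp only [isY', br_rk]
    exact ⟨fun h => h.2.2, fun h => ⟨rk_pos σ i, rk_le σ i, h⟩⟩
  -- the edges of T
  have hedge : ∀ e ∈ T, ∃ E : A.Edge, A.mixed isY' E ∧ (A.p E).1 ≠ 0 ∧ (A.q E).1 ≠ A.K + 1 ∧
      (A.xend isY' E).1 = rk σ e.1 ∧ (A.yend isY' E).1 = rk σ e.2 := by
    intro e he
    obtain ⟨hx, hy, hV⟩ := hT e he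
    have hne : rk σ e.1 ≠ rk σ e.2 := by
      intro heq
      have := rk_inj σ heq
      rw [this] at hx; exact hx hy
    have hx' : ¬ isY' (rk σ e.1) := by rw [hisY']; exact hx
    have hy' : isY' (rk σ e.2) := by rw [hisY']; exact hy
    have hp1 := rk_pos σ e.1
    have hp2 := rk_pos σ e.2
    have hq1 := rk_le σ e.1
    have hq2 := rk_le σ e.2
    rcases lt_or_gt_of_ne hne with hlt | hlt
    · obtain ⟨E, hEp, hEq⟩ := edge_of_vis l h σ i0 hσ hV hlt
      refine ⟨E, Or.inr ⟨by rw [hEp]; exact hx', by rw [hEq]; exact hy'⟩, by rw [hEp]; omega,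
        by rw [hEq]; omega, ?_, ?_⟩
      · unfold Arr.xend; rw [if_neg (by rw [hEp]; exact hx')]; exact hEp
      · unfold Arr.yend; rw [if_neg (by rw [hEp]; exact hx')]; exact hEq
    · obtain ⟨E, hEp, hEq⟩ := edge_of_vis l h σ i0 hσ hV.symm hlt
      refine ⟨E, Or.inl ⟨by rw [hEp]; exact hy', by rw [hEq]; exact hx'⟩, by rw [hEp]; omega,
        by rw [hEq]; omega, ?_, ?_⟩
      · unfold Arr.xend; rw [if_pos (by rw [hEp]; exact hy')]; exact hEq
      · unfold Arr.yend; rw [if_pos (by rw [hEp]; exact hy')]; exact hEp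
  choose fE hf1 hf2 hf3 hf4 hf5 using hedge
  let T' : Finset A.Edge := T.attach.image (fun e => fE e.1 e.2)
  have hT'card : T'.card = T.card := by
    rw [← Finset.card_attach (s := T)]
    apply Finset.card_image_of_injective
    intro e e' hee
    have hee' : fE e.1 e.2 = fE e'.1 e'.2 := hee
    apply Subtype.ext
    apply Prod.ext
    · apply rk_inj σ
      rw [← hf4 e.1 e.2, ← hf4 e'.1 e'.2, hee']
    · apply rk_inj σ
      rw [← hf5 e.1 e.2, ← hf5 e'.1 e'.2, hee']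
  have hT' : ∀ E ∈ T', ∃ e, ∃ he : e ∈ T, E = fE e he := by
    intro E hE
    rw [Finset.mem_image] at hE
    obtain ⟨e, _, rfl⟩ := hE
    exact ⟨e.1, e.2, rfl⟩
  -- lines
  let Λ : Finset ℕ := univ.image (fun i => colOf (ends l) (⌈l i⌉ : ℝ))
  have hneN : ∀ i, ∃ y ∈ ends l, y ≤ ((⌈l i⌉ : ℤ) : ℝ) := fun i => ⟨l i, l_mem l i, Int.le_ceil _⟩
  have hcovi : ∀ i, A.cov (rk σ i) (colOf (ends l) (⌈l i⌉ : ℝ)) := by
    intro i
    rw [hA, mkArr_cov l σ i0 i (hneN i)]
    exact ⟨Int.le_ceil _, Int.ceil_lt_add_one _⟩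
  have hΛ : ∀ j ∈ Λ, j < A.M := by
    intro j hj
    rw [Finset.mem_image] at hj
    obtain ⟨i, _, rfl⟩ := hj
    exact A.cov_lt (by have := rk_le σ i; omega) (hcovi i)
  have hline : ∀ r, 1 ≤ r → r ≤ A.K → ∀ j ∈ Λ, ∀ j' ∈ Λ, A.cov r j → A.cov r j' → j = j' := by
    intro r hr1 hr2 j hj j' hj' hc hc'
    rw [Finset.mem_image] at hj hj'
    obtain ⟨i, _, rfl⟩ := hj
    obtain ⟨i', _, rfl⟩ := hj'
    rw [← rk_br σ i0 hr1 hr2, hA] at hc hc'
    rw [mkArr_cov l σ i0 _ (hneN i)] at hc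
    rw [mkArr_cov l σ i0 _ (hneN i')] at hc'
    have h1 : ((⌈l i⌉ : ℤ) : ℝ) < ((⌈l i'⌉ : ℤ) : ℝ) + 1 := by linarith [hc.2, hc'.1]
    have h2 : ((⌈l i'⌉ : ℤ) : ℝ) < ((⌈l i⌉ : ℤ) : ℝ) + 1 := by linarith [hc'.2, hc.1]
    have h1' : ⌈l i⌉ < ⌈l i'⌉ + 1 := by exact_mod_cast h1
    have h2' : ⌈l i'⌉ < ⌈l i⌉ + 1 := by exact_mod_cast h2
    have : ⌈l i⌉ = ⌈l i'⌉ := by omega
    simp only [this]
  have hex : ∀ r, 1 ≤ r → r ≤ A.K → isY' r → ∃ j ∈ Λ, A.cov r j := by
    intro r hr1 hr2 _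
    refine ⟨_, Finset.mem_image_of_mem _ (Finset.mem_univ (br σ i0 r)), ?_⟩
    have := hcovi (br σ i0 r)
    rw [rk_br σ i0 hr1 hr2] at this
    exact this
  -- labels
  have hlab : ∀ j r, j < A.M → r ≤ A.K → A.cov r j → isY' r → isY' (A.hi j r) →
      (fun s => lab (br σ i0 s)) r = (fun s => lab (br σ i0 s)) (A.hi j r) := by
    intro j r hj hr hc hr' hs'
    have hm := A.hi_mem hj hr
    set s := A.hi j r with hs
    have hri : rk σ (br σ i0 r) = r := rk_br σ i0 hr'.1 hr'.2.1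
    have hsi : rk σ (br σ i0 s) = s := rk_br σ i0 hs'.1 hs'.2.1
    show lab (br σ i0 r) = lab (br σ i0 s)
    set i := br σ i0 r with hi
    set k := br σ i0 s with hk
    have hik : i ≠ k := by
      intro h; rw [h] at hri; omega
    apply hYY i k hik hr'.2.2 hs'.2.2
    obtain ⟨u, v, huv, hint⟩ := exists_interior (ends l) (j := j) (by omega)
    have hcov_pt : ∀ m w, u ≤ w → w ≤ v → (A.cov (rk σ m) j ↔ (l m ≤ w ∧ w < l m + 1)) := by
      intro m w hw1 hw2
      obtain ⟨_, hcw, hnew⟩ := hint w hw1 hw2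
      rw [← hcw, hA]
      exact mkArr_cov l σ i0 m hnew
    have hci : A.cov (rk σ i) j := by rw [hri]; exact hc
    have hck : A.cov (rk σ k) j := by rw [hsi]; exact hm.2
    have hiu := (hcov_pt i u le_rfl huv.le).mp hci
    have hiv := (hcov_pt i v huv.le le_rfl).mp hci
    have hku := (hcov_pt k u le_rfl huv.le).mp hck
    have hkv := (hcov_pt k v huv.le le_rfl).mp hck
    refine ⟨u, v, huv, hiu.1, hiv.2.le, hku.1, hkv.2.le, ?_⟩
    intro m hmi hmk w hw1 hw2 hw3 hw4 hbetween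
    obtain ⟨hwP, _, _⟩ := hint w hw1 hw2
    have hw4' : w < l m + 1 := by
      rcases lt_or_eq_of_le hw4 with h | h
      · exact h
      · exact absurd (h ▸ r_mem l m) hwP
    have hcm : A.cov (rk σ m) j := (hcov_pt m w hw1 hw2).mpr ⟨hw3, hw4'⟩
    have hiw := (hcov_pt i w hw1 hw2).mp hci
    have hkw := (hcov_pt k w hw1 hw2).mp hck
    have hle : h i ≤ h k := hmono i k (by omega)
    rw [min_eq_left hle, max_eq_right hle] at hbetween
    have hne1 : h i ≠ h m := by
      intro heq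
      have h1 := hdisj i m (Ne.symm hmi) heq
      have h2 : |l i - l m| ≤ 1 := by rw [abs_le]; constructor <;> linarith [hiw.1, hiw.2]
      linarith
    have hne2 : h m ≠ h k := by
      intro heq
      have h1 := hdisj m k hmk heq
      have h2 : |l m - l k| ≤ 1 := by rw [abs_le]; constructor <;> linarith [hkw.1, hkw.2]
      linarith
    have hlt1 : h i < h m := lt_of_le_of_ne hbetween.1 hne1
    have hlt2 : h m < h k := lt_of_le_of_ne hbetween.2 hne2
    have hr1 : r < rk σ m := by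
      by_contra hcon
      push Not at hcon
      have hne : rk σ m ≠ rk σ i := fun h => hmi (rk_inj σ h)
      have := hmono m i (by omega)
      linarith
    have hr2 : rk σ m < s := by
      by_contra hcon
      push Not at hcon
      have hne : rk σ m ≠ rk σ k := fun h => hmk (rk_inj σ h)
      have := hmono k m (by omega)
      linarith
    have := A.hi_le hr1 hcm
    omega
  have hmain := A.main_count isY' (by simp [isY']) (by simp [isY', hKA]) Λ hΛ hline hex
    (fun s => lab (br σ i0 s)) hlab T'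
    (by
      intro E hE
      obtain ⟨e, he, rfl⟩ := hT' E hE
      exact ⟨hf1 e he, hf2 e he, hf3 e he⟩)
    (by
      intro E hE E' hE' hx hy
      obtain ⟨e, he, rfl⟩ := hT' E hE
      obtain ⟨e', he', rfl⟩ := hT' E' hE'
      have hx' : rk σ e.1 = rk σ e'.1 := by
        rw [← hf4 e he, ← hf4 e' he', hx]
      simp only [hf5, br_rk] at hy
      have := hTinj e he e' he' (rk_inj σ hx') hy
      subst this; rfl)
  rw [hT'card] at hmain
  refine hmain.trans ?_
  apply Nat.mul_le_mul_left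
  -- compare the counts
  unfold Arr.nX
  apply Finset.card_le_card_of_injOn (br σ i0)
  · intro r hr
    have hr' := Finset.mem_filter.mp (Finset.mem_coe.mp hr)
    rw [Finset.mem_range] at hr'
    apply Finset.mem_coe.mpr
    rw [Finset.mem_filter]
    refine ⟨Finset.mem_univ _, ?_⟩
    intro hY
    exact hr'.2.2 ⟨hr'.2.1, by omega, hY⟩
  · intro r hr r' hr' heq
    have h1 := Finset.mem_filter.mp (Finset.mem_coe.mp hr)
    have h2 := Finset.mem_filter.mp (Finset.mem_coe.mp hr')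
    rw [Finset.mem_range] at h1 h2
    rw [← rk_br σ i0 h1.2.1 (by omega : r ≤ Fintype.card ι),
      ← rk_br σ i0 h2.2.1 (by omega : r' ≤ Fintype.card ι), heq]

end

end Pool.Agent.Helper62
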