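import Mathlib
import Pool.Agent.Helper62.UBDefs
import Pool.Agent.Helper62.UBBound

/-!
Lower bound for the unit bar visibility number of complete bipartite graphs.
-/

set_option linter.unusedSectionVars false

namespace Pool.Agent.Helper62

open Finset

theorem seg_disj {b c : ℝ × ℝ} (h : Disjoint (seg b) (seg c)) (heq : b.2 = c.2) :
    1 < |b.1 - c.1| := by
  by_contra hcon
  push Not at hcon
  rw [abs_le] at hcon
  rw [Set.disjoint_left] at h
  apply h (a := (max b.1 c.1, b.2))
  · refine ⟨le_max_left _ _, ?_, rfl⟩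
    simp only
    rw [max_le_iff]
    constructor <;> linarith
  · refine ⟨le_max_right _ _, ?_, heq⟩
    simp only
    rw [max_le_iff]
    constructor <;> linarith

theorem seg_ne {b c : ℝ × ℝ} (h : Disjoint (seg b) (seg c)) : b ≠ c := by
  rintro rfl
  have := seg_disj h rfl
  simp at this
  linarith

/-- In any `t`-unit-bar visibility representation of `K_{m,n}` with `n ≥ 1`, `m ≤ 4 t`. -/
theorem rep_bound {m n t : ℕ} (hn : 1 ≤ n) (B : Fin m ⊕ Fin n → Finset (ℝ × ℝ))
    (hB : IsRep (completeBipartiteGraph (Fin m) (Fin n)) t B) : m ≤ 4 * t := by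
  classical
  let ι : Type := Σ v : Fin m ⊕ Fin n, {b // b ∈ B v}
  let l : ι → ℝ := fun i => i.2.1.1
  let h : ι → ℝ := fun i => i.2.1.2
  have hbar : ∀ i j : ι, i ≠ j → Disjoint (seg i.2.1) (seg j.2.1) := by
    rintro ⟨v, b, hb⟩ ⟨w, c, hc⟩ hne
    apply hB.disj v w b hb c hc
    by_contra hcon
    push Not at hcon
    obtain ⟨rfl, rfl⟩ := hcon
    exact hne rfl
  have hdisj : ∀ i j, i ≠ j → h i = h j → 1 < |l i - l j| := by
    intro i j hne heq
    exact seg_disj (hbar i j hne) heq
  -- conversions between the two notions of visibility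
  have hsees : ∀ i j : ι, Vis l h i j ↔ Sees {d | ∃ x, d ∈ B x} i.2.1 j.2.1 := by
    intro i j
    constructor
    · rintro ⟨u, v, h1, h2, h3, h4, h5, h6⟩
      refine ⟨u, v, h1, h2, h3, h4, h5, ?_⟩
      rintro d ⟨x, hx⟩ hdi hdj
      rw [Set.disjoint_left]
      rintro ⟨p1, p2⟩ hp hp'
      obtain ⟨hp1, hp2, hp3⟩ := hp
      obtain ⟨⟨hq1, hq2⟩, hq3, hq4⟩ := hp'
      simp only at hp1 hp2 hp3 hq1 hq2 hq3 hq4
      let k : ι := ⟨x, d, hx⟩
      apply h6 k (by rintro hk; apply hdi; rw [← hk]) (by rintro hk; apply hdj; rw [← hk])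
        p1 hq1 hq2 hp1 hp2
      show min (h i) (h j) ≤ d.2 ∧ d.2 ≤ max (h i) (h j)
      rw [← hp3]
      exact ⟨hq3, hq4⟩
    · rintro ⟨u, v, h1, h2, h3, h4, h5, h6⟩
      refine ⟨u, v, h1, h2, h3, h4, h5, ?_⟩
      intro k hki hkj w hw1 hw2 hw3 hw4 hb
      have hd := h6 k.2.1 ⟨k.1, k.2.2⟩ (seg_ne (hbar k i hki)) (seg_ne (hbar k j hkj))
      rw [Set.disjoint_left] at hd
      exact hd (a := (w, k.2.1.2)) ⟨hw3, hw4, rfl⟩ ⟨⟨hw1, hw2⟩, hb.1, hb.2⟩
  let isY : ι → Prop := fun i => i.1.isLeft = true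
  -- edges
  have hadj : ∀ (a : Fin m) (b : Fin n), ∃ i j : ι, i.1 = Sum.inr b ∧ j.1 = Sum.inl a ∧
      Vis l h i j := by
    intro a b
    have h1 : (completeBipartiteGraph (Fin m) (Fin n)).Adj (Sum.inr b) (Sum.inl a) := by
      simp [completeBipartiteGraph]
    rw [hB.adj_iff _ _ (by simp)] at h1
    obtain ⟨c, hc, d, hd, hs⟩ := h1
    refine ⟨⟨Sum.inr b, c, hc⟩, ⟨Sum.inl a, d, hd⟩, rfl, rfl, ?_⟩
    rw [hsees]
    exact hs
  choose fi fj hfi hfj hV using hadj
  let T : Finset (ι × ι) := univ.image (fun p : Fin m × Fin n => (fi p.1 p.2, fj p.1 p.2))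
  have hTcard : T.card = m * n := by
    have : T.card = (univ : Finset (Fin m × Fin n)).card := by
      apply Finset.card_image_of_injective
      rintro ⟨a, b⟩ ⟨a', b'⟩ heq
      have heq' := (Prod.mk.injEq _ _ _ _).mp heq
      simp only at heq'
      have h1 : Sum.inr (α := Fin m) b = Sum.inr b' := by
        rw [← hfi a b, ← hfi a' b', heq'.1]
      have h2 : Sum.inl (β := Fin n) a = Sum.inl a' := by
        rw [← hfj a b, ← hfj a' b', heq'.2]
      rw [Sum.inr.injEq] at h1
      rw [Sum.inl.injEq] at h2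
      rw [h1, h2]
    rw [this]
    simp
  have hmain := geom_bound l h hdisj isY (fun i => i.1) (by
    intro i j hne hi hj hV
    by_contra hne'
    rw [hsees] at hV
    have hA : (completeBipartiteGraph (Fin m) (Fin n)).Adj i.1 j.1 := by
      rw [hB.adj_iff _ _ hne']
      exact ⟨i.2.1, i.2.2, j.2.1, j.2.2, hV⟩
    have hi' : i.1.isLeft = true := hi
    have hj' : j.1.isLeft = true := hj
    rcases h1 : i.1 with a | a <;> rcases h2 : j.1 with b | b <;>
      simp [h1, h2, completeBipartiteGraph] at hA hi' hj') T (by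
    intro e he
    rw [Finset.mem_image] at he
    obtain ⟨⟨a, b⟩, _, rfl⟩ := he
    refine ⟨?_, ?_, hV a b⟩
    · show ¬ ((fi a b).1.isLeft = true)
      rw [hfi a b]; simp
    · show (fj a b).1.isLeft = true
      rw [hfj a b]; simp) (by
    intro e he e' he' hx hy
    rw [Finset.mem_image] at he he'
    obtain ⟨⟨a, b⟩, _, rfl⟩ := he
    obtain ⟨⟨a', b'⟩, _, rfl⟩ := he'
    simp only at hx hy
    have h1 : Sum.inr (α := Fin m) b = Sum.inr b' := by
      rw [← hfi a b, ← hfi a' b', hx]
    have h2 : Sum.inl (β := Fin n) a = Sum.inl a' := by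
      rw [← hfj a b, ← hfj a' b', hy]
    rw [Sum.inr.injEq] at h1
    rw [Sum.inl.injEq] at h2
    rw [h1, h2])
  rw [hTcard] at hmain
  -- number of X bars
  have hX : (univ.filter (fun i : ι => ¬ isY i)).card ≤ n * t := by
    have h1 : univ.filter (fun i : ι => ¬ isY i)
        ⊆ (univ : Finset (Fin n)).biUnion (fun b =>
          (univ : Finset {c // c ∈ B (Sum.inr b)}).image
            (fun c => (⟨Sum.inr b, c⟩ : ι))) := by
      rintro ⟨v, c⟩ hv
      rw [Finset.mem_filter] at hv
      have hv2 : ¬ (v.isLeft = true) := hv.2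
      rw [Finset.mem_biUnion]
      rcases v with a | b
      · simp at hv2
      · exact ⟨b, Finset.mem_univ _, Finset.mem_image_of_mem _ (Finset.mem_univ c)⟩
    refine (Finset.card_le_card h1).trans ?_
    refine Finset.card_biUnion_le.trans ?_
    calc ∑ b : Fin n, ((univ : Finset {c // c ∈ B (Sum.inr b)}).image
            (fun c => (⟨Sum.inr b, c⟩ : ι))).card
        ≤ ∑ _b : Fin n, t := by
          apply Finset.sum_le_sum
          intro b _
          refine Finset.card_image_le.trans ?_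
          rw [Finset.card_univ, Fintype.card_coe]
          exact hB.card_le _
      _ = n * t := by simp
  have h2 : m * n ≤ 4 * t * n := by
    calc m * n ≤ 4 * (univ.filter (fun i : ι => ¬ isY i)).card := hmain
      _ ≤ 4 * (n * t) := Nat.mul_le_mul_left _ hX
      _ = 4 * t * n := by ring
  exact Nat.le_of_mul_le_mul_right h2 hn

end Pool.Agent.Helper62
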