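import Mathlib
import Pool.Agent.Helper62.UBBlocks
import Pool.Agent.Helper62.UBLower

/-!
The upper bound, and the two-sided estimate.
-/

set_option linter.unusedSectionVars false

namespace Pool.Agent.Helper62

open Finset

/-- joining two patterns along the second side -/
theorem Realiz.join {m a b : ℕ} {c c' d : ℕ}
    (H : Realiz (Fin m) (Fin a) (fun _ => c) (fun _ => d) Set.univ)
    (H' : Realiz (Fin m) (Fin b) (fun _ => c') (fun _ => d) Set.univ) :
    Realiz (Fin m) (Fin (a + b)) (fun _ => c + c') (fun _ => d) Set.univ := by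
  classical
  have h1 : Realiz (Fin m) (Fin (a + b)) (fun _ => c) (fun x => if x.1 < a then d else 0)
      {s | s.2.1 < a} := by
    refine H.map id (Fin.castAdd b) ?_ ?_ ?_
    · intro p'
      simp only [id_eq, Finset.filter_eq', Finset.mem_univ, if_true, Finset.sum_singleton, le_refl]
    · intro q'
      by_cases hq : q'.1 < a
      · rw [if_pos hq]
        have : univ.filter (fun q => Fin.castAdd b q = q') ⊆ {⟨q'.1, hq⟩} := by
          intro q hqq
          rw [Finset.mem_filter] at hqq
          rw [Finset.mem_singleton]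
          apply Fin.ext
          have := congrArg Fin.val hqq.2
          simpa using this
        refine (Finset.sum_le_sum_of_subset this).trans ?_
        simp
      · rw [if_neg hq]
        have : univ.filter (fun q => Fin.castAdd b q = q') = ∅ := by
          rw [Finset.filter_eq_empty_iff]
          intro q _ hqq
          apply hq
          rw [← hqq]
          exact q.2
        rw [this]
        simp
    · rintro ⟨y, x⟩ hx
      rw [Set.mem_ofPred_eq] at hx
      exact ⟨(y, ⟨x.1, hx⟩), trivial, rfl, Fin.ext rfl⟩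
  have h2 : Realiz (Fin m) (Fin (a + b)) (fun _ => c') (fun x => if x.1 < a then 0 else d)
      {s | ¬ s.2.1 < a} := by
    refine H'.map id (Fin.natAdd a) ?_ ?_ ?_
    · intro p'
      simp only [id_eq, Finset.filter_eq', Finset.mem_univ, if_true, Finset.sum_singleton, le_refl]
    · intro q'
      by_cases hq : q'.1 < a
      · rw [if_pos hq]
        have : univ.filter (fun q => Fin.natAdd a q = q') = ∅ := by
          rw [Finset.filter_eq_empty_iff]
          intro q _ hqq
          rw [← hqq] at hq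
          simp at hq
        rw [this]
        simp
      · rw [if_neg hq]
        have hq2 : q'.1 - a < b := by
          have := q'.2
          omega
        have : univ.filter (fun q => Fin.natAdd a q = q') ⊆ {⟨q'.1 - a, hq2⟩} := by
          intro q hqq
          rw [Finset.mem_filter] at hqq
          rw [Finset.mem_singleton]
          apply Fin.ext
          have := congrArg Fin.val hqq.2
          simp only [Fin.val_natAdd] at this ⊢
          omega
        refine (Finset.sum_le_sum_of_subset this).trans ?_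
        simp
    · rintro ⟨y, x⟩ hx
      rw [Set.mem_ofPred_eq] at hx
      have hx' : ¬ x.1 < a := hx
      refine ⟨(y, ⟨x.1 - a, by have := x.2; omega⟩), trivial, rfl, Fin.ext ?_⟩
      simp only [Fin.val_natAdd]
      omega
  refine (h1.union2 h2).mono (fun _ => le_rfl) ?_ ?_
  · intro q
    split_ifs <;> simp
  · intro s _
    by_cases hs : s.2.1 < a
    · exact Or.inl hs
    · exact Or.inr hs

theorem Realiz.const_mono {m n c d t : ℕ}
    (H : Realiz (Fin m) (Fin n) (fun _ => c) (fun _ => d) Set.univ) (hc : c ≤ t) (hd : d ≤ t) :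
    Realiz (Fin m) (Fin n) (fun _ => t) (fun _ => t) Set.univ :=
  H.mono (fun _ => hc) (fun _ => hd) subset_rfl

/-- small `n` -/
theorem upper_small (m n : ℕ) (hn : 2 ≤ n) (hnm : 28 * n ≤ m) :
    ∃ t, 4 * t ≤ m + 27 ∧ Realiz (Fin m) (Fin n) (fun _ => t) (fun _ => t) Set.univ := by
  have hm : 0 < m := by omega
  rcases Nat.even_or_odd n with he | ho
  · obtain ⟨w, hw⟩ := he
    have hw2 : n = 2 * w := by omega
    subst hw2
    exact ⟨max (14 * w) ((m + 3) / 4 + 1), by omega,
      (pat_even m w hm (by omega)).const_mono (le_max_left _ _) (le_max_right _ _)⟩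
  · obtain ⟨w, hw⟩ := ho
    by_cases hw1 : w = 1
    · have : n = 3 := by omega
      subst this
      exact ⟨max 12 ((m + 3) / 4 + 6), by omega,
        (pat_three m hm).const_mono (le_max_left _ _) (le_max_right _ _)⟩
    · have hw2 : n = 3 + 2 * (w - 1) := by omega
      rw [hw2]
      have h1 := pat_three m hm
      have h2 := pat_even m (w - 1) hm (by omega)
      have h3 : Realiz (Fin m) (Fin (2 * (w - 1))) (fun _ => 14 * (w - 1))
        (fun _ => (m + 3) / 4 + 6) Set.univ := h2.mono (fun _ => le_rfl) (fun _ => by omega)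
          subset_rfl
      exact ⟨max (12 + 14 * (w - 1)) ((m + 3) / 4 + 6), by omega,
        (h1.join h3).const_mono (le_max_left _ _) (le_max_right _ _)⟩

/-- large `n` -/
theorem upper_large (m n : ℕ) (hnm : n ≤ m) (hnm2 : m < 28 * n)
    (hs : 225 ≤ Nat.sqrt m) :
    ∃ t, 4 * t ≤ m + 244 * Nat.sqrt m + 240 ∧
      Realiz (Fin m) (Fin n) (fun _ => t) (fun _ => t) Set.univ := by
  set s := Nat.sqrt m with hsdef
  have hs1 : s * s ≤ m := Nat.sqrt_le m
  have hs2 : m < (s + 1) * (s + 1) := Nat.lt_succ_sqrt m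
  have hg : 0 < 4 * (2 * s + 1) := by omega
  have hgn : 4 * (2 * s + 1) ≤ n := by nlinarith
  have hex : ∀ k, 0 < k → ∃ p, 1 ≤ p ∧ k ≤ p * (4 * (2 * s + 1)) ∧
      (p - 1) * (4 * (2 * s + 1)) < k := by
    intro k hk
    generalize 4 * (2 * s + 1) = g at hg
    refine ⟨(k - 1) / g + 1, Nat.le_add_left _ _, ?_, ?_⟩
    · have h1 := Nat.div_add_mod (k - 1) g
      have h2 := Nat.mod_lt (k - 1) hg
      have h3 : ((k - 1) / g + 1) * g = g * ((k - 1) / g) + g := by ring
      omega
    · rw [Nat.add_sub_cancel]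
      have := Nat.div_mul_le_self (k - 1) g
      omega
  obtain ⟨p, hp0, hp1, hp2⟩ := hex n (by omega)
  obtain ⟨q, hq0, hq1, hq2⟩ := hex m (by omega)
  obtain ⟨p', rfl⟩ : ∃ p', p = p' + 1 := ⟨p - 1, by omega⟩
  obtain ⟨q', rfl⟩ : ∃ q', q = q' + 1 := ⟨q - 1, by omega⟩
  have H := pat_blocks (2 * s + 1) m n (p' + 1) (q' + 1) 2 29 (by omega) (by omega) (by omega)
    hp1 hp2 hq1 hq2
    (by rw [Nat.add_sub_cancel] at hp2; nlinarith) (by rw [Nat.add_sub_cancel] at hq2; nlinarith)
  rw [Nat.add_sub_cancel] at hp2 hq2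
  have hp' : p' ≤ s := by
    by_contra hcon
    have : s + 1 ≤ p' := by omega
    nlinarith
  have hq' : q' ≤ s := by
    by_contra hcon
    have : s + 1 ≤ q' := by omega
    nlinarith
  refine ⟨max ((p' + 1 + 2) * (2 * s + 1 + 5)) ((q' + 1 + 29) * (2 * s + 1 + 1)), ?_,
    H.const_mono (le_max_left _ _) (le_max_right _ _)⟩
  rcases max_choice ((p' + 1 + 2) * (2 * s + 1 + 5)) ((q' + 1 + 29) * (2 * s + 1 + 1)) with h | h
  · rw [h]
    nlinarith
  · rw [h]
    nlinarith

/-- the two-sided estimate, in integers -/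
theorem ub_estimate (m n : ℕ) (hn : 2 ≤ n) (hnm : n ≤ m) :
    m ≤ 4 * ub (completeBipartiteGraph (Fin m) (Fin n)) ∧
      4 * ub (completeBipartiteGraph (Fin m) (Fin n)) ≤ m + 675 * (Nat.sqrt m + 1) := by
  have hs2 : m < (Nat.sqrt m + 1) * (Nat.sqrt m + 1) := Nat.lt_succ_sqrt m
  have hex : ∃ t, 4 * t ≤ m + 675 * (Nat.sqrt m + 1) ∧
      Realiz (Fin m) (Fin n) (fun _ => t) (fun _ => t) Set.univ := by
    by_cases h1 : 28 * n ≤ m
    · obtain ⟨t, ht, H⟩ := upper_small m n hn h1
      exact ⟨t, by omega, H⟩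
    · by_cases h2 : 225 ≤ Nat.sqrt m
      · obtain ⟨t, ht, H⟩ := upper_large m n hnm (by omega) h2
        refine ⟨t, le_trans ht ?_, H⟩
        generalize Nat.sqrt m = s
        have h3 : 244 * s ≤ 675 * s := Nat.mul_le_mul_right _ (by norm_num)
        linarith
      · have h3 : (Nat.sqrt m + 1) * (Nat.sqrt m + 1) ≤ 225 * (Nat.sqrt m + 1) :=
          Nat.mul_le_mul_right _ (by omega)
        exact ⟨m, by omega, (Realiz.trivial_bound m n).const_mono hnm le_rfl⟩
  obtain ⟨t, ht, H⟩ := hex
  refine ⟨?_, ?_⟩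
  · have hne : {t | ∃ B : Fin m ⊕ Fin n → Finset (ℝ × ℝ),
        IsRep (completeBipartiteGraph (Fin m) (Fin n)) t B}.Nonempty := by
      obtain ⟨B, hB⟩ := H.isRep
      exact ⟨t, B, hB⟩
    obtain ⟨B, hB⟩ := Nat.sInf_mem hne
    exact rep_bound (by omega) B hB
  · have h4 := H.ub_le
    exact le_trans (Nat.mul_le_mul_left 4 h4) ht

end Pool.Agent.Helper62
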